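import Mathlib

/-!
# Sums over sequences
-/

open Finset

namespace Pool.Agent.W107.Seq

section sums

variable {V : Type} [Inhabited V]

/-- The extension of a finite sequence. -/
def sq {T : ℕ} (u : Fin T → V) : ℕ → V := fun n => if h : n < T then u ⟨n, h⟩ else default

lemma sq_lt {T : ℕ} (u : Fin T → V) (t : Fin T) : sq u t.val = u t := by
  unfold sq
  rw [dif_pos t.2]

lemma sq_snoc {T : ℕ} (u : Fin T → V) (v : V) :
    sq (Fin.snoc (α := fun _ => V) u v) = Function.update (sq u) T v := by
  funext n
  unfold sq
  by_cases h1 : n < T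
  · rw [dif_pos (by omega), Function.update_of_ne (by omega), dif_pos h1]
    have : (⟨n, by omega⟩ : Fin (T + 1)) = Fin.castSucc ⟨n, h1⟩ := rfl
    rw [this, Fin.snoc_castSucc]
  · by_cases h2 : n = T
    · subst h2
      rw [dif_pos (by omega), Function.update_self]
      have : (⟨n, by omega⟩ : Fin (n + 1)) = Fin.last n := rfl
      rw [this, Fin.snoc_last]
    · rw [dif_neg (by omega), Function.update_of_ne h2, dif_neg h1]

variable [Fintype V]

lemma sum_succ {M : Type} [AddCommMonoid M] (T : ℕ) (F : (ℕ → V) → M) :
    ∑ u : Fin (T + 1) → V, F (sq u) = ∑ u : Fin T → V, ∑ v : V, F (Function.update (sq u) T v) := by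
  rw [← (Fin.snocEquiv (fun _ : Fin (T + 1) => V)).sum_comp, Fintype.sum_prod_type, sum_comm]
  refine sum_congr rfl fun u _ => sum_congr rfl fun v _ => ?_
  rw [← sq_snoc]
  rfl

/-- The sequence of the registers. -/
def reg {X V : Type} (f : ℕ → X → V → X) (x0 : X) (u : ℕ → V) : ℕ → X
  | 0 => x0
  | t + 1 => f t (reg f x0 u t) (u t)

lemma reg_congr {X V : Type} (f : ℕ → X → V → X) (x0 : X) (u u' : ℕ → V) (T : ℕ)
    (h : ∀ t < T, u t = u' t) : ∀ t ≤ T, reg f x0 u t = reg f x0 u' t := by
  intro t
  induction t with
  | zero => intro _; rfl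
  | succ t ih =>
    intro ht
    rw [reg, reg, ih (by omega), h t (by omega)]

open Classical in
/-- One step of the evolution of a vector. -/
noncomputable def stepv {X V : Type} [Fintype X] [Fintype V] (f : X → V → X) (γ : X → V → ℂ)
    (A : X → ℂ) (y : X) : ℂ := ∑ x, ∑ v, if f x v = y then γ x v * A x else 0

open Classical in
/-- The vector after `t` steps. -/
noncomputable def vec {X V : Type} [Fintype X] [Fintype V] (f : ℕ → X → V → X)
    (γ : ℕ → X → V → ℂ) (x0 : X) : ℕ → X → ℂ
  | 0 => fun y => if x0 = y then 1 else 0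
  | t + 1 => stepv (f t) (γ t) (vec f γ x0 t)

open Classical in
/-- Sums over paths. -/
theorem path_sum {X : Type} [Fintype X] (f : ℕ → X → V → X) (γ : ℕ → X → V → ℂ) (x0 y : X)
    (T : ℕ) : ∑ u : Fin T → V, (if reg f x0 (sq u) T = y then
      ∏ t ∈ range T, γ t (reg f x0 (sq u) t) (sq u t) else 0) = vec f γ x0 T y := by
  induction T generalizing y with
  | zero =>
    rw [Fintype.sum_unique]
    by_cases h : x0 = y <;> simp [reg, vec, h]
  | succ T ih =>
    rw [sum_succ T (fun u => if reg f x0 u (T + 1) = y then
      ∏ t ∈ range (T + 1), γ t (reg f x0 u t) (u t) else 0)]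
    have e1 : ∀ (u : Fin T → V) (v : V) (t : ℕ), t ≤ T →
        reg f x0 (Function.update (sq u) T v) t = reg f x0 (sq u) t := fun u v t ht =>
      reg_congr f x0 _ _ T (fun s hs => Function.update_of_ne (by omega) _ _) t ht
    have e2 : ∀ (u : Fin T → V) (v : V),
        (if reg f x0 (Function.update (sq u) T v) (T + 1) = y then
          ∏ t ∈ range (T + 1), γ t (reg f x0 (Function.update (sq u) T v) t)
            (Function.update (sq u) T v t) else 0) =
        ∑ x, if f T x v = y then γ T x v * (if reg f x0 (sq u) T = x then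
          ∏ t ∈ range T, γ t (reg f x0 (sq u) t) (sq u t) else 0) else 0 := by
      intro u v
      rw [sum_eq_single (reg f x0 (sq u) T)]
      · have e3 : reg f x0 (Function.update (sq u) T v) (T + 1) =
            f T (reg f x0 (sq u) T) v := by
          rw [reg, e1 u v T le_rfl, Function.update_self]
        rw [e3]
        by_cases h1 : f T (reg f x0 (sq u) T) v = y
        · rw [if_pos h1, if_pos h1, if_pos rfl]
          rw [prod_range_succ, e1 u v T le_rfl, Function.update_self, mul_comm]
          congr 1
          refine prod_congr rfl fun t ht => ?_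
          rw [mem_range] at ht
          rw [e1 u v t ht.le, Function.update_of_ne (by omega)]
        · rw [if_neg h1, if_neg h1]
      · intro x _ hx
        rw [if_neg (Ne.symm hx)]
        simp
      · intro h; exact absurd (mem_univ _) h
    simp_rw [e2]
    have e4 : ∑ u : Fin T → V, ∑ v : V, ∑ x, (if f T x v = y then γ T x v *
        (if reg f x0 (sq u) T = x then ∏ t ∈ range T, γ t (reg f x0 (sq u) t) (sq u t) else 0)
          else 0) = ∑ x, ∑ v, if f T x v = y then γ T x v * vec f γ x0 T x else 0 := by
      rw [sum_comm]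
      rw [sum_congr rfl fun v _ => sum_comm]
      rw [sum_comm]
      refine sum_congr rfl fun x _ => sum_congr rfl fun v _ => ?_
      split_ifs with h1
      · rw [← mul_sum, ih]
      · simp
    rw [e4]
    rfl

/-- Sums of non-negative weights over sequences of outcomes. -/
theorem norm_sum {X Z K : Type} [Fintype X] [Fintype K] (zs : (ℕ → V) → ℕ → Z)
    (hz : ∀ (u u' : ℕ → V) (t : ℕ), (∀ s < t, u s = u' s) → zs u t = zs u' t)
    (f : ℕ → Z → V → X → K → X) (γ : ℕ → Z → V → X → K → ℂ) (x0 : X) (Sup : ℕ → X → Prop)
    (T : ℕ) (h0 : Sup 0 x0)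
    (hs : ∀ t < T, ∀ z v x k, Sup t x → γ t z v x k ≠ 0 → Sup (t + 1) (f t z v x k))
    (hn : ∀ t < T, ∀ z, ∀ A : X → ℂ, (∀ x, ¬ Sup t x → A x = 0) →
      ∑ v, ∑ y, ‖stepv (f t z v) (γ t z v) A y‖ ^ 2 ≤ ∑ x, ‖A x‖ ^ 2) :
    ∀ t ≤ T, (∀ u x, ¬ Sup t x → vec (fun s => f s (zs u s) (u s))
        (fun s => γ s (zs u s) (u s)) x0 t x = 0) ∧
      ∑ u : Fin t → V, ∑ x, ‖vec (fun s => f s (zs (sq u) s) (sq u s))
        (fun s => γ s (zs (sq u) s) (sq u s)) x0 t x‖ ^ 2 ≤ 1 := by
  classical
  intro t
  induction t with
  | zero =>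
    intro _
    constructor
    · intro u x hx
      rw [vec]
      refine if_neg ?_
      intro h
      rw [← h] at hx
      exact hx h0
    · rw [Fintype.sum_unique]
      rw [sum_eq_single x0]
      · rw [vec]; simp
      · intro x _ hx
        have : ∀ (f' : ℕ → X → K → X) (γ' : ℕ → X → K → ℂ), vec f' γ' x0 0 x = 0 :=
          fun _ _ => if_neg (Ne.symm hx)
        rw [this]
        simp
      · intro h; exact absurd (mem_univ _) h
  | succ t ih =>
    intro ht
    obtain ⟨i1, i2⟩ := ih (by omega)
    constructor
    · intro u y hy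
      rw [vec]
      unfold stepv
      refine sum_eq_zero fun x _ => sum_eq_zero fun k _ => ?_
      split_ifs with h1
      · by_cases hx : Sup t x
        · by_cases hg : γ t (zs u t) (u t) x k = 0
          · rw [hg, zero_mul]
          · exact absurd (h1 ▸ hs t (by omega) _ _ x k hx hg) hy
        · rw [i1 u x hx, mul_zero]
      · rfl
    · have hv : ∀ (w : ℕ → V) (w' : ℕ → V) (n : ℕ), (∀ s < n, w s = w' s) →
          vec (fun s => f s (zs w s) (w s)) (fun s => γ s (zs w s) (w s)) x0 n =
          vec (fun s => f s (zs w' s) (w' s)) (fun s => γ s (zs w' s) (w' s)) x0 n := by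
        intro w w' n
        induction n with
        | zero => intro _; rfl
        | succ n ihn =>
          intro hw
          rw [vec, vec, ihn (fun s hs => hw s (by omega)), hz w w' n (fun s hs => hw s (by omega)),
            hw n (by omega)]
      rw [sum_succ t (fun u => ∑ x, ‖vec (fun s => f s (zs u s) (u s))
        (fun s => γ s (zs u s) (u s)) x0 (t + 1) x‖ ^ 2)]
      refine le_trans (sum_le_sum fun u _ => ?_) i2
      have e1 : ∀ v, vec (fun s => f s (zs (Function.update (sq u) t v) s)
          (Function.update (sq u) t v s)) (fun s => γ s (zs (Function.update (sq u) t v) s)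
            (Function.update (sq u) t v s)) x0 (t + 1) =
          stepv (f t (zs (sq u) t) v) (γ t (zs (sq u) t) v) (vec (fun s => f s (zs (sq u) s)
            (sq u s)) (fun s => γ s (zs (sq u) s) (sq u s)) x0 t) := by
        intro v
        rw [vec, hv (Function.update (sq u) t v) (sq u) t
          (fun s hs => Function.update_of_ne (by omega) _ _),
          hz (Function.update (sq u) t v) (sq u) t
          (fun s hs => Function.update_of_ne (by omega) _ _), Function.update_self]
      rw [sum_congr rfl fun v _ => by rw [e1 v]]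
      exact hn t (by omega) _ _ (fun x hx => i1 _ x hx)

end sums

section exch

/-- Exchange of sum and product: the times are divided among the processors. -/
theorem exch {V J : Type} [Inhabited V] [Fintype V] [Fintype J] [DecidableEq J] {T : ℕ}
    (f : Fin T → J) (F : J → (Fin T → V) → ℂ)
    (hF : ∀ j u u', (∀ t, f t = j → u t = u' t) → F j u = F j u')
    [∀ j, DecidablePred fun u : Fin T → V => ∀ t, f t ≠ j → u t = default] :
    ∏ j, ∑ u ∈ univ.filter (fun u : Fin T → V => ∀ t, f t ≠ j → u t = default), F j u =
      ∑ u, ∏ j, F j u := by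
  classical
  rw [Finset.prod_univ_sum]
  refine sum_nbij' (fun p t => p (f t) t) (fun u j t => if f t = j then u t else default)
    ?_ ?_ ?_ ?_ ?_
  · intro p _; exact mem_univ _
  · intro u _
    rw [Fintype.mem_piFinset]
    intro j
    rw [mem_filter]
    exact ⟨mem_univ _, fun t ht => if_neg ht⟩
  · intro p hp
    rw [Fintype.mem_piFinset] at hp
    funext j t
    simp only
    split_ifs with h
    · rw [h]
    · have := hp j
      rw [mem_filter] at this
      exact (this.2 t h).symm
  · intro u _
    funext t
    simp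
  · intro p _
    refine prod_congr rfl fun j _ => hF j _ _ fun t ht => ?_
    rw [ht]

end exch

end Pool.Agent.W107.Seq
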