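import Mathlib
import Pool.Agent.W107.DetMsg
import Pool.Agent.W107.Q.Seq

/-!
# Families of deterministic machines given by labels of the steps
-/

open Finset

namespace Pool.Agent.W107

open PagedMachine (ext)

/-- Machines with paged memory whose steps are given by labels. -/
structure WM (N : ℕ) (Q P C V : Type) where
  page : Q → P
  pos : ℕ → V → Fin N
  next : ℕ → V → Q → C → Q × C
  start : Q
  blank : P → C
  acc : Q → Prop

/-- The current page, according to the recorded states. -/
def pgf {Q P : Type} (page : Q → P) (st : ℕ → Option Q) : ℕ → Option P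
  | 0 => (st 0).map page
  | t + 1 => match st (t + 1) with
    | some q => some (page q)
    | none => pgf page st t

namespace WM

variable {N : ℕ} {Q P C V : Type} [DecidableEq P] (W : WM N Q P C V)

/-- The deterministic machine given by a sequence of labels. -/
def det (u : ℕ → V) : DetPaged N Bool Q P C where
  page := W.page
  pos t _ _ := W.pos t (u t)
  next t q c _ := W.next t (u t) q c
  start := W.start
  blank := W.blank
  acc := W.acc

omit [DecidableEq P] in
lemma det_pg (u : ℕ → V) (st : ℕ → Option Q) : (W.det u).pg st = pgf W.page st := by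
  funext t
  induction t with
  | zero => rfl
  | succ t ih =>
    rw [pgf, DetPaged.pg]
    cases st (t + 1) with
    | none => exact ih
    | some s => rfl

section loc

variable (τ : ℕ) (st : ℕ → Option Q) (ct : ℕ → Option C) (p : P) (e : ℕ)

/-- The processor `(p, e)` works in step `t`. -/
def inp (t : ℕ) : Prop := pgf W.page st t = some p ∧ cnt (pgf W.page st) (some p) t / τ = e

/-- The work of the processor `(p, e)` begins after step `t`. -/
def bgn (t : ℕ) : Prop := pgf W.page st t = some p ∧ cnt (pgf W.page st) (some p) (t + 1) = e * τ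

/-- The work of the processor `(p, e)` ends with step `t`. -/
def en (t : ℕ) : Prop := cnt (pgf W.page st) (some p) (t + 1) = (e + 1) * τ

open Classical in
/-- The local computation. -/
noncomputable def lr (u : ℕ → V) : ℕ → Q × C
  | 0 => (W.start, W.blank p)
  | t + 1 => if W.inp τ st p e t then
      (if (st (t + 1)).isSome then W.start else
        (W.next t (u t) ((st t).getD (lr u t).1) (lr u t).2).1,
       if W.en τ st p e t then W.blank p else
        (W.next t (u t) ((st t).getD (lr u t).1) (lr u t).2).2)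
    else if W.bgn τ st p e t then (W.start, (ct (t + 1)).getD (W.blank p))
    else (W.start, (lr u t).2)

/-- The state before step `t`. -/
noncomputable def qin (u : ℕ → V) (t : ℕ) : Q := (st t).getD (W.lr τ st ct p e u t).1

/-- The result of step `t`. -/
noncomputable def out (u : ℕ → V) (t : ℕ) : Q × C :=
  W.next t (u t) (W.qin τ st ct p e u t) (W.lr τ st ct p e u t).2

/-- The local conditions. -/
def Cond (u : ℕ → V) (t : ℕ) : Prop :=
  (W.inp τ st p e t → W.page (W.qin τ st ct p e u t) = p ∧
    (∀ s, st (t + 1) = some s → (W.out τ st ct p e u t).1 = s) ∧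
    (W.en τ st p e t → ct (t + 1) = some (W.out τ st ct p e u t).2)) ∧
  (W.bgn τ st p e t → (ct (t + 1)).isSome)

lemma lr_inp (u : ℕ → V) (t : ℕ) (h : W.inp τ st p e t) : W.lr τ st ct p e u (t + 1) =
    (if (st (t + 1)).isSome then W.start else (W.out τ st ct p e u t).1,
      open Classical in if W.en τ st p e t then W.blank p else (W.out τ st ct p e u t).2) := by
  rw [lr, if_pos h]
  rfl

lemma lr_bgn (u : ℕ → V) (t : ℕ) (h : ¬ W.inp τ st p e t) (h' : W.bgn τ st p e t) :
    W.lr τ st ct p e u (t + 1) = (W.start, (ct (t + 1)).getD (W.blank p)) := by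
  rw [lr, if_neg h, if_pos h']

lemma lr_else (u : ℕ → V) (t : ℕ) (h : ¬ W.inp τ st p e t) (h' : ¬ W.bgn τ st p e t) :
    W.lr τ st ct p e u (t + 1) = (W.start, (W.lr τ st ct p e u t).2) := by
  rw [lr, if_neg h, if_neg h']

/-- The local computation depends only on the labels of its steps. -/
lemma lr_congr (u u' : ℕ → V) (T : ℕ) (h : ∀ t < T, W.inp τ st p e t → u t = u' t) :
    ∀ t ≤ T, W.lr τ st ct p e u t = W.lr τ st ct p e u' t := by
  intro t
  induction t with
  | zero => intro _; rfl
  | succ t ih =>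
    intro ht
    by_cases h1 : W.inp τ st p e t
    · rw [lr_inp _ _ _ _ _ _ _ _ h1, lr_inp _ _ _ _ _ _ _ _ h1]
      have : W.out τ st ct p e u t = W.out τ st ct p e u' t := by
        unfold out qin
        rw [ih (by omega), h t (by omega) h1]
      rw [this]
    · by_cases h2 : W.bgn τ st p e t
      · rw [lr_bgn _ _ _ _ _ _ _ _ h1 h2, lr_bgn _ _ _ _ _ _ _ _ h1 h2]
      · rw [lr_else _ _ _ _ _ _ _ _ h1 h2, lr_else _ _ _ _ _ _ _ _ h1 h2, ih (by omega)]

omit [DecidableEq P] in
lemma pgf_some (t : ℕ) (s : Q) (h : st t = some s) : pgf W.page st t = some (W.page s) := by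
  cases t with
  | zero => simp [pgf, h]
  | succ t => simp [pgf, h]

omit [DecidableEq P] in
lemma pgf_none (t : ℕ) (h : st (t + 1) = none) : pgf W.page st (t + 1) = pgf W.page st t := by
  simp [pgf, h]

/-- The conditions checked without reading, in terms of the pages. -/
lemma glob_iff (u : ℕ → V) (T F : ℕ) : (W.det u).Glob T F τ st ct ↔
    (st 0 = some W.start ∧ (∃ s, st T = some s ∧ W.acc s) ∧
    (∀ t < T, τ ∣ cnt (pgf W.page st) (pgf W.page st t) (t + 1) → (st (t + 1)).isSome) ∧
    {t | t < T ∧ pgf W.page st (t + 1) ≠ pgf W.page st t}.ncard ≤ F ∧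
    (∀ t < T, t + 1 ≠ T → (st (t + 1)).isSome → pgf W.page st (t + 1) ≠ pgf W.page st t ∨
      τ ∣ cnt (pgf W.page st) (pgf W.page st t) (t + 1)) ∧
    ct 0 = none ∧
    (∀ t < T, (ct (t + 1)).isSome → τ ∣ cnt (pgf W.page st) (pgf W.page st t) (t + 1))) := by
  unfold DetPaged.Glob
  rw [W.det_pg]
  rfl

open Classical in
/-- A consistent computation agrees with the local computation. -/
lemma wit_key (u : ℕ → V) (T F : ℕ) (x : Fin N → Bool) (q : ℕ → Q) (c : ℕ → C)
    (hG : (W.det u).Glob T F τ st ct) (hW : (W.det u).Wit T τ st ct p e x q c) :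
    ∀ t ≤ T, (cnt (pgf W.page st) (some p) t / τ = e → c t = (W.lr τ st ct p e u t).2) ∧
      (t < T → W.inp τ st p e t → q t = W.qin τ st ct p e u t) := by
  obtain ⟨h1, h2, h3, h4, h5⟩ := hW
  rw [W.det_pg] at h2 h3 h4 h5
  obtain ⟨g1, g2, g3, g4, g5, g6, g7⟩ := (W.glob_iff τ st ct u T F).1 hG
  intro t
  induction t with
  | zero =>
    intro _
    refine ⟨fun he => ?_, fun ht hi => ?_⟩
    · rw [cnt_zero, Nat.zero_div] at he
      exact h1 he.symm
    · rw [(h5 0 ht hi.1 hi.2).2.2.1 _ g1]
      unfold qin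
      rw [g1]; rfl
  | succ t ih =>
    intro ht
    obtain ⟨ih1, ih2⟩ := ih (by omega)
    by_cases hp : pgf W.page st t = some p
    · by_cases hd : τ ∣ cnt (pgf W.page st) (some p) (t + 1)
      · refine ⟨fun he => ?_, fun ht' hi => ?_⟩
        · have e2 : cnt (pgf W.page st) (some p) (t + 1) = e * τ := by
            rw [← he]; exact (Nat.div_mul_cancel hd).symm
          have e3 := h2 t ht hp e2
          have hni : ¬ W.inp τ st p e t := by
            intro hi
            have e4 := hi.2
            rw [cnt_succ, if_pos hp] at e2 he hd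
            rw [Nat.succ_div_of_dvd hd, e4] at he
            omega
          rw [lr_bgn _ _ _ _ _ _ _ _ hni ⟨hp, e2⟩, e3]
          rfl
        · obtain ⟨s, hs⟩ := Option.isSome_iff_exists.1 (g3 t ht (by rw [hp]; exact hd))
          rw [(h5 _ ht' hi.1 hi.2).2.2.1 _ hs]
          unfold qin
          rw [hs]; rfl
      · have e1 : cnt (pgf W.page st) (some p) (t + 1) / τ =
            cnt (pgf W.page st) (some p) t / τ := by
          rw [cnt_succ, if_pos hp] at hd ⊢
          exact Nat.succ_div_of_not_dvd hd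
        have e2 : cnt (pgf W.page st) (some p) (t + 1) / τ = e → W.inp τ st p e t ∧
            (q (t + 1), c (t + 1)) = W.out τ st ct p e u t := by
          intro he
          rw [e1] at he
          refine ⟨⟨hp, he⟩, ?_⟩
          have a1 := (h5 t ht hp he).2.1
          rw [ih1 he, ih2 ht ⟨hp, he⟩] at a1
          exact a1
        have hen : ¬ W.en τ st p e t := by
          intro hen
          apply hd
          rw [show cnt (pgf W.page st) (some p) (t + 1) = (e + 1) * τ from hen]
          exact Dvd.intro_left _ rfl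
        refine ⟨fun he => ?_, fun ht' hi => ?_⟩
        · obtain ⟨a1, a2⟩ := e2 he
          rw [lr_inp _ _ _ _ _ _ _ _ a1]
          show _ = if W.en τ st p e t then W.blank p else _
          rw [if_neg hen, ← a2]
        · obtain ⟨a1, a2⟩ := e2 hi.2
          cases hs : st (t + 1) with
          | some s =>
            rw [(h5 _ ht' hi.1 hi.2).2.2.1 _ hs]
            unfold qin
            rw [hs]; rfl
          | none =>
            unfold qin
            rw [hs, lr_inp _ _ _ _ _ _ _ _ a1, hs, ← a2]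
            rfl
    · have e1 : cnt (pgf W.page st) (some p) (t + 1) = cnt (pgf W.page st) (some p) t := by
        rw [cnt_succ, if_neg hp, add_zero]
      refine ⟨fun he => ?_, fun ht' hi => ?_⟩
      · rw [e1] at he
        rw [h4 t ht hp he, ih1 he, lr_else _ _ _ _ _ _ _ _ (fun h => hp h.1) (fun h => hp h.1)]
      · cases hs : st (t + 1) with
        | none =>
          have := hi.1
          rw [W.pgf_none st t hs] at this
          exact absurd this hp
        | some s =>
          rw [(h5 _ ht' hi.1 hi.2).2.2.1 _ hs]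
          unfold qin
          rw [hs]; rfl

lemma wit_cond (u : ℕ → V) (T F : ℕ) (x : Fin N → Bool) (q : ℕ → Q) (c : ℕ → C)
    (hG : (W.det u).Glob T F τ st ct) (hW : (W.det u).Wit T τ st ct p e x q c) :
    ∀ t < T, W.Cond τ st ct p e u t := by
  intro t ht
  have key := W.wit_key τ st ct p e u T F x q c hG hW
  obtain ⟨h1, h2, h3, h4, h5⟩ := hW
  rw [W.det_pg] at h2 h3 h4 h5
  constructor
  · intro hi
    obtain ⟨a1, a2, a3, a4⟩ := h5 t ht hi.1 hi.2
    have e1 := (key t ht.le).1 hi.2
    have e2 := (key t ht.le).2 ht hi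
    have e3 : (q (t + 1), c (t + 1)) = W.out τ st ct p e u t := by
      rw [e1, e2] at a2
      exact a2
    refine ⟨by rw [← e2]; exact a1, fun s hs => ?_, fun hen => ?_⟩
    · rw [← e3]; exact a4 s hs
    · rw [← e3]; exact h3 t ht hi.1 hen
  · intro hb
    rw [h2 t ht hb.1 hb.2]
    rfl

open Classical in
lemma cond_wit (u : ℕ → V) (T F : ℕ) (x : Fin N → Bool) (hτ : 1 ≤ τ)
    (hG : (W.det u).Glob T F τ st ct) (hC : ∀ t < T, W.Cond τ st ct p e u t) :
    ∃ (q : ℕ → Q) (c : ℕ → C), (W.det u).Wit T τ st ct p e x q c := by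
  obtain ⟨g1, g2, g3, g4, g5, g6, g7⟩ := (W.glob_iff τ st ct u T F).1 hG
  obtain ⟨q, hq⟩ : ∃ q : ℕ → Q, q = fun t => if ∃ s, t = s + 1 ∧ W.inp τ st p e s then
    (W.out τ st ct p e u (t - 1)).1 else W.qin τ st ct p e u t := ⟨_, rfl⟩
  obtain ⟨c, hc⟩ : ∃ c : ℕ → C, c = fun t => if ∃ s, t = s + 1 ∧ W.inp τ st p e s then
    (W.out τ st ct p e u (t - 1)).2 else (W.lr τ st ct p e u t).2 := ⟨_, rfl⟩
  have hq1 : ∀ t, W.inp τ st p e t → q (t + 1) = (W.out τ st ct p e u t).1 := by
    intro t ht
    rw [hq]
    simp only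
    rw [if_pos ⟨t, rfl, ht⟩]
    rfl
  have hq2 : ∀ t, ¬ W.inp τ st p e t → q (t + 1) = W.qin τ st ct p e u (t + 1) := by
    intro t ht
    rw [hq]
    simp only
    rw [if_neg]
    rintro ⟨s, h1, h2⟩
    have : s = t := by omega
    subst this
    exact ht h2
  have hc1 : ∀ t, W.inp τ st p e t → c (t + 1) = (W.out τ st ct p e u t).2 := by
    intro t ht
    rw [hc]
    simp only
    rw [if_pos ⟨t, rfl, ht⟩]
    rfl
  have hc2 : ∀ t, ¬ W.inp τ st p e t → c (t + 1) = (W.lr τ st ct p e u (t + 1)).2 := by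
    intro t ht
    rw [hc]
    simp only
    rw [if_neg]
    rintro ⟨s, h1, h2⟩
    have : s = t := by omega
    subst this
    exact ht h2
  have hc0 : c 0 = (W.lr τ st ct p e u 0).2 := by
    rw [hc]
    simp only
    rw [if_neg]
    rintro ⟨s, h1, h2⟩
    omega
  have hq0 : q 0 = W.qin τ st ct p e u 0 := by
    rw [hq]
    simp only
    rw [if_neg]
    rintro ⟨s, h1, h2⟩
    omega
  have hen : ∀ t, cnt (pgf W.page st) (some p) (t + 1) / τ = e → ¬ W.en τ st p e t := by
    intro t he hen
    unfold en at hen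
    rw [hen, Nat.mul_div_cancel _ (by omega)] at he
    omega
  -- the contents
  have hcc : ∀ t, cnt (pgf W.page st) (some p) t / τ = e → c t = (W.lr τ st ct p e u t).2 := by
    intro t he
    cases t with
    | zero => exact hc0
    | succ t =>
      by_cases hi : W.inp τ st p e t
      · rw [hc1 t hi, lr_inp _ _ _ _ _ _ _ _ hi]
        show _ = if W.en τ st p e t then W.blank p else _
        rw [if_neg (hen t he)]
      · exact hc2 t hi
  have hqq : ∀ t < T, W.inp τ st p e t → q t = W.qin τ st ct p e u t := by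
    intro t ht hi
    cases t with
    | zero => exact hq0
    | succ t =>
      by_cases hi' : W.inp τ st p e t
      · rw [hq1 t hi']
        unfold qin
        cases hs : st (t + 1) with
        | some s =>
          rw [((hC t (by omega)).1 hi').2.1 s hs]
          rfl
        | none =>
          rw [lr_inp _ _ _ _ _ _ _ _ hi', hs]
          rfl
      · exact hq2 t hi'
  refine ⟨q, c, ?_, ?_, ?_, ?_, ?_⟩
  · intro _; exact hc0
  · rw [W.det_pg]
    intro t ht hp he
    have hni : ¬ W.inp τ st p e t := by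
      intro hi
      have e4 := hi.2
      have e5 : τ ∣ cnt (pgf W.page st) (some p) t + 1 := by
        have : cnt (pgf W.page st) (some p) t + 1 = e * τ := by
          rw [← he, cnt_succ, if_pos hp]
        rw [this]; exact Dvd.intro_left _ rfl
      have e6 := Nat.succ_div_of_dvd e5
      rw [e4] at e6
      rw [cnt_succ, if_pos hp] at he
      rw [he, Nat.mul_div_cancel _ (by omega)] at e6
      omega
    have hb : W.bgn τ st p e t := ⟨hp, he⟩
    obtain ⟨s, hs⟩ := Option.isSome_iff_exists.1 ((hC t ht).2 hb)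
    rw [hc2 t hni, lr_bgn _ _ _ _ _ _ _ _ hni hb, hs]
    rfl
  · rw [W.det_pg]
    intro t ht hp he
    have hi : W.inp τ st p e t := by
      refine ⟨hp, ?_⟩
      rw [cnt_succ, if_pos hp] at he
      rw [Nat.div_eq_iff (by omega)]
      have : (e + 1) * τ = e * τ + τ := by ring
      constructor <;> omega
    rw [((hC t ht).1 hi).2.2 he, hc1 t hi]
  · rw [W.det_pg]
    intro t ht hp he
    have hni : ¬ W.inp τ st p e t := fun h => hp h.1
    rw [hc2 t hni, lr_else _ _ _ _ _ _ _ _ hni (fun h => hp h.1), hcc t he]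
  · rw [W.det_pg]
    intro t ht hp he
    have hi : W.inp τ st p e t := ⟨hp, he⟩
    obtain ⟨a1, a2, a3⟩ := (hC t ht).1 hi
    rw [hqq t ht hi, hcc t he, hq1 t hi, hc1 t hi]
    refine ⟨a1, rfl, fun s hs => ?_, a2⟩
    unfold qin
    rw [hs]; rfl

end loc

/-- The positions read by a processor. -/
def rdl (st : ℕ → Option Q) (T τ : ℕ) (p : P) (e : ℕ) (u : ℕ → V) : Finset (Fin N) :=
  (piece (pgf W.page st) T τ (some p) e).image fun t => W.pos t (u t)

theorem run_iff (u : ℕ → V) (T F τ : ℕ) {n₁ n₂ : ℕ} (μ : DetPaged.Msg Q C T n₁ n₂)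
    (j : P × Fin (T + 1)) (x : Fin N → Bool) (R : Finset (Fin N)) (hτ : 1 ≤ τ) :
    (W.det u).Run T F τ μ j x R ↔ (W.det u).Glob T F τ (ext μ.1.1) (ext μ.2.1) ∧
      (∀ t < T, W.Cond τ (ext μ.1.1) (ext μ.2.1) j.1 j.2.val u t) ∧
      R = W.rdl (ext μ.1.1) T τ j.1 j.2.val u := by
  unfold DetPaged.Run DetPaged.Loc rdl
  constructor
  · rintro ⟨h1, q, c, h2, h3⟩
    refine ⟨h1, W.wit_cond τ _ _ _ _ u T F x q c h1 h2, ?_⟩
    rw [h3, W.det_pg]
    rfl
  · rintro ⟨h1, h2, h3⟩
    obtain ⟨q, c, h4⟩ := W.cond_wit τ _ _ _ _ u T F x hτ h1 h2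
    refine ⟨h1, q, c, h4, ?_⟩
    rw [h3, W.det_pg]
    rfl

end WM

namespace DetPaged

variable {N : ℕ} {A Q P C : Type} [DecidableEq P] (M : DetPaged N A Q P C)

/-- If all processors accept, then the computation of the machine is consistent with the
messages. -/
lemma wit_global (T F τ : ℕ) {n₁ n₂ : ℕ} (μ : Msg Q C T n₁ n₂) (x : Fin N → A)
    (h : ∀ j, ∃ R, M.Run T F τ μ j x R) (p : P) (e : ℕ) :
    M.Wit T τ (ext μ.1.1) (ext μ.2.1) p e x (M.qs x) (fun t => M.mem x t p) := by
  have hg := M.global_of T F τ μ x h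
  have hp' : ∀ t, t < T → M.pg (ext μ.1.1) t = some p → M.page (M.qs x t) = p := by
    intro t ht hp
    rw [(hg t ht.le).1] at hp
    exact Option.some.inj hp
  refine ⟨fun _ => rfl, ?_, ?_, ?_, ?_⟩
  · intro t ht hp hc
    have := (hg (t + 1) ht).2.2 t rfl (by rw [hp, hc]; exact Dvd.intro_left _ rfl)
    rw [this, hp' t ht hp]
  · intro t ht hp hc
    have := (hg (t + 1) ht).2.2 t rfl (by rw [hp, hc]; exact Dvd.intro_left _ rfl)
    rw [this, hp' t ht hp]
  · intro t ht hp _
    rw [(hg t ht.le).1] at hp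
    apply M.mem_succ_ne
    intro h
    exact hp (congrArg some h.symm)
  · intro t ht hp he
    have hpt := hp' t ht hp
    refine ⟨hpt, ?_, ?_, ?_⟩
    · have h1 : M.pos t (M.qs x t) (M.mem x t p) = M.rd x t := by
        unfold rd; rw [hpt]
      show (M.qs x (t + 1), M.mem x (t + 1) p) =
        M.next t (M.qs x t) (M.mem x t p) (x (M.pos t (M.qs x t) (M.mem x t p)))
      rw [h1]
      have h2 := M.mem_succ x t
      rw [hpt] at h2
      rw [h2, M.qs_succ, hpt]
    · intro s hs
      exact ((hg t ht.le).2.1 s hs).symm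
    · intro s hs
      exact ((hg (t + 1) ht).2.1 s hs).symm

end DetPaged

end Pool.Agent.W107
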