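import Mathlib
import Pool.Agent.W107.Q.WM

/-!
# Decomposition of a weighted sum over labelled computations
-/

open Finset

namespace Pool.Agent.W107

open PagedMachine (ext)
open Pool.Agent.W107.Seq (sq sq_lt exch)

namespace WM

variable {N : ℕ} {A Q P C V : Type} [DecidableEq P] (W : WM N Q P C V)

/-- The positions read in the steps belonging to a page and an epoch. -/
def rdg (T τ : ℕ) (j : P × Fin (T + 1)) (u : ℕ → V) : Finset (Fin N) :=
  (piece (fun t => some (W.page ((W.det u).qs (fun _ => false) t))) T τ (some j.1) j.2.val).image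
    fun t => W.pos t (u t)

variable (g : ℕ → V → Q → C → A → ℂ) (fin : C → Prop) (T F τ : ℕ) {n₁ n₂ : ℕ}

section

variable (st : ℕ → Option Q) (ct : ℕ → Option C) (p : P) (e : ℕ)

/-- The local weight. -/
noncomputable def lwt (u : ℕ → V) (x : Fin N → A) : ℂ :=
  ∏ t ∈ piece (pgf W.page st) T τ (some p) e,
    g t (u t) (W.qin τ st ct p e u t) (W.lr τ st ct p e u t).2 (x (W.pos t (u t)))

/-- All local conditions. -/
def LC (u : ℕ → V) (R : Finset (Fin N)) : Prop :=
  (∀ t < T, W.Cond τ st ct p e u t) ∧ R = W.rdl st T τ p e u ∧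
    (cnt (pgf W.page st) (some p) T / τ = e → fin (W.lr τ st ct p e u T).2)

lemma mem_piece_iff (t : ℕ) : t ∈ piece (pgf W.page st) T τ (some p) e ↔
    t < T ∧ W.inp τ st p e t := by
  unfold piece inp
  rw [mem_filter, mem_range]

lemma lwt_congr (u u' : ℕ → V) (x : Fin N → A) (h : ∀ t < T, W.inp τ st p e t → u t = u' t) :
    W.lwt g T τ st ct p e u x = W.lwt g T τ st ct p e u' x := by
  unfold lwt
  refine prod_congr rfl fun t ht => ?_
  rw [mem_piece_iff] at ht
  unfold qin
  rw [W.lr_congr τ st ct p e u u' T h t ht.1.le, h t ht.1 ht.2]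

lemma LC_congr (u u' : ℕ → V) (R : Finset (Fin N))
    (h : ∀ t < T, W.inp τ st p e t → u t = u' t) :
    W.LC fin T τ st ct p e u R → W.LC fin T τ st ct p e u' R := by
  have hl := W.lr_congr τ st ct p e u u' T h
  rintro ⟨h1, h2, h3⟩
  refine ⟨fun t ht => ?_, ?_, ?_⟩
  · obtain ⟨a1, a2⟩ := h1 t ht
    refine ⟨fun hi => ?_, a2⟩
    obtain ⟨b1, b2, b3⟩ := a1 hi
    have e1 : W.qin τ st ct p e u t = W.qin τ st ct p e u' t := by
      unfold qin
      rw [hl t ht.le]
    have e2 : W.out τ st ct p e u t = W.out τ st ct p e u' t := by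
      unfold out
      rw [e1, hl t ht.le, h t ht hi]
    rw [← e1, ← e2]
    exact ⟨b1, b2, b3⟩
  · rw [h2]
    unfold rdl
    refine image_congr fun t ht => ?_
    rw [mem_coe, mem_piece_iff] at ht
    show W.pos t (u t) = W.pos t (u' t)
    rw [h t ht.1 ht.2]
  · rw [← hl T le_rfl]
    exact h3

end

variable [Fintype V] [Inhabited V]

open Classical in
/-- The weight of the processor `j`, given the message `μ`, reading the positions in `R`. -/
noncomputable def lw (μ : DetPaged.Msg Q C T n₁ n₂) (j : P × Fin (T + 1)) (R : Finset (Fin N))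
    (x : Fin N → A) : ℂ :=
  if (W.det fun _ => default).Glob T F τ (ext μ.1.1) (ext μ.2.1) then
    ∑ u ∈ univ.filter (fun u : Fin T → V =>
      ∀ t : Fin T, ¬ W.inp τ (ext μ.1.1) j.1 j.2.val t.val → u t = default),
      (if W.LC fin T τ (ext μ.1.1) (ext μ.2.1) j.1 j.2.val (sq u) R then
        W.lwt g T τ (ext μ.1.1) (ext μ.2.1) j.1 j.2.val (sq u) x else 0) else 0

lemma lw_local (μ : DetPaged.Msg Q C T n₁ n₂) (j : P × Fin (T + 1)) (R : Finset (Fin N))
    (x x' : Fin N → A) (h : ∀ a ∈ R, x a = x' a) :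
    W.lw g fin T F τ μ j R x = W.lw g fin T F τ μ j R x' := by
  classical
  unfold lw
  split_ifs with hG
  · refine sum_congr rfl fun u _ => ?_
    split_ifs with hL
    · unfold lwt
      refine prod_congr rfl fun t ht => ?_
      have : W.pos t (sq u t) ∈ R := by
        rw [hL.2.1]
        exact mem_image_of_mem _ ht
      rw [h _ this]
    · rfl
  · rfl

omit [Fintype V] [Inhabited V] in
lemma glob_indep (u u' : ℕ → V) (st : ℕ → Option Q) (ct : ℕ → Option C) :
    (W.det u).Glob T F τ st ct ↔ (W.det u').Glob T F τ st ct := by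
  rw [W.glob_iff, W.glob_iff]

omit [DecidableEq P] [Fintype V] [Inhabited V] in
lemma pgf_isSome (st : ℕ → Option Q) (h : st 0 = some W.start) (t : ℕ) :
    ∃ p, pgf W.page st t = some p := by
  induction t with
  | zero => exact ⟨_, W.pgf_some st 0 _ h⟩
  | succ t ih =>
    cases hs : st (t + 1) with
    | none => rw [W.pgf_none st t hs]; exact ih
    | some s => exact ⟨_, W.pgf_some st (t + 1) s hs⟩

/-- The processor which works in a step. -/
def who (st : ℕ → Option Q) (t : Fin T) : P × Fin (T + 1) :=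
  ((pgf W.page st t.val).getD (W.page W.start),
    ⟨cnt (pgf W.page st) (pgf W.page st t.val) t.val / τ, by
      have h1 : cnt (pgf W.page st) (pgf W.page st t.val) t.val ≤ t.val := by
        unfold cnt; exact Nat.count_le _
      have h2 := Nat.div_le_self (cnt (pgf W.page st) (pgf W.page st t.val) t.val) τ
      have h3 := t.2
      omega⟩)

omit [Fintype V] [Inhabited V] in
lemma who_iff (st : ℕ → Option Q) (h : st 0 = some W.start) (t : Fin T) (j : P × Fin (T + 1)) :
    W.who T τ st t = j ↔ W.inp τ st j.1 j.2.val t.val := by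
  obtain ⟨p, hp⟩ := W.pgf_isSome st h t.val
  unfold who inp
  constructor
  · intro hj
    subst hj
    simp only [hp, Option.getD_some]
    exact ⟨trivial, trivial⟩
  · rintro ⟨h1, h2⟩
    apply Prod.ext
    · simp only [h1, Option.getD_some]
    · apply Fin.ext
      simp only [h1]
      exact h2

omit [Fintype V] [Inhabited V] in
/-- The product of the local weights is the global weight. -/
lemma prod_lwt [Fintype P] (u : ℕ → V) (x : Fin N → A) (μ : DetPaged.Msg Q C T n₁ n₂)
    (h : ∀ j, ∃ R, (W.det u).Run T F τ μ j (fun _ => false) R) :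
    ∏ j : P × Fin (T + 1), W.lwt g T τ (ext μ.1.1) (ext μ.2.1) j.1 j.2.val u x =
      ∏ t ∈ range T, g t (u t) ((W.det u).qs (fun _ => false) t)
        ((W.det u).mem (fun _ => false) t (W.page ((W.det u).qs (fun _ => false) t)))
        (x (W.pos t (u t))) := by
  classical
  have hG := (W.det u).glob_of T F τ μ (fun _ => false) (W.page W.start) h
  have hst := ((W.glob_iff τ _ _ u T F).1 hG).1
  have hkey := fun j : P × Fin (T + 1) => W.wit_key τ (ext μ.1.1) (ext μ.2.1) j.1 j.2.val u T F
    (fun _ => false) _ _ hG ((W.det u).wit_global T F τ μ (fun _ => false) h j.1 j.2.val)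
  have hgl := (W.det u).global_of T F τ μ (fun _ => false) h
  have e1 : ∀ j : P × Fin (T + 1), W.lwt g T τ (ext μ.1.1) (ext μ.2.1) j.1 j.2.val u x =
      ∏ t ∈ range T, if W.inp τ (ext μ.1.1) j.1 j.2.val t then
        g t (u t) ((W.det u).qs (fun _ => false) t)
        ((W.det u).mem (fun _ => false) t (W.page ((W.det u).qs (fun _ => false) t)))
        (x (W.pos t (u t))) else 1 := by
    intro j
    unfold lwt
    rw [← prod_filter]
    have : piece (pgf W.page (ext μ.1.1)) T τ (some j.1) j.2.val =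
        (range T).filter fun t => W.inp τ (ext μ.1.1) j.1 j.2.val t := by
      ext t
      rw [mem_piece_iff, mem_filter, mem_range]
    rw [this]
    refine prod_congr rfl fun t ht => ?_
    rw [mem_filter, mem_range] at ht
    have k1 := (hkey j t ht.1.le).1 ht.2.2
    have k2 := (hkey j t ht.1.le).2 ht.1 ht.2
    have k3 : W.page ((W.det u).qs (fun _ => false) t) = j.1 := by
      have h1 := (hgl t ht.1.le).1
      rw [W.det_pg, ht.2.1] at h1
      exact (Option.some.inj h1).symm
    rw [← k2, ← k1, k3]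
  rw [prod_congr rfl fun j _ => e1 j, prod_comm]
  refine prod_congr rfl fun t ht => ?_
  rw [mem_range] at ht
  rw [prod_eq_single (W.who T τ (ext μ.1.1) ⟨t, ht⟩)]
  · rw [if_pos ((W.who_iff T τ _ hst ⟨t, ht⟩ _).1 rfl)]
  · intro j _ hj
    rw [if_neg]
    intro hi
    exact hj ((W.who_iff T τ _ hst ⟨t, ht⟩ j).2 hi).symm
  · intro hh; exact absurd (mem_univ _) hh

omit [Fintype V] [Inhabited V] in
lemma rdl_eq (u : ℕ → V) (μ : DetPaged.Msg Q C T n₁ n₂)
    (h : ∀ j, ∃ R, (W.det u).Run T F τ μ j (fun _ => false) R) (j : P × Fin (T + 1)) :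
    W.rdl (ext μ.1.1) T τ j.1 j.2.val u = W.rdg T τ j u := by
  have hgl := (W.det u).global_of T F τ μ (fun _ => false) h
  have hpg : ∀ t ≤ T, pgf W.page (ext μ.1.1) t =
      some (W.page ((W.det u).qs (fun _ => false) t)) := by
    intro t ht
    rw [← W.det_pg u]
    exact (hgl t ht).1
  have hcnt : ∀ t ≤ T, cnt (pgf W.page (ext μ.1.1)) (some j.1) t =
      cnt (fun t => some (W.page ((W.det u).qs (fun _ => false) t))) (some j.1) t := by
    intro t
    induction t with
    | zero => intro _; rw [cnt_zero, cnt_zero]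
    | succ t ih =>
      intro ht
      rw [cnt_succ, cnt_succ, ih (by omega), hpg t (by omega)]
  unfold rdl rdg
  congr 1
  unfold piece
  refine filter_congr fun t ht => ?_
  rw [mem_range] at ht
  rw [hpg t ht.le, hcnt t ht.le]

open Classical in
/-- The decomposition. -/
theorem decomp [Fintype Q] [Fintype P] [Fintype C] (hτ : 1 ≤ τ) (hn₁ : F + 2 + T / τ ≤ n₁)
    (hn₂ : T / τ ≤ n₂) (x : Fin N → A) (h : P × Fin (T + 1) → Finset (Fin N)) :
    ∑ μ : DetPaged.Msg Q C T n₁ n₂, ∏ j, W.lw g fin T F τ μ j (h j) x =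
      ∑ u : Fin T → V, if (W.det (sq u)).Acc T F (fun _ => false) ∧
        (∀ j, h j = W.rdg T τ j (sq u)) ∧
        (∀ p, fin ((W.det (sq u)).mem (fun _ => false) T p)) then
        ∏ t ∈ range T, g t (sq u t) ((W.det (sq u)).qs (fun _ => false) t)
          ((W.det (sq u)).mem (fun _ => false) t
            (W.page ((W.det (sq u)).qs (fun _ => false) t))) (x (W.pos t (sq u t))) else 0 := by
  set d0 : ℕ → V := fun _ => default with hd0
  have e1 : ∀ μ : DetPaged.Msg Q C T n₁ n₂, ∏ j, W.lw g fin T F τ μ j (h j) x =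
      ∑ u : Fin T → V, if (W.det d0).Glob T F τ (ext μ.1.1) (ext μ.2.1) then
        ∏ j : P × Fin (T + 1), (if W.LC fin T τ (ext μ.1.1) (ext μ.2.1) j.1 j.2.val (sq u) (h j)
          then W.lwt g T τ (ext μ.1.1) (ext μ.2.1) j.1 j.2.val (sq u) x else 0) else 0 := by
    intro μ
    by_cases hG : (W.det d0).Glob T F τ (ext μ.1.1) (ext μ.2.1)
    · have hst := ((W.glob_iff τ _ _ d0 T F).1 hG).1
      simp only [if_pos hG]
      have e2 := exch (W.who T τ (ext μ.1.1)) (fun j (u : Fin T → V) =>
        (if W.LC fin T τ (ext μ.1.1) (ext μ.2.1) j.1 j.2.val (sq u) (h j)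
          then W.lwt g T τ (ext μ.1.1) (ext μ.2.1) j.1 j.2.val (sq u) x else 0))
        (fun j u u' huu => by
          have h1 : ∀ t < T, W.inp τ (ext μ.1.1) j.1 j.2.val t → sq u t = sq u' t := by
            intro t ht hi
            have := huu ⟨t, ht⟩ ((W.who_iff T τ _ hst ⟨t, ht⟩ j).2 hi)
            rw [← sq_lt u, ← sq_lt u'] at this
            exact this
          have h2 : W.LC fin T τ (ext μ.1.1) (ext μ.2.1) j.1 j.2.val (sq u) (h j) ↔
              W.LC fin T τ (ext μ.1.1) (ext μ.2.1) j.1 j.2.val (sq u') (h j) :=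
            ⟨W.LC_congr fin T τ _ _ _ _ _ _ _ h1,
              W.LC_congr fin T τ _ _ _ _ _ _ _ fun t ht hi => (h1 t ht hi).symm⟩
          simp only [h2, W.lwt_congr g T τ _ _ _ _ _ _ x h1])
      rw [← e2]
      refine prod_congr rfl fun j _ => ?_
      unfold lw
      rw [if_pos hG]
      refine sum_congr ?_ fun _ _ => rfl
      ext u
      simp only [mem_filter, mem_univ, true_and]
      refine forall_congr' fun t => imp_congr_left ?_
      rw [Ne, W.who_iff T τ _ hst t j]
    · simp only [if_neg hG]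
      rw [sum_const_zero]
      apply prod_eq_zero (mem_univ ((W.page W.start), (0 : Fin (T + 1))))
      unfold lw
      rw [if_neg hG]
  rw [sum_congr rfl fun μ _ => e1 μ, sum_comm]
  refine sum_congr rfl fun u _ => ?_
  -- the messages for a sequence of labels
  have hrun : ∀ μ : DetPaged.Msg Q C T n₁ n₂, (W.det d0).Glob T F τ (ext μ.1.1) (ext μ.2.1) →
      (∀ j, W.LC fin T τ (ext μ.1.1) (ext μ.2.1) j.1 j.2.val (sq u) (h j)) →
      ∀ j, ∃ R, (W.det (sq u)).Run T F τ μ j (fun _ => false) R := by
    intro μ hG hL j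
    refine ⟨h j, (W.run_iff (sq u) T F τ μ j _ _ hτ).2 ⟨?_, (hL j).1, (hL j).2.1⟩⟩
    exact (W.glob_indep T F τ _ _ _ _).1 hG
  have hz : ∀ μ : DetPaged.Msg Q C T n₁ n₂,
      ¬ (∀ j, ∃ R, (W.det (sq u)).Run T F τ μ j (fun _ => false) R) →
      (if (W.det d0).Glob T F τ (ext μ.1.1) (ext μ.2.1) then
        ∏ j : P × Fin (T + 1), (if W.LC fin T τ (ext μ.1.1) (ext μ.2.1) j.1 j.2.val (sq u) (h j)
          then W.lwt g T τ (ext μ.1.1) (ext μ.2.1) j.1 j.2.val (sq u) x else 0) else 0) = 0 := by
    intro μ hμ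
    split_ifs with hG
    · by_contra hne
      rw [← Ne, prod_ne_zero_iff] at hne
      apply hμ
      apply hrun μ hG
      intro j
      have := hne j (mem_univ j)
      by_contra hcon
      rw [if_neg hcon] at this
      exact this rfl
    · rfl
  by_cases hA : (W.det (sq u)).Acc T F (fun _ => false)
  · obtain ⟨μ, hμ⟩ := (W.det (sq u)).exists_msg T F τ (n₁ := n₁) (n₂ := n₂) (fun _ => false) hτ
      hn₁ hn₂ hA
    rw [sum_eq_single μ]
    · have hG : (W.det d0).Glob T F τ (ext μ.1.1) (ext μ.2.1) :=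
        (W.glob_indep T F τ _ _ _ _).1
          ((W.det (sq u)).glob_of T F τ μ (fun _ => false) (W.page W.start) hμ)
      have hGu := (W.det (sq u)).glob_of T F τ μ (fun _ => false) (W.page W.start) hμ
      rw [if_pos hG]
      have hrd := fun j => W.rdl_eq T F τ (sq u) μ hμ j
      have hkey := fun j : P × Fin (T + 1) => W.wit_key τ (ext μ.1.1) (ext μ.2.1) j.1 j.2.val
        (sq u) T F (fun _ => false) _ _ hGu
        ((W.det (sq u)).wit_global T F τ μ (fun _ => false) hμ j.1 j.2.val)
      have hC : ∀ j : P × Fin (T + 1), ∀ t < T,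
          W.Cond τ (ext μ.1.1) (ext μ.2.1) j.1 j.2.val (sq u) t := by
        intro j
        obtain ⟨R, hR⟩ := hμ j
        exact ((W.run_iff (sq u) T F τ μ j _ _ hτ).1 hR).2.1
      have hfin : (∀ p, fin ((W.det (sq u)).mem (fun _ => false) T p)) ↔
          ∀ j : P × Fin (T + 1), (cnt (pgf W.page (ext μ.1.1)) (some j.1) T / τ = j.2.val →
            fin (W.lr τ (ext μ.1.1) (ext μ.2.1) j.1 j.2.val (sq u) T).2) := by
        constructor
        · intro hf j he
          rw [← (hkey j T le_rfl).1 he]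
          exact hf j.1
        · intro hf p
          have hle : cnt (pgf W.page (ext μ.1.1)) (some p) T / τ < T + 1 := by
            have h1 : cnt (pgf W.page (ext μ.1.1)) (some p) T ≤ T := by
              unfold cnt; exact Nat.count_le _
            have h2 := Nat.div_le_self (cnt (pgf W.page (ext μ.1.1)) (some p) T) τ
            omega
          have h1 := hf (p, ⟨_, hle⟩) rfl
          have h2 := (hkey (p, ⟨_, hle⟩) T le_rfl).1 rfl
          simp only at h1 h2
          rw [← h2] at h1
          exact h1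
      by_cases hcond : (∀ j, h j = W.rdg T τ j (sq u)) ∧
        (∀ p, fin ((W.det (sq u)).mem (fun _ => false) T p))
      · rw [if_pos ⟨hA, hcond⟩, ← W.prod_lwt g T F τ (sq u) x μ hμ]
        refine prod_congr rfl fun j _ => ?_
        rw [if_pos]
        exact ⟨hC j, by rw [hcond.1 j, hrd j], hfin.1 hcond.2 j⟩
      · rw [if_neg (fun hh => hcond hh.2)]
        by_contra hne
        rw [← Ne, prod_ne_zero_iff] at hne
        apply hcond
        have hL : ∀ j, W.LC fin T τ (ext μ.1.1) (ext μ.2.1) j.1 j.2.val (sq u) (h j) := by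
          intro j
          have := hne j (mem_univ j)
          by_contra hcon
          rw [if_neg hcon] at this
          exact this rfl
        exact ⟨fun j => by rw [(hL j).2.1, hrd j], hfin.2 fun j => (hL j).2.2⟩
    · intro μ' _ hne
      apply hz
      intro hμ'
      exact hne ((W.det (sq u)).unique_msg T F τ μ' (fun _ => false) μ hμ' hμ)
    · intro hh; exact absurd (mem_univ _) hh
  · rw [if_neg (fun hh => hA hh.1)]
    refine sum_eq_zero fun μ _ => hz μ fun hμ => hA ?_
    exact (W.det (sq u)).acc_of_msg T F τ μ (fun _ => false) hμ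

end WM

end Pool.Agent.W107
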