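import Mathlib
import Pool.Agent.W107.Q.Seq

/-!
# One step of a quantum machine, applied to a core and one cell of a page
-/

open Finset

namespace Pool.Agent.W107.QStep

/-- Kraus operators preserve the norm. -/
lemma kraus_norm {n M : Type} [Fintype n] [DecidableEq n] [Fintype M] (K : M → Matrix n n ℂ)
    (h : ∑ v, (K v).conjTranspose * K v = 1) (β : n → ℂ) :
    ∑ v, ∑ i, ‖∑ j, K v i j * β j‖ ^ 2 = ∑ j, ‖β j‖ ^ 2 := by
  have h1 : ∀ γ : n → ℂ, ((∑ i, ‖γ i‖ ^ 2 : ℝ) : ℂ) = star γ ⬝ᵥ γ := by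
    intro γ
    unfold dotProduct
    push_cast
    refine sum_congr rfl fun i _ => ?_
    rw [Pi.star_apply, Complex.star_def, Complex.conj_mul']
  have h2 : ∀ v, ((∑ i, ‖∑ j, K v i j * β j‖ ^ 2 : ℝ) : ℂ) =
      star β ⬝ᵥ (((K v).conjTranspose * K v).mulVec β) := by
    intro v
    have : (∑ i, ‖∑ j, K v i j * β j‖ ^ 2 : ℝ) = ∑ i, ‖((K v).mulVec β) i‖ ^ 2 := rfl
    rw [this, h1, Matrix.star_mulVec, ← Matrix.mulVec_mulVec,
      Matrix.dotProduct_mulVec (star β) (K v).conjTranspose]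
  apply Complex.ofReal_injective
  rw [Complex.ofReal_sum, sum_congr rfl fun v _ => h2 v, h1]
  rw [← dotProduct_sum, ← Matrix.sum_mulVec, h, Matrix.one_mulVec]

/-- Injective relabelling does not increase the norm. -/
lemma relabel {X : Type} [Fintype X] [DecidableEq X] (F : X → X) (c : X → Prop) [DecidablePred c]
    (hF : ∀ w w', c w → c w' → F w = F w' → w = w') (Y : X → ℂ) :
    ∑ y, ‖∑ w, (if F w = y ∧ c w then Y w else 0)‖ ^ 2 ≤ ∑ w, ‖Y w‖ ^ 2 := by
  classical
  have h1 : ∀ y, ‖∑ w, (if F w = y ∧ c w then Y w else 0)‖ ^ 2 ≤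
      ∑ w, (if F w = y ∧ c w then ‖Y w‖ ^ 2 else 0) := by
    intro y
    by_cases hy : ∃ w, F w = y ∧ c w
    · obtain ⟨w0, hw0⟩ := hy
      have e1 : ∀ w, w ≠ w0 → ¬ (F w = y ∧ c w) := fun w hw hh =>
        hw (hF w w0 hh.2 hw0.2 (hh.1.trans hw0.1.symm))
      rw [sum_eq_single w0 (fun w _ hw => if_neg (e1 w hw)) (fun h => absurd (mem_univ _) h),
        sum_eq_single w0 (fun w _ hw => if_neg (e1 w hw)) (fun h => absurd (mem_univ _) h),
        if_pos hw0, if_pos hw0]
    · push Not at hy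
      rw [sum_eq_zero fun w _ => if_neg (fun hh => hy w hh.1 hh.2)]
      rw [norm_zero]
      have : (0 : ℝ) ^ 2 = 0 := by norm_num
      rw [this]
      refine sum_nonneg fun w _ => ?_
      split_ifs
      · positivity
      · exact le_rfl
  calc _ ≤ ∑ y, ∑ w, (if F w = y ∧ c w then ‖Y w‖ ^ 2 else 0) := sum_le_sum fun y _ => h1 y
    _ = ∑ w, ∑ y, (if F w = y ∧ c w then ‖Y w‖ ^ 2 else 0) := sum_comm
    _ ≤ ∑ w, ‖Y w‖ ^ 2 := by
        refine sum_le_sum fun w _ => ?_
        rw [sum_eq_single (F w)]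
        · split_ifs
          · exact le_rfl
          · positivity
        · intro y _ hy
          rw [if_neg (fun hh => hy hh.1.symm)]
        · intro h; exact absurd (mem_univ _) h

variable {Q Γ ι M : Type} [Fintype Q] [Fintype Γ] [Fintype ι] [Fintype M] [DecidableEq Q]
  [DecidableEq Γ] [DecidableEq ι]

/-- One step. -/
theorem step_norm (K : M → Matrix (Q × Γ) (Q × Γ) ℂ)
    (h : ∑ v, (K v).conjTranspose * K v = 1) (cl : ι) (so : Option Q) (start : Q)
    (A : Q × (ι → Γ) → ℂ) (hA : so.isSome → ∀ x, x.1 ≠ start → A x = 0) :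
    ∑ v, ∑ w : Q × (ι → Γ), ‖∑ x : Q × (ι → Γ), ∑ k : Q × Γ,
      (if (k.1, Function.update x.2 cl k.2) = w then K v k (so.getD x.1, x.2 cl) * A x
        else 0)‖ ^ 2 ≤ ∑ x, ‖A x‖ ^ 2 := by
  classical
  -- the vector with the state before the step
  obtain ⟨A', hA'⟩ : ∃ A' : Q × (ι → Γ) → ℂ, A' = fun x => match so with
    | none => A x
    | some s => if x.1 = s then A (start, x.2) else 0 := ⟨_, rfl⟩
  have hle : ∑ x, ‖A' x‖ ^ 2 ≤ ∑ x, ‖A x‖ ^ 2 := by
    cases so with
    | none => rw [hA']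
    | some s =>
      rw [hA', Fintype.sum_prod_type, Fintype.sum_prod_type]
      rw [sum_eq_single s]
      · simp only [if_true]
        exact single_le_sum (f := fun q => ∑ c : ι → Γ, ‖A (q, c)‖ ^ 2)
          (fun q _ => sum_nonneg fun c _ => by positivity) (mem_univ start)
      · intro q _ hq
        refine sum_eq_zero fun c _ => ?_
        simp only [if_neg hq, norm_zero]
        norm_num
      · intro h; exact absurd (mem_univ _) h
  have hsum : ∀ v (k : Q × Γ) (c : ι → Γ), ∑ q, K v k (so.getD q, c cl) * A (q, c) =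
      ∑ q, K v k (q, c cl) * A' (q, c) := by
    intro v k c
    cases so with
    | none => rw [hA']; rfl
    | some s =>
      rw [hA']
      simp only [Option.getD_some]
      rw [sum_eq_single start, sum_eq_single s]
      · rw [if_pos rfl]
      · intro q _ hq
        rw [if_neg hq, mul_zero]
      · intro h; exact absurd (mem_univ _) h
      · intro q _ hq
        rw [hA rfl (q, c) hq, mul_zero]
      · intro h; exact absurd (mem_univ _) h
  refine le_trans (le_of_eq ?_) hle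
  let E := Equiv.funSplitAt cl Γ
  have hE1 : ∀ (a : Γ) (r : {j // j ≠ cl} → Γ), E.symm (a, r) cl = a := by
    intro a r
    simp [E]
  have hE2 : ∀ (a b : Γ) (r : {j // j ≠ cl} → Γ), Function.update (E.symm (a, r)) cl b =
      E.symm (b, r) := by
    intro a b r
    funext i
    by_cases hi : i = cl
    · subst hi
      rw [Function.update_self, hE1]
    · rw [Function.update_of_ne hi]
      simp [E, hi]
  -- the value of the new vector
  have hY : ∀ v (o : Q) (b : Γ) (r : {j // j ≠ cl} → Γ),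
      ∑ x : Q × (ι → Γ), ∑ k : Q × Γ, (if (k.1, Function.update x.2 cl k.2) = (o, E.symm (b, r))
        then K v k (so.getD x.1, x.2 cl) * A x else 0) =
      ∑ i : Q × Γ, K v (o, b) i * A' (i.1, E.symm (i.2, r)) := by
    intro v o b r
    have e1 : ∀ (q : Q) (a : Γ) (r' : {j // j ≠ cl} → Γ), ∑ k : Q × Γ,
        (if (k.1, Function.update (E.symm (a, r')) cl k.2) = (o, E.symm (b, r))
        then K v k (so.getD q, E.symm (a, r') cl) * A (q, E.symm (a, r')) else 0) =
        if r' = r then K v (o, b) (so.getD q, a) * A (q, E.symm (a, r)) else 0 := by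
      intro q a r'
      by_cases hr : r' = r
      · subst hr
        rw [if_pos rfl, sum_eq_single (o, b)]
        · rw [if_pos (by rw [hE2]), hE1]
        · intro k _ hk
          rw [if_neg]
          intro hh
          rw [hE2] at hh
          have h1 := (Prod.mk.inj hh).1
          have h2 := E.symm.injective (Prod.mk.inj hh).2
          exact hk (Prod.ext h1 (Prod.mk.inj h2).1)
        · intro h; exact absurd (mem_univ _) h
      · rw [if_neg hr]
        refine sum_eq_zero fun k _ => ?_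
        rw [if_neg]
        intro hh
        rw [hE2] at hh
        have h2 := E.symm.injective (Prod.mk.inj hh).2
        exact hr (Prod.mk.inj h2).2
    rw [Fintype.sum_prod_type]
    have e2 : ∀ q : Q, ∑ c : ι → Γ, ∑ k : Q × Γ,
        (if (k.1, Function.update c cl k.2) = (o, E.symm (b, r))
        then K v k (so.getD q, c cl) * A (q, c) else 0) =
        ∑ a : Γ, K v (o, b) (so.getD q, a) * A (q, E.symm (a, r)) := by
      intro q
      rw [← E.symm.sum_comp, Fintype.sum_prod_type]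
      refine sum_congr rfl fun a _ => ?_
      rw [sum_congr rfl fun r' _ => e1 q a r', sum_ite_eq' univ r, if_pos (mem_univ _)]
    rw [sum_congr rfl fun q _ => e2 q, sum_comm, Fintype.sum_prod_type_right]
    refine sum_congr rfl fun a _ => ?_
    have := hsum v (o, b) (E.symm (a, r))
    rw [hE1] at this
    exact this
  have e3 : ∀ v, ∑ w : Q × (ι → Γ), ‖∑ x : Q × (ι → Γ), ∑ k : Q × Γ,
      (if (k.1, Function.update x.2 cl k.2) = w then K v k (so.getD x.1, x.2 cl) * A x
        else 0)‖ ^ 2 = ∑ r : {j // j ≠ cl} → Γ, ∑ i : Q × Γ,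
          ‖∑ j : Q × Γ, K v i j * A' (j.1, E.symm (j.2, r))‖ ^ 2 := by
    intro v
    rw [Fintype.sum_prod_type]
    have : ∀ o : Q, ∑ c : ι → Γ, ‖∑ x : Q × (ι → Γ), ∑ k : Q × Γ,
      (if (k.1, Function.update x.2 cl k.2) = (o, c) then K v k (so.getD x.1, x.2 cl) * A x
        else 0)‖ ^ 2 = ∑ r : {j // j ≠ cl} → Γ, ∑ b : Γ,
          ‖∑ j : Q × Γ, K v (o, b) j * A' (j.1, E.symm (j.2, r))‖ ^ 2 := by
      intro o
      rw [← E.symm.sum_comp, Fintype.sum_prod_type, sum_comm]
      refine sum_congr rfl fun r _ => sum_congr rfl fun b _ => ?_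
      rw [hY]
    rw [sum_congr rfl fun o _ => this o, sum_comm]
    refine sum_congr rfl fun r _ => ?_
    rw [Fintype.sum_prod_type]
  rw [sum_congr rfl fun v _ => e3 v, sum_comm]
  have e4 : ∀ r : {j // j ≠ cl} → Γ, ∑ v, ∑ i : Q × Γ,
      ‖∑ j : Q × Γ, K v i j * A' (j.1, E.symm (j.2, r))‖ ^ 2 =
      ∑ j : Q × Γ, ‖A' (j.1, E.symm (j.2, r))‖ ^ 2 := fun r =>
    kraus_norm K h (fun j => A' (j.1, E.symm (j.2, r)))
  rw [sum_congr rfl fun r _ => e4 r]
  rw [Fintype.sum_prod_type (f := fun x : Q × (ι → Γ) => ‖A' x‖ ^ 2)]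
  have e5 : ∀ q : Q, ∑ c : ι → Γ, ‖A' (q, c)‖ ^ 2 =
      ∑ r : {j // j ≠ cl} → Γ, ∑ a : Γ, ‖A' (q, E.symm (a, r))‖ ^ 2 := by
    intro q
    rw [← E.symm.sum_comp, Fintype.sum_prod_type, sum_comm]
  rw [sum_congr rfl fun q _ => e5 q]
  have e6 : ∑ q : Q, ∑ r : {j // j ≠ cl} → Γ, ∑ a : Γ, ‖A' (q, E.symm (a, r))‖ ^ 2 =
      ∑ r : {j // j ≠ cl} → Γ, ∑ q : Q, ∑ a : Γ, ‖A' (q, E.symm (a, r))‖ ^ 2 := sum_comm
  rw [e6]
  refine sum_congr rfl fun r _ => ?_
  rw [Fintype.sum_prod_type]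

end Pool.Agent.W107.QStep
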