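import Mathlib
import Pool.Agent.W107.Q.Dec
import Pool.Agent.W107.Q.Step

/-!
# Quantum machines with paged memory: the local weights
-/

open Finset

namespace Pool.Agent.W107

open PagedMachine (ext)
open Pool.Agent.W107.Seq (sq sq_lt reg vec stepv path_sum norm_sum)

/-- Quantum machines with a classical position which determines the page and the cell. -/
structure QP (N : ℕ) (A Z Q P Γ ι M : Type) where
  page : Z → P
  cell : Z → ι
  nz : ℕ → M → Z → Z
  pos : ℕ → M → Fin N
  K : ℕ → M → A → Matrix (Q × Γ) (Q × Γ) ℂ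
  z0 : Z
  start : Q
  blank : Γ
  acc : Q → Prop

namespace QP

variable {N : ℕ} {A Z Q P Γ ι M : Type} [DecidableEq P] [DecidableEq ι] (B : QP N A Z Q P Γ ι M)

/-- The pairs of computations with the same outcomes, as labelled deterministic machines. -/
def wm : WM N ((Q × Q) × Z) P (ι → Γ × Γ) (M × (Q × Γ) × (Q × Γ)) where
  page s := B.page s.2
  pos t v := B.pos t v.1
  next t v s c := (((v.2.1.1, v.2.2.1), B.nz t v.1 s.2),
    Function.update c (B.cell s.2) (v.2.1.2, v.2.2.2))
  start := ((B.start, B.start), B.z0)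
  blank := fun _ _ => (B.blank, B.blank)
  acc s := s.1.1 = s.1.2 ∧ B.acc s.1.1

/-- The weight of a step. -/
noncomputable def g (t : ℕ) (v : M × (Q × Γ) × (Q × Γ)) (s : (Q × Q) × Z) (c : ι → Γ × Γ)
    (a : A) : ℂ :=
  B.K t v.1 a v.2.1 (s.1.1, (c (B.cell s.2)).1) *
    star (B.K t v.1 a v.2.2 (s.1.2, (c (B.cell s.2)).2))

/-- The two contents of a page agree. -/
def fin (c : ι → Γ × Γ) : Prop := ∀ r, (c r).1 = (c r).2

section side

variable (τ : ℕ) (st : ℕ → Option ((Q × Q) × Z)) (ct : ℕ → Option (ι → Γ × Γ)) (p : P) (e : ℕ)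

open Classical in
/-- The recorded position. -/
noncomputable def zr (ν : ℕ → M) : ℕ → Z
  | 0 => B.z0
  | t + 1 => if B.wm.inp τ st p e t then
      (if (st (t + 1)).isSome then B.z0 else B.nz t (ν t) ((st t).elim (zr ν t) (·.2)))
      else B.z0

/-- The position before a step. -/
noncomputable def zi (ν : ℕ → M) (t : ℕ) : Z := (st t).elim (B.zr τ st p e ν t) (·.2)

lemma zr_congr (ν ν' : ℕ → M) (t : ℕ) (h : ∀ s < t, ν s = ν' s) :
    B.zr τ st p e ν t = B.zr τ st p e ν' t := by
  induction t with
  | zero => rfl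
  | succ t ih => rw [zr, zr, ih (fun s hs => h s (by omega)), h t (by omega)]

lemma zi_congr (ν ν' : ℕ → M) (t : ℕ) (h : ∀ s < t, ν s = ν' s) :
    B.zi τ st p e ν t = B.zi τ st p e ν' t := by
  unfold zi
  rw [B.zr_congr τ st p e ν ν' t h]

variable (sk : ℕ → Option Q) (ck : ℕ → Option (ι → Γ))

open Classical in
/-- One step on one side. -/
noncomputable def fs (t : ℕ) (z : Z) (_v : M) (y : Q × (ι → Γ)) (k : Q × Γ) : Q × (ι → Γ) :=
  if B.wm.inp τ st p e t then (if (sk (t + 1)).isSome then B.start else k.1,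
    if B.wm.en τ st p e t then (fun _ => B.blank) else Function.update y.2 (B.cell z) k.2)
  else if B.wm.bgn τ st p e t then (B.start, (ck (t + 1)).getD fun _ => B.blank)
  else (B.start, y.2)

variable [Inhabited M] [Inhabited Q] [Inhabited Γ]

open Classical in
/-- The weight of one step on one side. -/
noncomputable def gs (x : Fin N → A) (t : ℕ) (z : Z) (v : M) (y : Q × (ι → Γ)) (k : Q × Γ) : ℂ :=
  if B.wm.inp τ st p e t then
    (if (∀ s, sk (t + 1) = some s → k.1 = s) ∧
      (B.wm.en τ st p e t → ck (t + 1) = some (Function.update y.2 (B.cell z) k.2)) then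
      B.K t v (x (B.pos t v)) k ((sk t).getD y.1, y.2 (B.cell z)) else 0)
  else (if v = default ∧ k = default then 1 else 0)

/-- The register on one side. -/
noncomputable def rg (ν : ℕ → M) (k : ℕ → Q × Γ) (t : ℕ) : Q × (ι → Γ) :=
  reg (fun s y k => B.fs τ st p e sk ck s (B.zi τ st p e ν s) (ν s) y k)
    (B.start, fun _ => B.blank) k t

omit [Inhabited M] [Inhabited Q] [Inhabited Γ] in
lemma rg_succ (ν : ℕ → M) (k : ℕ → Q × Γ) (t : ℕ) : B.rg τ st p e sk ck ν k (t + 1) =
    B.fs τ st p e sk ck t (B.zi τ st p e ν t) (ν t) (B.rg τ st p e sk ck ν k t) (k t) := rfl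

/-- The recorded states on the first side. -/
def s1 (t : ℕ) : Option Q := (st t).map (·.1.1)

/-- The recorded states on the second side. -/
def s2 (t : ℕ) : Option Q := (st t).map (·.1.2)

/-- The recorded contents on the first side. -/
def c1 (t : ℕ) : Option (ι → Γ) := (ct t).map fun c r => (c r).1

/-- The recorded contents on the second side. -/
def c2 (t : ℕ) : Option (ι → Γ) := (ct t).map fun c r => (c r).2

omit [Inhabited M] [Inhabited Q] [Inhabited Γ] in
open Classical in
/-- The local computation consists of the two sides. -/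
lemma lr_eq (u : ℕ → M × (Q × Γ) × (Q × Γ)) (t : ℕ) : B.wm.lr τ st ct p e u t =
    ((((B.rg τ st p e (s1 st) (c1 ct) (fun t => (u t).1) (fun t => (u t).2.1) t).1,
      (B.rg τ st p e (s2 st) (c2 ct) (fun t => (u t).1) (fun t => (u t).2.2) t).1),
      B.zr τ st p e (fun t => (u t).1) t),
    fun r => ((B.rg τ st p e (s1 st) (c1 ct) (fun t => (u t).1) (fun t => (u t).2.1) t).2 r,
      (B.rg τ st p e (s2 st) (c2 ct) (fun t => (u t).1) (fun t => (u t).2.2) t).2 r)) := by
  induction t with
  | zero => rfl
  | succ t ih =>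
    rw [rg_succ, rg_succ]
    by_cases hi : B.wm.inp τ st p e t
    · rw [WM.lr_inp _ _ _ _ _ _ _ _ hi]
      unfold fs
      rw [if_pos hi, if_pos hi]
      unfold WM.out WM.qin
      rw [ih, zr, if_pos hi]
      unfold zi s1 s2
      by_cases he : B.wm.en τ st p e t
      · simp only [if_pos he]
        cases hs : st (t + 1) with
        | none =>
          cases hs' : st t with
          | none => simp [wm]
          | some s => simp [wm]
        | some s' => simp [wm]
      · simp only [if_neg he]
        have hu : ∀ (c c' : ι → Γ) (i : ι) (a b : Γ),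
            Function.update (fun r => (c r, c' r)) i (a, b) =
            fun r => (Function.update c i a r, Function.update c' i b r) := by
          intro c c' i a b
          funext r
          by_cases hr : r = i
          · subst hr; simp
          · simp [hr]
        cases hs : st (t + 1) with
        | none =>
          cases hs' : st t with
          | none => simp [wm, hu]
          | some s => simp [wm, hu]
        | some s' =>
          cases hs' : st t with
          | none => simp [wm, hu]
          | some s => simp [wm, hu]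
    · by_cases hb : B.wm.bgn τ st p e t
      · rw [WM.lr_bgn _ _ _ _ _ _ _ _ hi hb]
        unfold fs
        rw [if_neg hi, if_neg hi, if_pos hb, if_pos hb, zr, if_neg hi]
        unfold c1 c2
        cases hc : ct (t + 1) with
        | none => simp [wm]
        | some c => simp [wm]
      · rw [WM.lr_else _ _ _ _ _ _ _ _ hi hb]
        unfold fs
        rw [if_neg hi, if_neg hi, if_neg hb, if_neg hb, zr, if_neg hi, ih]
        rfl

omit [Inhabited M] [Inhabited Q] [Inhabited Γ] in
lemma qin_eq (u : ℕ → M × (Q × Γ) × (Q × Γ)) (t : ℕ) : B.wm.qin τ st ct p e u t =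
    (((s1 st t).getD (B.rg τ st p e (s1 st) (c1 ct) (fun t => (u t).1)
        (fun t => (u t).2.1) t).1,
      (s2 st t).getD (B.rg τ st p e (s2 st) (c2 ct) (fun t => (u t).1)
        (fun t => (u t).2.2) t).1), B.zi τ st p e (fun t => (u t).1) t) := by
  unfold WM.qin zi s1 s2
  rw [B.lr_eq]
  cases hs : st t with
  | none => rfl
  | some s => rfl

/-- The conditions on the positions. -/
def zc (ν : ℕ → M) (t : ℕ) : Prop :=
  (B.wm.inp τ st p e t → B.page (B.zi τ st p e ν t) = p ∧
    ∀ s, st (t + 1) = some s → B.nz t (ν t) (B.zi τ st p e ν t) = s.2) ∧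
  (B.wm.bgn τ st p e t → (ct (t + 1)).isSome)

open Classical in
/-- The contribution of one step. -/
lemma fac (u : ℕ → M × (Q × Γ) × (Q × Γ)) (x : Fin N → A) (t : ℕ) :
    (if (¬ B.wm.inp τ st p e t → u t = default) ∧ B.wm.Cond τ st ct p e u t then
      (if B.wm.inp τ st p e t then B.g t (u t) (B.wm.qin τ st ct p e u t)
        (B.wm.lr τ st ct p e u t).2 (x (B.wm.pos t (u t))) else 1) else 0) =
    (if B.zc τ st ct p e (fun t => (u t).1) t then
      B.gs τ st p e (s1 st) (c1 ct) x t (B.zi τ st p e (fun t => (u t).1) t) (u t).1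
        (B.rg τ st p e (s1 st) (c1 ct) (fun t => (u t).1) (fun t => (u t).2.1) t) (u t).2.1 *
      star (B.gs τ st p e (s2 st) (c2 ct) x t (B.zi τ st p e (fun t => (u t).1) t) (u t).1
        (B.rg τ st p e (s2 st) (c2 ct) (fun t => (u t).1) (fun t => (u t).2.2) t) (u t).2.2)
      else 0) := by
  obtain ⟨z, hz⟩ : ∃ z, z = B.zi τ st p e (fun t => (u t).1) t := ⟨_, rfl⟩
  obtain ⟨y, hy⟩ : ∃ y, y = B.rg τ st p e (s1 st) (c1 ct) (fun t => (u t).1)
    (fun t => (u t).2.1) t := ⟨_, rfl⟩
  obtain ⟨y', hy'⟩ : ∃ y', y' = B.rg τ st p e (s2 st) (c2 ct) (fun t => (u t).1)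
    (fun t => (u t).2.2) t := ⟨_, rfl⟩
  have hq := B.qin_eq τ st ct p e u t
  have hl := B.lr_eq τ st ct p e u t
  rw [← hy, ← hy', ← hz] at hq
  rw [← hy, ← hy'] at hl
  have hl2 : (B.wm.lr τ st ct p e u t).2 = fun r => (y.2 r, y'.2 r) := by rw [hl]
  have ho : B.wm.out τ st ct p e u t = ((((u t).2.1.1, (u t).2.2.1), B.nz t (u t).1 z),
      fun r => (Function.update y.2 (B.cell z) (u t).2.1.2 r,
        Function.update y'.2 (B.cell z) (u t).2.2.2 r)) := by
    unfold WM.out
    rw [hq, hl2]
    show ((((u t).2.1.1, (u t).2.2.1), B.nz t (u t).1 z), Function.update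
      (fun r => (y.2 r, y'.2 r)) (B.cell z) ((u t).2.1.2, (u t).2.2.2)) = _
    congr 1
    funext r
    by_cases hr : r = B.cell z
    · subst hr; simp
    · simp [hr]
  unfold zc WM.Cond gs
  rw [← hz, ← hy, ← hy', ho, hq, hl2]
  by_cases hi : B.wm.inp τ st p e t
  · simp only [hi, not_true_eq_false, false_imp_iff, true_imp_iff, true_and, if_true]
    -- the conditions
    have k1 : (∀ s, st (t + 1) = some s → (((u t).2.1.1, (u t).2.2.1), B.nz t (u t).1 z) = s) ↔
        (∀ s, st (t + 1) = some s → B.nz t (u t).1 z = s.2) ∧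
        (∀ s, s1 st (t + 1) = some s → (u t).2.1.1 = s) ∧
        (∀ s, s2 st (t + 1) = some s → (u t).2.2.1 = s) := by
      unfold s1 s2
      cases hs : st (t + 1) with
      | none => simp
      | some s =>
        simp only [Option.some.injEq, forall_eq', Option.map_some]
        constructor
        · intro h; rw [← h]; simp
        · rintro ⟨h1, h2, h3⟩
          apply Prod.ext
          · exact Prod.ext h2 h3
          · exact h1
    have k2 : (B.wm.en τ st p e t → ct (t + 1) = some (fun r =>
        (Function.update y.2 (B.cell z) (u t).2.1.2 r,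
          Function.update y'.2 (B.cell z) (u t).2.2.2 r))) ↔
        (B.wm.en τ st p e t → c1 ct (t + 1) =
          some (Function.update y.2 (B.cell z) (u t).2.1.2)) ∧
        (B.wm.en τ st p e t → c2 ct (t + 1) =
          some (Function.update y'.2 (B.cell z) (u t).2.2.2)) := by
      by_cases hen : B.wm.en τ st p e t
      · simp only [hen, true_imp_iff]
        unfold c1 c2
        cases hc : ct (t + 1) with
        | none => simp
        | some c =>
          simp only [Option.some.injEq, Option.map_some]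
          constructor
          · intro h; rw [h]; simp
          · rintro ⟨h1, h2⟩
            funext r
            exact Prod.ext (congrFun h1 r) (congrFun h2 r)
      · simp [hen]
    by_cases a1 : B.page z = p ∧ ∀ s, st (t + 1) = some s → B.nz t (u t).1 z = s.2
    · by_cases a2 : B.wm.bgn τ st p e t → (ct (t + 1)).isSome = true
      · by_cases b1 : (∀ s, s1 st (t + 1) = some s → (u t).2.1.1 = s) ∧
          (B.wm.en τ st p e t → c1 ct (t + 1) =
            some (Function.update y.2 (B.cell z) (u t).2.1.2))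
        · by_cases b2 : (∀ s, s2 st (t + 1) = some s → (u t).2.2.1 = s) ∧
            (B.wm.en τ st p e t → c2 ct (t + 1) =
              some (Function.update y'.2 (B.cell z) (u t).2.2.2))
          · rw [if_pos ⟨⟨a1.1, k1.2 ⟨a1.2, b1.1, b2.1⟩, k2.2 ⟨b1.2, b2.2⟩⟩, a2⟩,
              if_pos ⟨a1, a2⟩, if_pos b1, if_pos b2]
            rfl
          · rw [if_neg b2, star_zero, mul_zero, ite_self, if_neg]
            rintro ⟨⟨-, h1, h2⟩, -⟩
            exact b2 ⟨(k1.1 h1).2.2, (k2.1 h2).2⟩
        · rw [if_neg b1, zero_mul, ite_self, if_neg]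
          rintro ⟨⟨-, h1, h2⟩, -⟩
          exact b1 ⟨(k1.1 h1).2.1, (k2.1 h2).1⟩
      · rw [if_neg (fun h => a2 h.2), if_neg (fun h => a2 h.2)]
    · rw [if_neg, if_neg (fun h => a1 h.1)]
      rintro ⟨⟨h0, h1, -⟩, -⟩
      exact a1 ⟨h0, (k1.1 h1).1⟩
  · simp only [hi, not_false_eq_true, false_imp_iff, true_imp_iff, true_and, if_false]
    by_cases a2 : B.wm.bgn τ st p e t → (ct (t + 1)).isSome = true
    · rw [if_pos a2]
      have k : u t = default ↔ ((u t).1 = default ∧ (u t).2.1 = default) ∧
          ((u t).1 = default ∧ (u t).2.2 = default) := by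
        constructor
        · intro h; rw [h]; exact ⟨⟨rfl, rfl⟩, rfl, rfl⟩
        · rintro ⟨⟨h1, h2⟩, -, h3⟩
          exact Prod.ext h1 (Prod.ext h2 h3)
      by_cases b1 : (u t).1 = default ∧ (u t).2.1 = default
      · by_cases b2 : (u t).1 = default ∧ (u t).2.2 = default
        · rw [if_pos ⟨k.2 ⟨b1, b2⟩, a2⟩, if_pos b1, if_pos b2]; simp
        · rw [if_neg b2, star_zero, mul_zero, if_neg]
          rintro ⟨h, -⟩
          exact b2 (k.1 h).2
      · rw [if_neg b1, zero_mul, if_neg]
        rintro ⟨h, -⟩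
        exact b1 (k.1 h).1
    · rw [if_neg a2, if_neg (fun h => a2 h.2)]

end side

end QP

end Pool.Agent.W107
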