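import Mathlib
import Pool.Agent.W107.Q.Norm

/-!
# Quantum machines with paged memory: the sum of the norms of the local weights
-/

open Finset

namespace Pool.Agent.W107

open PagedMachine (ext)
open Pool.Agent.W107.Seq (sq sq_lt reg vec stepv path_sum norm_sum)

/-- Sums over pairs of paths. -/
lemma pair_sum {K Y : Type} [Fintype K] [Fintype Y] [DecidableEq Y] (φ φ' : K → Y)
    (a a' : K → ℂ) (C : Y → Y → Prop) [∀ y y', Decidable (C y y')] (A A' : Y → ℂ)
    (hA : ∀ y, A y = ∑ k, if φ k = y then a k else 0)
    (hA' : ∀ y, A' y = ∑ k, if φ' k = y then a' k else 0) (S : Y → Prop)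
    (hS : ∀ y, ¬ S y → A y = 0) (hS' : ∀ y, ¬ S y → A' y = 0) (hC : ∀ y, C y y)
    (hCS : ∀ y y', S y → S y' → C y y' → y = y') :
    ∑ k, ∑ k', (if C (φ k) (φ' k') then a k * star (a' k') else 0) = ∑ y, A y * star (A' y) := by
  have e1 : ∀ k k', (if C (φ k) (φ' k') then a k * star (a' k') else 0) =
      ∑ y, ∑ y', (if C y y' then (if φ k = y then a k else 0) *
        star (if φ' k' = y' then a' k' else 0) else 0) := by
    intro k k'
    rw [sum_eq_single (φ k)]
    · rw [sum_eq_single (φ' k')]
      · simp
      · intro y' _ hy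
        rw [if_neg (Ne.symm hy)]
        simp
      · intro h; exact absurd (mem_univ _) h
    · intro y _ hy
      refine sum_eq_zero fun y' _ => ?_
      rw [if_neg (Ne.symm hy)]
      simp
    · intro h; exact absurd (mem_univ _) h
  have e2 : ∑ k, ∑ k', (if C (φ k) (φ' k') then a k * star (a' k') else 0) =
      ∑ y, ∑ y', (if C y y' then A y * star (A' y') else 0) := by
    calc _ = ∑ k, ∑ k', ∑ y, ∑ y', (if C y y' then (if φ k = y then a k else 0) *
        star (if φ' k' = y' then a' k' else 0) else 0) :=
          sum_congr rfl fun k _ => sum_congr rfl fun k' _ => e1 k k'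
      _ = ∑ k, ∑ y, ∑ k', ∑ y', (if C y y' then (if φ k = y then a k else 0) *
        star (if φ' k' = y' then a' k' else 0) else 0) :=
          sum_congr rfl fun k _ => sum_comm
      _ = ∑ y, ∑ k, ∑ k', ∑ y', (if C y y' then (if φ k = y then a k else 0) *
        star (if φ' k' = y' then a' k' else 0) else 0) := sum_comm
      _ = _ := by
        refine sum_congr rfl fun y _ => ?_
        calc _ = ∑ k, ∑ y', ∑ k', (if C y y' then (if φ k = y then a k else 0) *
              star (if φ' k' = y' then a' k' else 0) else 0) :=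
              sum_congr rfl fun k _ => sum_comm
          _ = ∑ y', ∑ k, ∑ k', (if C y y' then (if φ k = y then a k else 0) *
              star (if φ' k' = y' then a' k' else 0) else 0) := sum_comm
          _ = _ := by
            refine sum_congr rfl fun y' _ => ?_
            by_cases hc : C y y'
            · simp only [if_pos hc]
              rw [hA, hA', star_sum, sum_mul_sum]
            · simp only [if_neg hc]
              simp
  rw [e2]
  refine sum_congr rfl fun y _ => ?_
  rw [sum_eq_single y]
  · rw [if_pos (hC y)]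
  · intro y' _ hy
    by_cases hc : C y y'
    · rw [if_pos hc]
      by_cases h1 : S y
      · by_cases h2 : S y'
        · exact absurd (hCS y y' h1 h2 hc).symm hy
        · rw [hS' y' h2]; simp
      · rw [hS y h1]; simp
    · rw [if_neg hc]
  · intro h; exact absurd (mem_univ _) h

lemma norm_pair {Y : Type} [Fintype Y] (A A' : Y → ℂ) :
    ‖∑ y, A y * star (A' y)‖ ≤ (∑ y, ‖A y‖ ^ 2 + ∑ y, ‖A' y‖ ^ 2) / 2 := by
  rw [← sum_add_distrib, sum_div]
  refine (norm_sum_le _ _).trans (sum_le_sum fun y _ => ?_)
  rw [norm_mul, norm_star]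
  nlinarith [sq_nonneg (‖A y‖ - ‖A' y‖)]

namespace QP

variable {N : ℕ} {A Z Q P Γ ι M : Type} [DecidableEq P] [DecidableEq ι] (B : QP N A Z Q P Γ ι M)

section side

variable (τ : ℕ) (st : ℕ → Option ((Q × Q) × Z)) (p : P) (e : ℕ) (sk : ℕ → Option Q)
  (ck : ℕ → Option (ι → Γ))

/-- The possible registers. -/
def Sup (t : ℕ) (y : Q × (ι → Γ)) : Prop :=
  ((¬ B.wm.inp τ st p e t ∨ (sk t).isSome) → y.1 = B.start) ∧
  (cnt (pgf B.wm.page st) (some p) t < e * τ → y.2 = fun _ => B.blank) ∧
  ((e + 1) * τ ≤ cnt (pgf B.wm.page st) (some p) t → y.2 = fun _ => B.blank)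

lemma inp_lt (hτ : 1 ≤ τ) (t : ℕ) (hi : B.wm.inp τ st p e t) :
    e * τ ≤ cnt (pgf B.wm.page st) (some p) t ∧
      cnt (pgf B.wm.page st) (some p) t < (e + 1) * τ := by
  have h2 := hi.2
  rw [Nat.div_eq_iff (by omega)] at h2
  have : (e + 1) * τ = e * τ + τ := by ring
  constructor <;> omega

lemma not_inp_of_bgn (t : ℕ) (hb : B.wm.bgn τ st p e t) :
    cnt (pgf B.wm.page st) (some p) t < e * τ := by
  have h := hb.2
  rw [cnt_succ, if_pos hb.1] at h
  omega

lemma sup_step (hτ : 1 ≤ τ) (t : ℕ) (hb : B.wm.inp τ st p e t → ¬ B.wm.inp τ st p e (t + 1) →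
    (sk (t + 1)).isSome) (z : Z) (v : M) (y : Q × (ι → Γ)) (k : Q × Γ)
    (hy : B.Sup τ st p e sk t y) : B.Sup τ st p e sk (t + 1) (B.fs τ st p e sk ck t z v y k) := by
  classical
  have hmono : cnt (pgf B.wm.page st) (some p) t ≤ cnt (pgf B.wm.page st) (some p) (t + 1) :=
    cnt_mono _ _ (Nat.le_succ t)
  have hsuc : cnt (pgf B.wm.page st) (some p) (t + 1) ≤
      cnt (pgf B.wm.page st) (some p) t + 1 := by
    rw [cnt_succ]; split_ifs <;> omega
  have he1 : (e + 1) * τ = e * τ + τ := by ring
  unfold fs
  by_cases hi : B.wm.inp τ st p e t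
  · rw [if_pos hi]
    obtain ⟨a1, a2⟩ := B.inp_lt τ st p e hτ t hi
    refine ⟨fun h => ?_, fun h => ?_, fun h => ?_⟩
    · have : (sk (t + 1)).isSome := by
        rcases h with h | h
        · exact hb hi h
        · exact h
      rw [if_pos this]
    · omega
    · have : B.wm.en τ st p e t := by
        unfold WM.en
        omega
      rw [if_pos this]
  · rw [if_neg hi]
    by_cases hbg : B.wm.bgn τ st p e t
    · rw [if_pos hbg]
      have := hbg.2
      exact ⟨fun _ => rfl, fun h => by omega, fun h => by omega⟩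
    · rw [if_neg hbg]
      refine ⟨fun _ => rfl, fun h => hy.2.1 (by omega), fun h => ?_⟩
      by_cases h2 : (e + 1) * τ ≤ cnt (pgf B.wm.page st) (some p) t
      · exact hy.2.2 h2
      · exfalso
        apply hi
        have hp : pgf B.wm.page st t = some p := by
          by_contra hp
          rw [cnt_succ, if_neg hp] at h
          omega
        refine ⟨hp, ?_⟩
        rw [Nat.div_eq_iff (by omega)]
        constructor <;> omega

variable [Fintype Q] [Fintype Γ] [Fintype ι] [Fintype M] [DecidableEq Q] [DecidableEq Γ]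
  [Inhabited M] [Inhabited Q] [Inhabited Γ]

lemma norm_step (hτ : 1 ≤ τ) (x : Fin N → A) (t : ℕ)
    (hK : ∑ v, (B.K t v (x (B.pos t v))).conjTranspose * B.K t v (x (B.pos t v)) = 1)
    (z : Z) (Av : Q × (ι → Γ) → ℂ) (hA : ∀ y, ¬ B.Sup τ st p e sk t y → Av y = 0) :
    ∑ v, ∑ y, ‖stepv (B.fs τ st p e sk ck t z v) (B.gs τ st p e sk ck x t z v) Av y‖ ^ 2 ≤
      ∑ y, ‖Av y‖ ^ 2 := by
  classical
  by_cases hi : B.wm.inp τ st p e t
  · -- a step of the processor
    obtain ⟨Fm, hFm⟩ : ∃ Fm : Q × (ι → Γ) → Q × (ι → Γ), Fm = fun w =>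
      (if (sk (t + 1)).isSome then B.start else w.1,
        if B.wm.en τ st p e t then (fun _ => B.blank) else w.2) := ⟨_, rfl⟩
    obtain ⟨cm, hcm⟩ : ∃ cm : Q × (ι → Γ) → Prop, cm = fun w =>
      (∀ s, sk (t + 1) = some s → w.1 = s) ∧
        (B.wm.en τ st p e t → ck (t + 1) = some w.2) := ⟨_, rfl⟩
    have hinj : ∀ w w', cm w → cm w' → Fm w = Fm w' → w = w' := by
      intro w w' h1 h2 h3
      rw [hcm] at h1 h2
      rw [hFm] at h3
      have h4 := Prod.mk.inj h3
      apply Prod.ext
      · cases hs : sk (t + 1) with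
        | some s => rw [h1.1 s hs, h2.1 s hs]
        | none =>
          have := h4.1
          rw [hs] at this
          exact this
      · by_cases he : B.wm.en τ st p e t
        · have a1 := h1.2 he
          rw [h2.2 he] at a1
          exact (Option.some.inj a1).symm
        · have := h4.2
          rw [if_neg he, if_neg he] at this
          exact this
    have key : ∀ v y, stepv (B.fs τ st p e sk ck t z v) (B.gs τ st p e sk ck x t z v) Av y =
        ∑ w, (if Fm w = y ∧ cm w then (∑ y' : Q × (ι → Γ), ∑ k : Q × Γ,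
          (if (k.1, Function.update y'.2 (B.cell z) k.2) = w then
            B.K t v (x (B.pos t v)) k ((sk t).getD y'.1, y'.2 (B.cell z)) * Av y' else 0))
          else 0) := by
      intro v y
      have e1 : ∀ (y' : Q × (ι → Γ)) (k : Q × Γ), (if B.fs τ st p e sk ck t z v y' k = y then
          B.gs τ st p e sk ck x t z v y' k * Av y' else 0) =
          ∑ w : Q × (ι → Γ), (if Fm w = y ∧ cm w then
            (if (k.1, Function.update y'.2 (B.cell z) k.2) = w then
            B.K t v (x (B.pos t v)) k ((sk t).getD y'.1, y'.2 (B.cell z)) * Av y' else 0)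
              else 0) := by
        intro y' k
        rw [sum_eq_single (k.1, Function.update y'.2 (B.cell z) k.2)]
        · rw [if_pos rfl]
          have e2 : B.fs τ st p e sk ck t z v y' k =
              Fm (k.1, Function.update y'.2 (B.cell z) k.2) := by
            unfold fs
            rw [if_pos hi, hFm]
          have e3 : B.gs τ st p e sk ck x t z v y' k =
              if cm (k.1, Function.update y'.2 (B.cell z) k.2) then
                B.K t v (x (B.pos t v)) k ((sk t).getD y'.1, y'.2 (B.cell z)) else 0 := by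
            have hiff : ((∀ s, sk (t + 1) = some s → k.1 = s) ∧ (B.wm.en τ st p e t →
                ck (t + 1) = some (Function.update y'.2 (B.cell z) k.2))) ↔
                cm (k.1, Function.update y'.2 (B.cell z) k.2) := by rw [hcm]
            unfold gs
            rw [if_pos hi]
            by_cases hc : cm (k.1, Function.update y'.2 (B.cell z) k.2)
            · rw [if_pos (hiff.2 hc), if_pos hc]
            · rw [if_neg (fun h => hc (hiff.1 h)), if_neg hc]
          rw [e2, e3]
          by_cases h1 : Fm (k.1, Function.update y'.2 (B.cell z) k.2) = y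
          · by_cases h2 : cm (k.1, Function.update y'.2 (B.cell z) k.2)
            · rw [if_pos h1, if_pos h2, if_pos ⟨h1, h2⟩]
            · rw [if_pos h1, if_neg h2, if_neg (fun h => h2 h.2), zero_mul]
          · rw [if_neg h1, if_neg (fun h => h1 h.1)]
        · intro w _ hw
          rw [if_neg (Ne.symm hw), ite_self]
        · intro h; exact absurd (mem_univ _) h
      unfold stepv
      calc _ = ∑ y' : Q × (ι → Γ), ∑ k : Q × Γ, (if B.fs τ st p e sk ck t z v y' k = y then
          B.gs τ st p e sk ck x t z v y' k * Av y' else 0) := by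
            refine sum_congr rfl fun y' _ => sum_congr rfl fun k _ => ?_
            congr
        _ = ∑ y' : Q × (ι → Γ), ∑ k : Q × Γ, ∑ w : Q × (ι → Γ), (if Fm w = y ∧ cm w then
            (if (k.1, Function.update y'.2 (B.cell z) k.2) = w then
            B.K t v (x (B.pos t v)) k ((sk t).getD y'.1, y'.2 (B.cell z)) * Av y' else 0)
              else 0) := sum_congr rfl fun y' _ => sum_congr rfl fun k _ => e1 y' k
        _ = ∑ y' : Q × (ι → Γ), ∑ w : Q × (ι → Γ), ∑ k : Q × Γ, (if Fm w = y ∧ cm w then
            (if (k.1, Function.update y'.2 (B.cell z) k.2) = w then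
            B.K t v (x (B.pos t v)) k ((sk t).getD y'.1, y'.2 (B.cell z)) * Av y' else 0)
              else 0) := sum_congr rfl fun y' _ => sum_comm
        _ = ∑ w : Q × (ι → Γ), ∑ y' : Q × (ι → Γ), ∑ k : Q × Γ, (if Fm w = y ∧ cm w then
            (if (k.1, Function.update y'.2 (B.cell z) k.2) = w then
            B.K t v (x (B.pos t v)) k ((sk t).getD y'.1, y'.2 (B.cell z)) * Av y' else 0)
              else 0) := sum_comm
        _ = _ := by
            refine sum_congr rfl fun w _ => ?_
            by_cases hc : Fm w = y ∧ cm w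
            · simp only [if_pos hc]
            · simp only [if_neg hc]
              simp
    refine le_trans (sum_le_sum fun v _ => ?_) (QStep.step_norm
      (fun v => B.K t v (x (B.pos t v))) hK (B.cell z) (sk t) B.start Av (fun hs y hy => ?_))
    · rw [sum_congr rfl fun y _ => by rw [key v y]]
      exact QStep.relabel Fm cm hinj _
    · apply hA
      intro hS
      exact hy (hS.1 (Or.inr hs))
  · -- no step of the processor
    obtain ⟨f0, hf0⟩ : ∃ f0 : Q × (ι → Γ) → Q × (ι → Γ), f0 = fun y =>
      if B.wm.bgn τ st p e t then (B.start, (ck (t + 1)).getD fun _ => B.blank)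
      else (B.start, y.2) := ⟨_, rfl⟩
    have hfs : ∀ v y k, B.fs τ st p e sk ck t z v y k = f0 y := by
      intro v y k
      unfold fs
      rw [if_neg hi, hf0]
    have hgs : ∀ v y k, B.gs τ st p e sk ck x t z v y k =
        if v = default ∧ k = default then 1 else 0 := by
      intro v y k
      unfold gs
      rw [if_neg hi]
      by_cases h : v = default ∧ k = default
      · rw [if_pos h, if_pos h]
      · rw [if_neg h, if_neg h]
    have key : ∀ v y, stepv (B.fs τ st p e sk ck t z v) (B.gs τ st p e sk ck x t z v) Av y =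
        if v = default then ∑ y', (if f0 y' = y ∧ B.Sup τ st p e sk t y' then Av y' else 0)
          else 0 := by
      intro v y
      unfold stepv
      by_cases hv : v = default
      · rw [if_pos hv]
        refine sum_congr rfl fun y' _ => ?_
        rw [sum_eq_single (default : Q × Γ)]
        · have hg1 : B.gs τ st p e sk ck x t z v y' default = 1 := by
            rw [hgs, if_pos ⟨hv, rfl⟩]
          rw [hfs, hg1, one_mul]
          by_cases h1 : f0 y' = y
          · by_cases h2 : B.Sup τ st p e sk t y'
            · rw [if_pos h1, if_pos ⟨h1, h2⟩]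
            · rw [if_pos h1, if_neg (fun h => h2 h.2), hA y' h2]
          · rw [if_neg h1, if_neg (fun h => h1 h.1)]
        · intro k _ hk
          have hg0 : B.gs τ st p e sk ck x t z v y' k = 0 := by
            rw [hgs, if_neg (fun h => hk h.2)]
          rw [hg0, zero_mul, ite_self]
        · intro h; exact absurd (mem_univ _) h
      · rw [if_neg hv]
        refine sum_eq_zero fun y' _ => sum_eq_zero fun k _ => ?_
        have hg0 : B.gs τ st p e sk ck x t z v y' k = 0 := by
          rw [hgs, if_neg (fun h => hv h.1)]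
        rw [hg0, zero_mul, ite_self]
    rw [sum_eq_single (default : M)]
    · rw [sum_congr rfl fun y _ => by rw [key, if_pos rfl]]
      refine QStep.relabel f0 (B.Sup τ st p e sk t) ?_ Av
      intro w w' h1 h2 h3
      have a1 := h1.1 (Or.inl hi)
      have a2 := h2.1 (Or.inl hi)
      apply Prod.ext
      · rw [a1, a2]
      · by_cases hb : B.wm.bgn τ st p e t
        · have := B.not_inp_of_bgn τ st p e t hb
          rw [h1.2.1 this, h2.2.1 this]
        · rw [hf0] at h3
          simp only [if_neg hb] at h3
          exact (Prod.mk.inj h3).2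
    · intro v _ hv
      refine sum_eq_zero fun y _ => ?_
      rw [key, if_neg hv, norm_zero]
      norm_num
    · intro h; exact absurd (mem_univ _) h

/-- The sum of the norms on one side. -/
lemma side_norm (hτ : 1 ≤ τ) (x : Fin N → A) (T : ℕ)
    (hK : ∀ t, ∑ v, (B.K t v (x (B.pos t v))).conjTranspose * B.K t v (x (B.pos t v)) = 1)
    (hb : ∀ t < T, B.wm.inp τ st p e t → ¬ B.wm.inp τ st p e (t + 1) →
      (sk (t + 1)).isSome) :
    (∀ (ν : ℕ → M) (y : Q × (ι → Γ)), ¬ B.Sup τ st p e sk T y →
      vec (fun s => B.fs τ st p e sk ck s (B.zi τ st p e ν s) (ν s))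
        (fun s => B.gs τ st p e sk ck x s (B.zi τ st p e ν s) (ν s))
        (B.start, fun _ => B.blank) T y = 0) ∧
    ∑ ν : Fin T → M, ∑ y, ‖vec (fun s => B.fs τ st p e sk ck s (B.zi τ st p e (sq ν) s) (sq ν s))
        (fun s => B.gs τ st p e sk ck x s (B.zi τ st p e (sq ν) s) (sq ν s))
        (B.start, fun _ => B.blank) T y‖ ^ 2 ≤ 1 := by
  have := norm_sum (V := M) (fun ν t => B.zi τ st p e ν t)
    (fun u u' t h => B.zi_congr τ st p e u u' t h)
    (B.fs τ st p e sk ck) (B.gs τ st p e sk ck x) (B.start, fun _ => B.blank)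
    (B.Sup τ st p e sk) T ⟨fun _ => rfl, fun _ => rfl, fun _ => rfl⟩
    (fun t ht z v y k hy _ => B.sup_step τ st p e sk ck hτ t (hb t ht) z v y k hy)
    (fun t ht z Av hA => B.norm_step τ st p e sk ck hτ x t (hK t) z Av hA) T le_rfl
  exact this

end side

end QP

end Pool.Agent.W107
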