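import Mathlib
import Pool.Agent.W107.Q.Norm2

/-!
# Quantum machines with paged memory: the local weights have norm at most one
-/

open Finset

namespace Pool.Agent.W107

open PagedMachine (ext)
open Pool.Agent.W107.Seq (sq sq_lt reg vec stepv path_sum norm_sum)

lemma sq_prod {T : ℕ} {M K : Type} [Inhabited M] [Inhabited K] (ν : Fin T → M) (k b : Fin T → K)
    (n : ℕ) : sq (fun t => (ν t, k t, b t)) n = (sq ν n, sq k n, sq b n) := by
  unfold Seq.sq
  split_ifs <;> rfl

namespace QP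

variable {N : ℕ} {A Z Q P Γ ι M : Type} [DecidableEq P] [DecidableEq ι] (B : QP N A Z Q P Γ ι M)
  [Inhabited M] [Inhabited Q] [Inhabited Γ]

section term

variable (T τ : ℕ) (st : ℕ → Option ((Q × Q) × Z)) (ct : ℕ → Option (ι → Γ × Γ)) (p : P) (e : ℕ)

/-- The product of the weights on one side. -/
noncomputable def sw (sk : ℕ → Option Q) (ck : ℕ → Option (ι → Γ)) (x : Fin N → A) (ν : ℕ → M)
    (k : ℕ → Q × Γ) : ℂ :=
  ∏ t ∈ range T, B.gs τ st p e sk ck x t (B.zi τ st p e ν t) (ν t)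
    (B.rg τ st p e sk ck ν k t) (k t)

/-- The positions read. -/
def rdn (ν : ℕ → M) : Finset (Fin N) :=
  (piece (pgf B.wm.page st) T τ (some p) e).image fun t => B.pos t (ν t)

open Classical in
/-- The contribution of a sequence of labels. -/
lemma term_eq (u : ℕ → M × (Q × Γ) × (Q × Γ)) (R : Finset (Fin N)) (x : Fin N → A) :
    (if (∀ t < T, ¬ B.wm.inp τ st p e t → u t = default) ∧
      B.wm.LC fin T τ st ct p e u R then B.wm.lwt B.g T τ st ct p e u x else 0) =
    (if ((∀ t < T, B.zc τ st ct p e (fun t => (u t).1) t) ∧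
        R = B.rdn T τ st p e (fun t => (u t).1)) ∧
      (cnt (pgf B.wm.page st) (some p) T / τ = e →
        (B.rg τ st p e (s1 st) (c1 ct) (fun t => (u t).1) (fun t => (u t).2.1) T).2 =
        (B.rg τ st p e (s2 st) (c2 ct) (fun t => (u t).1) (fun t => (u t).2.2) T).2) then
      B.sw T τ st p e (s1 st) (c1 ct) x (fun t => (u t).1) (fun t => (u t).2.1) *
      star (B.sw T τ st p e (s2 st) (c2 ct) x (fun t => (u t).1) (fun t => (u t).2.2))
      else 0) := by
  have h1 := prod_congr (rfl : range T = range T) fun t (_ : t ∈ range T) =>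
    B.fac τ st ct p e u x t
  rw [prod_ite_zero, prod_ite_zero, prod_mul_distrib] at h1
  have h2 : ∏ t ∈ range T, (if B.wm.inp τ st p e t then B.g t (u t) (B.wm.qin τ st ct p e u t)
      (B.wm.lr τ st ct p e u t).2 (x (B.wm.pos t (u t))) else 1) =
      B.wm.lwt B.g T τ st ct p e u x := by
    unfold WM.lwt
    rw [← prod_filter]
    refine prod_congr ?_ fun _ _ => rfl
    ext t
    rw [WM.mem_piece_iff, mem_filter, mem_range]
  have h3 : ∏ t ∈ range T, star (B.gs τ st p e (s2 st) (c2 ct) x t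
        (B.zi τ st p e (fun t => (u t).1) t) (u t).1
        (B.rg τ st p e (s2 st) (c2 ct) (fun t => (u t).1) (fun t => (u t).2.2) t) (u t).2.2) =
      star (B.sw T τ st p e (s2 st) (c2 ct) x (fun t => (u t).1) (fun t => (u t).2.2)) := by
    unfold sw
    rw [star_prod]
  rw [h2, h3] at h1
  have hfin : fin (B.wm.lr τ st ct p e u T).2 ↔
      (B.rg τ st p e (s1 st) (c1 ct) (fun t => (u t).1) (fun t => (u t).2.1) T).2 =
        (B.rg τ st p e (s2 st) (c2 ct) (fun t => (u t).1) (fun t => (u t).2.2) T).2 := by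
    rw [B.lr_eq]
    unfold fin
    constructor
    · intro h; funext r; exact h r
    · intro h r; exact congrFun h r
  have hrd : B.wm.rdl st T τ p e u = B.rdn T τ st p e (fun t => (u t).1) := rfl
  by_cases hf : R = B.rdn T τ st p e (fun t => (u t).1) ∧
      (cnt (pgf B.wm.page st) (some p) T / τ = e →
        (B.rg τ st p e (s1 st) (c1 ct) (fun t => (u t).1) (fun t => (u t).2.1) T).2 =
        (B.rg τ st p e (s2 st) (c2 ct) (fun t => (u t).1) (fun t => (u t).2.2) T).2)
  · have e1 : ((∀ t < T, ¬ B.wm.inp τ st p e t → u t = default) ∧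
        B.wm.LC fin T τ st ct p e u R) ↔
        ∀ i ∈ range T, (¬B.wm.inp τ st p e i → u i = default) ∧ B.wm.Cond τ st ct p e u i := by
      constructor
      · rintro ⟨a1, a2, -⟩ i hi
        exact ⟨a1 i (mem_range.1 hi), a2 i (mem_range.1 hi)⟩
      · intro h
        exact ⟨fun t ht => (h t (mem_range.2 ht)).1, fun t ht => (h t (mem_range.2 ht)).2,
          by rw [hf.1, hrd], fun he => hfin.2 (hf.2 he)⟩
    have e2 : (((∀ t < T, B.zc τ st ct p e (fun t => (u t).1) t) ∧
        R = B.rdn T τ st p e (fun t => (u t).1)) ∧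
      (cnt (pgf B.wm.page st) (some p) T / τ = e →
        (B.rg τ st p e (s1 st) (c1 ct) (fun t => (u t).1) (fun t => (u t).2.1) T).2 =
        (B.rg τ st p e (s2 st) (c2 ct) (fun t => (u t).1) (fun t => (u t).2.2) T).2)) ↔
        ∀ i ∈ range T, B.zc τ st ct p e (fun t => (u t).1) i := by
      constructor
      · rintro ⟨⟨a1, -⟩, -⟩ i hi
        exact a1 i (mem_range.1 hi)
      · intro h
        exact ⟨⟨fun t ht => h t (mem_range.2 ht), hf.1⟩, hf.2⟩
    simp only [e1, e2]
    exact h1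
  · rw [if_neg, if_neg]
    · rintro ⟨⟨-, a1⟩, a2⟩
      exact hf ⟨a1, a2⟩
    · rintro ⟨-, -, a1, a2⟩
      exact hf ⟨by rw [a1, hrd], fun he => hfin.1 (a2 he)⟩

/-- The conditions for a non-zero contribution. -/
def tc (u : ℕ → M × (Q × Γ) × (Q × Γ)) (R : Finset (Fin N)) : Prop :=
  ((∀ t < T, B.zc τ st ct p e (fun t => (u t).1) t) ∧
        R = B.rdn T τ st p e (fun t => (u t).1)) ∧
      (cnt (pgf B.wm.page st) (some p) T / τ = e →
        (B.rg τ st p e (s1 st) (c1 ct) (fun t => (u t).1) (fun t => (u t).2.1) T).2 =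
        (B.rg τ st p e (s2 st) (c2 ct) (fun t => (u t).1) (fun t => (u t).2.2) T).2)

/-- The conditions on the labels. -/
def ta (u : ℕ → M × (Q × Γ) × (Q × Γ)) (R : Finset (Fin N)) : Prop :=
  (∀ t < T, ¬ B.wm.inp τ st p e t → u t = default) ∧ B.wm.LC fin T τ st ct p e u R

/-- The contribution of a sequence of labels. -/
noncomputable def tx (u : ℕ → M × (Q × Γ) × (Q × Γ)) (x : Fin N → A) : ℂ :=
  B.sw T τ st p e (s1 st) (c1 ct) x (fun t => (u t).1) (fun t => (u t).2.1) *
      star (B.sw T τ st p e (s2 st) (c2 ct) x (fun t => (u t).1) (fun t => (u t).2.2))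

lemma term_pos (u : ℕ → M × (Q × Γ) × (Q × Γ)) (R : Finset (Fin N)) (x : Fin N → A)
    (h1 : B.ta T τ st ct p e u R) (h2 : B.tc T τ st ct p e u R) :
    B.wm.lwt B.g T τ st ct p e u x = B.tx T τ st ct p e u x := by
  have := B.term_eq T τ st ct p e u R x
  unfold ta at h1
  unfold tc at h2
  rw [if_pos h1, if_pos h2] at this
  exact this

lemma term_neg (u : ℕ → M × (Q × Γ) × (Q × Γ)) (R : Finset (Fin N)) (x : Fin N → A)
    (h1 : B.ta T τ st ct p e u R) (h2 : ¬ B.tc T τ st ct p e u R) :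
    B.wm.lwt B.g T τ st ct p e u x = 0 := by
  have := B.term_eq T τ st ct p e u R x
  unfold ta at h1
  unfold tc at h2
  rw [if_pos h1, if_neg h2] at this
  exact this

lemma term_neg' (u : ℕ → M × (Q × Γ) × (Q × Γ)) (R : Finset (Fin N)) (x : Fin N → A)
    (h1 : ¬ B.ta T τ st ct p e u R) (h2 : B.tc T τ st ct p e u R) :
    B.tx T τ st ct p e u x = 0 := by
  have := B.term_eq T τ st ct p e u R x
  unfold ta at h1
  unfold tc at h2
  rw [if_neg h1, if_pos h2] at this
  exact this.symm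

end term

variable [Fintype Q] [Fintype Γ] [Fintype ι] [Fintype M] [DecidableEq Q] [DecidableEq Γ]

open Classical in
/-- The local weights have norm at most one. -/
theorem lw_norm (T F τ : ℕ) {n₁ n₂ : ℕ} (hτ : 1 ≤ τ) (x : Fin N → A)
    (hK : ∀ t, ∑ v, (B.K t v (x (B.pos t v))).conjTranspose * B.K t v (x (B.pos t v)) = 1)
    (μ : DetPaged.Msg ((Q × Q) × Z) (ι → Γ × Γ) T n₁ n₂) (j : P × Fin (T + 1)) :
    ∑ R, ‖B.wm.lw B.g fin T F τ μ j R x‖ ≤ 1 := by
  obtain ⟨st, hst⟩ : ∃ st, st = ext μ.1.1 := ⟨_, rfl⟩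
  obtain ⟨ct, hct⟩ : ∃ ct, ct = ext μ.2.1 := ⟨_, rfl⟩
  obtain ⟨p, hp⟩ : ∃ p, p = j.1 := ⟨_, rfl⟩
  obtain ⟨e, he⟩ : ∃ e, e = j.2.val := ⟨_, rfl⟩
  by_cases hG : (B.wm.det fun _ => default).Glob T F τ (ext μ.1.1) (ext μ.2.1)
  swap
  · have : ∀ R, ‖B.wm.lw B.g fin T F τ μ j R x‖ = 0 := by
      intro R
      unfold WM.lw
      rw [if_neg hG, norm_zero]
    rw [sum_congr rfl fun R _ => this R, sum_const_zero]
    norm_num
  obtain ⟨g1, ⟨sT, g2, g2'⟩, g3, -⟩ := (B.wm.glob_iff τ _ _ _ T F).1 hG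
  rw [← hst] at g1 g2 g3
  -- the vectors on the two sides
  obtain ⟨x0, hx0⟩ : ∃ x0 : Q × (ι → Γ), x0 = (B.start, fun _ => B.blank) := ⟨_, rfl⟩
  obtain ⟨V1, hV1⟩ : ∃ V1 : (ℕ → M) → Q × (ι → Γ) → ℂ, V1 = fun ν =>
    vec (fun s => B.fs τ st p e (s1 st) (c1 ct) s (B.zi τ st p e ν s) (ν s))
      (fun s => B.gs τ st p e (s1 st) (c1 ct) x s (B.zi τ st p e ν s) (ν s))
      (B.start, fun _ => B.blank) T := ⟨_, rfl⟩
  obtain ⟨V2, hV2⟩ : ∃ V2 : (ℕ → M) → Q × (ι → Γ) → ℂ, V2 = fun ν =>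
    vec (fun s => B.fs τ st p e (s2 st) (c2 ct) s (B.zi τ st p e ν s) (ν s))
      (fun s => B.gs τ st p e (s2 st) (c2 ct) x s (B.zi τ st p e ν s) (ν s))
      (B.start, fun _ => B.blank) T := ⟨_, rfl⟩
  have hsome : ∀ t < T, B.wm.inp τ st p e t → ¬ B.wm.inp τ st p e (t + 1) →
      (st (t + 1)).isSome := by
    intro t ht hi hni
    by_contra hn
    have hs : st (t + 1) = none := by
      cases h : st (t + 1) with
      | none => rfl
      | some s => rw [h] at hn; exact absurd rfl hn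
    have hpg := B.wm.pgf_none st t hs
    have hd : ¬ τ ∣ cnt (pgf B.wm.page st) (some p) (t + 1) := by
      intro hd
      apply hn
      apply g3 t ht
      rw [hi.1]
      exact hd
    apply hni
    refine ⟨by rw [hpg]; exact hi.1, ?_⟩
    rw [← hi.2]
    rw [cnt_succ, if_pos hi.1] at hd ⊢
    exact Nat.succ_div_of_not_dvd hd
  have hb1 : ∀ t < T, B.wm.inp τ st p e t → ¬ B.wm.inp τ st p e (t + 1) →
      (s1 st (t + 1)).isSome := by
    intro t ht hi hni
    unfold s1
    rw [Option.isSome_map]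
    exact hsome t ht hi hni
  have hb2 : ∀ t < T, B.wm.inp τ st p e t → ¬ B.wm.inp τ st p e (t + 1) →
      (s2 st (t + 1)).isSome := by
    intro t ht hi hni
    unfold s2
    rw [Option.isSome_map]
    exact hsome t ht hi hni
  obtain ⟨a1, b1⟩ := B.side_norm τ st p e (s1 st) (c1 ct) hτ x T hK hb1
  obtain ⟨a2, b2⟩ := B.side_norm τ st p e (s2 st) (c2 ct) hτ x T hK hb2
  -- the support
  obtain ⟨S, hS⟩ : ∃ S : Q × (ι → Γ) → Prop, S = fun y => y.1 = B.start ∧
    (cnt (pgf B.wm.page st) (some p) T / τ ≠ e → y.2 = fun _ => B.blank) := ⟨_, rfl⟩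
  have hSup : ∀ (sk : ℕ → Option Q) (y : Q × (ι → Γ)), (sk T).isSome →
      B.Sup τ st p e sk T y → S y := by
    intro sk y hsk hy
    rw [hS]
    refine ⟨hy.1 (Or.inr hsk), fun hne => ?_⟩
    by_cases h1 : cnt (pgf B.wm.page st) (some p) T < e * τ
    · exact hy.2.1 h1
    · apply hy.2.2
      by_contra h2
      apply hne
      rw [Nat.div_eq_iff (by omega)]
      have : (e + 1) * τ = e * τ + τ := by ring
      constructor <;> omega
  have hS1 : ∀ ν y, ¬ S y → V1 ν y = 0 := by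
    intro ν y hy
    rw [hV1]
    apply a1
    intro h
    exact hy (hSup (s1 st) y (by unfold s1; rw [g2]; rfl) h)
  have hS2 : ∀ ν y, ¬ S y → V2 ν y = 0 := by
    intro ν y hy
    rw [hV2]
    apply a2
    intro h
    exact hy (hSup (s2 st) y (by unfold s2; rw [g2]; rfl) h)
  obtain ⟨Cc, hCc⟩ : ∃ Cc : Q × (ι → Γ) → Q × (ι → Γ) → Prop, Cc = fun y y' =>
    (cnt (pgf B.wm.page st) (some p) T / τ = e → y.2 = y'.2) := ⟨_, rfl⟩
  have hCS : ∀ y y', S y → S y' → Cc y y' → y = y' := by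
    intro y y' h1 h2 h3
    rw [hS] at h1 h2
    rw [hCc] at h3
    apply Prod.ext
    · rw [h1.1, h2.1]
    · by_cases h : cnt (pgf B.wm.page st) (some p) T / τ = e
      · exact h3 h
      · rw [h1.2 h, h2.2 h]
  -- the sum over the two sides
  obtain ⟨X, hX⟩ : ∃ X : (ℕ → M) → ℂ, X = fun ν => ∑ k : Fin T → Q × Γ, ∑ b : Fin T → Q × Γ,
    (if Cc (B.rg τ st p e (s1 st) (c1 ct) ν (sq k) T) (B.rg τ st p e (s2 st) (c2 ct) ν (sq b) T)
      then B.sw T τ st p e (s1 st) (c1 ct) x ν (sq k) *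
        star (B.sw T τ st p e (s2 st) (c2 ct) x ν (sq b)) else 0) := ⟨_, rfl⟩
  have hXV : ∀ ν, X ν = ∑ y, V1 ν y * star (V2 ν y) := by
    intro ν
    rw [hX]
    refine pair_sum (fun k : Fin T → Q × Γ => B.rg τ st p e (s1 st) (c1 ct) ν (sq k) T)
      (fun b : Fin T → Q × Γ => B.rg τ st p e (s2 st) (c2 ct) ν (sq b) T)
      (fun k => B.sw T τ st p e (s1 st) (c1 ct) x ν (sq k))
      (fun b => B.sw T τ st p e (s2 st) (c2 ct) x ν (sq b)) Cc (V1 ν) (V2 ν) ?_ ?_ S
      (hS1 ν) (hS2 ν) (fun y => by rw [hCc]; exact fun _ => rfl) hCS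
    · intro y
      have := path_sum (V := Q × Γ) (fun s => B.fs τ st p e (s1 st) (c1 ct) s
        (B.zi τ st p e ν s) (ν s))
        (fun s => B.gs τ st p e (s1 st) (c1 ct) x s (B.zi τ st p e ν s) (ν s))
        (B.start, fun _ => B.blank) y T
      rw [hV1]
      refine this.symm.trans (sum_congr rfl fun k _ => ?_)
      by_cases h : B.rg τ st p e (s1 st) (c1 ct) ν (sq k) T = y
      · rw [if_pos h]
        exact if_pos h
      · rw [if_neg h]
        exact if_neg h
    · intro y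
      have := path_sum (V := Q × Γ) (fun s => B.fs τ st p e (s2 st) (c2 ct) s
        (B.zi τ st p e ν s) (ν s))
        (fun s => B.gs τ st p e (s2 st) (c2 ct) x s (B.zi τ st p e ν s) (ν s))
        (B.start, fun _ => B.blank) y T
      rw [hV2]
      refine this.symm.trans (sum_congr rfl fun k _ => ?_)
      by_cases h : B.rg τ st p e (s2 st) (c2 ct) ν (sq k) T = y
      · rw [if_pos h]
        exact if_pos h
      · rw [if_neg h]
        exact if_neg h
  -- the local weight
  have hlw : ∀ R, B.wm.lw B.g fin T F τ μ j R x = ∑ ν : Fin T → M,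
      (if (∀ t < T, B.zc τ st ct p e (sq ν) t) ∧ R = B.rdn T τ st p e (sq ν) then X (sq ν)
        else 0) := by
    intro R
    unfold WM.lw
    rw [if_pos hG, sum_filter, ← hst, ← hct, ← hp, ← he]
    have e1 : ∀ (u : Fin T → M × (Q × Γ) × (Q × Γ))
        (_inst : Decidable (∀ t : Fin T, ¬ B.wm.inp τ st p e t.val → u t = default)),
        (if ∀ t : Fin T, ¬ B.wm.inp τ st p e t.val → u t = default then
          (if B.wm.LC fin T τ st ct p e (sq u) R then B.wm.lwt B.g T τ st ct p e (sq u) x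
            else 0) else 0) =
        (if B.tc T τ st ct p e (sq u) R then B.tx T τ st ct p e (sq u) x else 0) := by
      intro u _
      have h1 : (∀ t : Fin T, ¬ B.wm.inp τ st p e t.val → u t = default) ↔
          ∀ t < T, ¬ B.wm.inp τ st p e t → sq u t = default := by
        constructor
        · intro h t ht hi
          have := h ⟨t, ht⟩ hi
          rw [← sq_lt u] at this
          exact this
        · intro h t hi
          rw [← sq_lt u]
          exact h t.val t.2 hi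
      by_cases hc : B.tc T τ st ct p e (sq u) R
      · rw [if_pos hc]
        by_cases h2 : ∀ t : Fin T, ¬ B.wm.inp τ st p e t.val → u t = default
        · by_cases h3 : B.wm.LC fin T τ st ct p e (sq u) R
          · rw [if_pos h2, if_pos h3]
            exact B.term_pos T τ st ct p e (sq u) R x ⟨h1.1 h2, h3⟩ hc
          · rw [if_pos h2, if_neg h3]
            exact (B.term_neg' T τ st ct p e (sq u) R x (fun h => h3 h.2) hc).symm
        · rw [if_neg h2]
          exact (B.term_neg' T τ st ct p e (sq u) R x (fun h => h2 (h1.2 h.1)) hc).symm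
      · rw [if_neg hc]
        by_cases h2 : ∀ t : Fin T, ¬ B.wm.inp τ st p e t.val → u t = default
        · by_cases h3 : B.wm.LC fin T τ st ct p e (sq u) R
          · rw [if_pos h2, if_pos h3]
            exact B.term_neg T τ st ct p e (sq u) R x ⟨h1.1 h2, h3⟩ hc
          · rw [if_pos h2, if_neg h3]
        · rw [if_neg h2]
    refine Eq.trans (b := ∑ u : Fin T → M × (Q × Γ) × (Q × Γ),
      if B.tc T τ st ct p e (sq u) R then B.tx T τ st ct p e (sq u) x else 0)
      (sum_congr rfl fun u _ => ?_) ?_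
    · exact e1 u _
    have e2 : ∀ F : (Fin T → M × (Q × Γ) × (Q × Γ)) → ℂ, ∑ u, F u =
        ∑ ν : Fin T → M, ∑ k : Fin T → Q × Γ, ∑ b : Fin T → Q × Γ,
          F (fun t => (ν t, k t, b t)) := by
      intro F
      rw [← (Equiv.arrowProdEquivProdArrow (Fin T) (fun _ => M)
        (fun _ => (Q × Γ) × (Q × Γ))).symm.sum_comp, Fintype.sum_prod_type]
      refine sum_congr rfl fun ν _ => ?_
      rw [← (Equiv.arrowProdEquivProdArrow (Fin T) (fun _ => Q × Γ)
        (fun _ => Q × Γ)).symm.sum_comp, Fintype.sum_prod_type]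
      rfl
    rw [e2]
    refine sum_congr rfl fun ν _ => ?_
    have e3 : ∀ k b : Fin T → Q × Γ, (fun t => (sq (fun t => (ν t, k t, b t)) t).1) = sq ν ∧
        (fun t => (sq (fun t => (ν t, k t, b t)) t).2.1) = sq k ∧
        (fun t => (sq (fun t => (ν t, k t, b t)) t).2.2) = sq b := by
      intro k b
      refine ⟨?_, ?_, ?_⟩ <;> · funext n; rw [sq_prod]
    have e4 : ∀ k b : Fin T → Q × Γ, B.tc T τ st ct p e (sq (fun t => (ν t, k t, b t))) R ↔
        ((∀ t < T, B.zc τ st ct p e (sq ν) t) ∧ R = B.rdn T τ st p e (sq ν)) ∧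
        Cc (B.rg τ st p e (s1 st) (c1 ct) (sq ν) (sq k) T)
          (B.rg τ st p e (s2 st) (c2 ct) (sq ν) (sq b) T) := by
      intro k b
      unfold tc
      rw [(e3 k b).1, (e3 k b).2.1, (e3 k b).2.2, hCc]
    have e5 : ∀ k b : Fin T → Q × Γ, B.tx T τ st ct p e (sq (fun t => (ν t, k t, b t))) x =
        B.sw T τ st p e (s1 st) (c1 ct) x (sq ν) (sq k) *
        star (B.sw T τ st p e (s2 st) (c2 ct) x (sq ν) (sq b)) := by
      intro k b
      unfold tx
      rw [(e3 k b).1, (e3 k b).2.1, (e3 k b).2.2]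
    by_cases hz : (∀ t < T, B.zc τ st ct p e (sq ν) t) ∧ R = B.rdn T τ st p e (sq ν)
    · rw [if_pos hz, hX]
      refine sum_congr rfl fun k _ => sum_congr rfl fun b _ => ?_
      by_cases hc : Cc (B.rg τ st p e (s1 st) (c1 ct) (sq ν) (sq k) T)
        (B.rg τ st p e (s2 st) (c2 ct) (sq ν) (sq b) T)
      · rw [if_pos hc, if_pos ((e4 k b).2 ⟨hz, hc⟩), e5]
      · rw [if_neg hc, if_neg (fun h => hc ((e4 k b).1 h).2)]
    · rw [if_neg hz]
      refine sum_eq_zero fun k _ => sum_eq_zero fun b _ => ?_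
      rw [if_neg (fun h => hz ((e4 k b).1 h).1)]
  -- the sum
  calc ∑ R, ‖B.wm.lw B.g fin T F τ μ j R x‖
      ≤ ∑ R, ∑ ν : Fin T → M, (if R = B.rdn T τ st p e (sq ν) then ‖X (sq ν)‖ else 0) := by
        refine sum_le_sum fun R _ => ?_
        rw [hlw R]
        refine (norm_sum_le _ _).trans (sum_le_sum fun ν _ => ?_)
        by_cases h1 : R = B.rdn T τ st p e (sq ν)
        · rw [if_pos h1]
          split_ifs
          · exact le_rfl
          · rw [norm_zero]; exact norm_nonneg _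
        · rw [if_neg h1, if_neg (fun h => h1 h.2), norm_zero]
    _ = ∑ ν : Fin T → M, ‖X (sq ν)‖ := by
        rw [sum_comm]
        refine sum_congr rfl fun ν _ => ?_
        rw [sum_ite_eq' univ (B.rdn T τ st p e (sq ν)) (fun _ => ‖X (sq ν)‖),
          if_pos (mem_univ _)]
    _ ≤ ∑ ν : Fin T → M, (∑ y, ‖V1 (sq ν) y‖ ^ 2 + ∑ y, ‖V2 (sq ν) y‖ ^ 2) / 2 := by
        refine sum_le_sum fun ν _ => ?_
        rw [hXV]
        exact norm_pair _ _
    _ = (∑ ν : Fin T → M, ∑ y, ‖V1 (sq ν) y‖ ^ 2 +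
          ∑ ν : Fin T → M, ∑ y, ‖V2 (sq ν) y‖ ^ 2) / 2 := by
        rw [← sum_div, sum_add_distrib]
    _ ≤ (1 + 1) / 2 := by
        apply div_le_div_of_nonneg_right _ (by norm_num)
        rw [hV1, hV2]
        exact add_le_add b1 b2
    _ = 1 := by norm_num

end QP

end Pool.Agent.W107
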