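import Mathlib
import Pool.Agent.W107.RandCore
import Pool.Agent.W107.RandMain

/-!
# Families of distributed quantum computations, and their correlation with bent functions
-/

open Finset

namespace Pool.Agent.W107

open Pool.Agent.H774R2.QTS (Jof core_blocks dlt prob_good Good_unique TP vol chi quad ker chi_zero
  z2_cases)
open Pool.Agent.H774R2.QSAT (sum_update)
open Pool.Agent.H774R2.QBIT (form loc loc_iff form_local sum_chi_split)
open RS (vs theta theta_nonneg theta_le theta_ge sum_theta)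

/-- A weighted family (indexed by `I`) of distributed computations with complex weights:
`w i j R x` is the weight of the processor `j` reading exactly the positions in `R`; the total
weight `pr` of every history is a non-negative real number. -/
structure QRS (N : ℕ) (A β I : Type) [Fintype β] [Fintype I] where
  c : I → ℝ
  w : I → β → Finset (Fin N) → (Fin N → A) → ℂ
  pr : (Fin N → A) → (β → Finset (Fin N)) → ℝ
  c_nonneg : ∀ i, 0 ≤ c i
  pr_nonneg : ∀ x h, 0 ≤ pr x h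
  pr_eq : ∀ x h, (pr x h : ℂ) = ∑ i, (c i : ℂ) * ∏ j, w i j (h j) x
  local' : ∀ i j R x x', (∀ a ∈ R, x a = x' a) → w i j R x = w i j R x'
  norm : ∀ i j x, ∑ R, ‖w i j R x‖ ≤ 1

namespace QRS

variable {N : ℕ} {A β I : Type} [Fintype β] [DecidableEq β] [Fintype I] (V : QRS N A β I)

/-- The total weight. -/
def tot (x : Fin N → A) : ℝ := ∑ h, V.pr x h

variable {n : ℕ}

open Classical in
/-- The good histories contribute little. -/
theorem good_bound (loc : Fin N → Option (Fin n)) (X : (Fin n → ZMod 2) → (Fin N → A))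
    (hX : ∀ x x' i, (∀ k, loc i = some k → x k = x' k) → X x i = X x' i) (ω : β → ℕ)
    (F : (Fin n → ZMod 2) → ℂ) (c Γ a0 : ℕ) (hc : 1 ≤ c) (hΓ : 1 ≤ Γ) (κ : ℕ → ℝ)
    (hκ : ∀ a, 0 ≤ κ a) (hF : ∀ a, a0 ≤ a → TP F a (κ a)) :
    ‖∑ x, F x * ((∑ h : β → Finset (Fin N),
      if Pool.Agent.H774R2.QTS.Good c Γ a0 ω (Jof (fun _ => vs loc) h) then
        V.pr (X x) h else 0 : ℝ) : ℂ)‖ ≤ (∑ i, V.c i) * (dlt n Γ a0 κ * 2 ^ n) := by
  have e1 : ∑ x, F x * ((∑ h : β → Finset (Fin N),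
      if Pool.Agent.H774R2.QTS.Good c Γ a0 ω (Jof (fun _ => vs loc) h) then
        V.pr (X x) h else 0 : ℝ) : ℂ) = ∑ i, (V.c i : ℂ) * ∑ x, F x *
      ∑ h : β → Finset (Fin N), if Pool.Agent.H774R2.QTS.Good c Γ a0 ω (Jof (fun _ => vs loc) h)
        then ∏ j, V.w i j (h j) (X x) else 0 := by
    simp_rw [mul_sum]
    rw [sum_comm]
    refine sum_congr rfl fun x _ => ?_
    push_cast
    rw [mul_sum, sum_comm]
    refine sum_congr rfl fun h _ => ?_
    split_ifs with hg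
    · rw [V.pr_eq, mul_sum]
      refine sum_congr rfl fun i _ => ?_
      ring
    · simp
  rw [e1, sum_mul]
  refine (norm_sum_le _ _).trans (sum_le_sum fun i _ => ?_)
  rw [norm_mul, Complex.norm_real, Real.norm_of_nonneg (V.c_nonneg i)]
  apply mul_le_mul_of_nonneg_left _ (V.c_nonneg i)
  have := core_blocks (β := β) (H := Finset (Fin N)) (fun _ => vs loc)
    (fun j R x => V.w i j R (X x)) (fun j R x x' hx => by
      have : V.w i j R (X x) = V.w i j R (X x') := by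
        apply V.local'
        intro a ha
        apply hX
        intro k hk
        apply hx
        unfold vs
        rw [mem_filter]
        exact ⟨mem_univ _, a, ha, hk⟩
      rw [this])
    (fun j x => V.norm i j (X x))
    ω F c Γ a0 hc hΓ κ hκ hF
  refine le_trans (le_of_eq ?_) this
  congr 1

open Classical in
lemma theta_sum (loc : Fin N → Option (Fin n)) (k Γ a0 R L : ℕ) (y : Fin N → A) :
    ∑ h : β → Finset (Fin N), V.pr y h * theta loc k Γ a0 R L h =
    ∑ l ∈ Icc 2 (L + 1), ∑ ω : β → Fin (R ^ l), ∑ c ∈ Icc 1 (2 * k),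
      (∑ h : β → Finset (Fin N),
        if Pool.Agent.H774R2.QTS.Good c Γ a0 (fun j => (ω j).val)
          (Jof (fun _ => vs loc) h) then V.pr y h
          else 0) / (((R : ℝ) ^ l) ^ (Fintype.card β)) := by
  unfold theta
  simp_rw [mul_sum]
  rw [sum_comm]
  refine sum_congr rfl fun l _ => ?_
  have e' : ∀ h : β → Finset (Fin N), V.pr y h *
      ((∑ ω : β → Fin (R ^ l), ∑ c ∈ Icc 1 (2 * k),
        if Pool.Agent.H774R2.QTS.Good c Γ a0 (fun j => (ω j).val)
          (Jof (fun _ => vs loc) h) then (1 : ℝ) else 0) /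
      (((R : ℝ) ^ l) ^ (Fintype.card β))) = ∑ ω : β → Fin (R ^ l), ∑ c ∈ Icc 1 (2 * k),
        (if Pool.Agent.H774R2.QTS.Good c Γ a0 (fun j => (ω j).val)
          (Jof (fun _ => vs loc) h) then V.pr y h
          else 0) / (((R : ℝ) ^ l) ^ (Fintype.card β)) := by
    intro h
    rw [← mul_div_assoc, mul_sum, sum_div]
    refine sum_congr rfl fun ω _ => ?_
    rw [mul_sum, sum_div]
    refine sum_congr rfl fun c _ => ?_
    split_ifs <;> simp
  rw [sum_congr rfl fun h _ => e' h, sum_comm]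
  refine sum_congr rfl fun ω _ => ?_
  rw [sum_comm]
  refine sum_congr rfl fun c _ => ?_
  rw [sum_div]

/-- Upper bound for the correlation of the averaged weight of the good histories. -/
theorem corr_bound (loc : Fin N → Option (Fin n)) (X : (Fin n → ZMod 2) → (Fin N → A))
    (hX : ∀ x x' i, (∀ k, loc i = some k → x k = x' k) → X x i = X x' i)
    (Γ a0 k R L : ℕ) (hΓ : 1 ≤ Γ) (hR1 : 1 ≤ R) (F : (Fin n → ZMod 2) → ℂ)
    (κ : ℕ → ℝ) (hκ0 : ∀ a, 0 ≤ κ a) (hTP : ∀ a, a0 ≤ a → TP F a (κ a)) :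
    ‖∑ x, F x * ((∑ h : β → Finset (Fin N), V.pr (X x) h * theta loc k Γ a0 R L h : ℝ) : ℂ)‖ ≤
      L * (2 * k * ((∑ i, V.c i) * (dlt n Γ a0 κ * 2 ^ n))) := by
  classical
  have hdlt0 : 0 ≤ dlt n Γ a0 κ := sum_nonneg fun a _ => mul_nonneg (hκ0 a) (by positivity)
  set AA : (Fin n → ZMod 2) → ℝ := fun x => ∑ h : β → Finset (Fin N),
    V.pr (X x) h * theta loc k Γ a0 R L h with hA
  have e1 : ∑ x, F x * (AA x : ℂ) = ∑ l ∈ Icc 2 (L + 1), ∑ ω : β → Fin (R ^ l),
      ∑ c ∈ Icc 1 (2 * k), (∑ x, F x * ((∑ h : β → Finset (Fin N),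
      if Pool.Agent.H774R2.QTS.Good c Γ a0 (fun j => (ω j).val)
        (Jof (fun _ => vs loc) h) then
        V.pr (X x) h else 0 : ℝ) : ℂ)) / ((((R : ℝ) ^ l) ^ (Fintype.card β) : ℝ) : ℂ) := by
    have e2 : ∀ x, F x * (AA x : ℂ) = ∑ l ∈ Icc 2 (L + 1), ∑ ω : β → Fin (R ^ l),
        ∑ c ∈ Icc 1 (2 * k), F x * ((∑ h : β → Finset (Fin N),
        if Pool.Agent.H774R2.QTS.Good c Γ a0 (fun j => (ω j).val)
          (Jof (fun _ => vs loc) h) then
        V.pr (X x) h else 0 : ℝ) : ℂ) / ((((R : ℝ) ^ l) ^ (Fintype.card β) : ℝ) : ℂ) := by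
      intro x
      have e3 : AA x = _ := V.theta_sum loc k Γ a0 R L (X x)
      rw [e3]
      rw [Complex.ofReal_sum, mul_sum]
      refine sum_congr rfl fun l _ => ?_
      rw [Complex.ofReal_sum, mul_sum]
      refine sum_congr rfl fun ω _ => ?_
      rw [Complex.ofReal_sum, mul_sum]
      refine sum_congr rfl fun c _ => ?_
      rw [Complex.ofReal_div, mul_div_assoc]
    rw [sum_congr rfl fun x _ => e2 x, sum_comm]
    refine sum_congr rfl fun l _ => ?_
    rw [sum_comm]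
    refine sum_congr rfl fun ω _ => ?_
    rw [sum_comm]
    refine sum_congr rfl fun c _ => ?_
    rw [sum_div]
  rw [e1]
  have hW : ∀ l, (0 : ℝ) < ((R : ℝ) ^ l) ^ (Fintype.card β) := fun l => by
    have : (0 : ℝ) < R := by exact_mod_cast hR1
    positivity
  have hc0 : 0 ≤ ∑ i, V.c i := sum_nonneg fun i _ => V.c_nonneg i
  set B : ℝ := (∑ i, V.c i) * (dlt n Γ a0 κ * 2 ^ n) with hB
  have hB0 : 0 ≤ B := by positivity
  calc _ ≤ ∑ l ∈ Icc 2 (L + 1), ∑ _ω : β → Fin (R ^ l), ∑ _c ∈ Icc 1 (2 * k),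
        B / ((R : ℝ) ^ l) ^ (Fintype.card β) := by
        refine (norm_sum_le _ _).trans (sum_le_sum fun l _ => ?_)
        refine (norm_sum_le _ _).trans (sum_le_sum fun ω _ => ?_)
        refine (norm_sum_le _ _).trans (sum_le_sum fun c hc => ?_)
        rw [mem_Icc] at hc
        rw [norm_div, Complex.norm_real, Real.norm_of_nonneg (hW l).le]
        apply div_le_div_of_nonneg_right _ (hW l).le
        exact V.good_bound loc X hX (fun j => (ω j).val) F c Γ a0 hc.1 (by omega) κ hκ0 hTP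
    _ = ∑ l ∈ Icc 2 (L + 1), 2 * k * B := by
        refine sum_congr rfl fun l _ => ?_
        rw [sum_const, sum_const, card_univ, Fintype.card_fun, Fintype.card_fin,
          Nat.card_Icc, nsmul_eq_mul, nsmul_eq_mul]
        have : ((R ^ l) ^ (Fintype.card β) : ℕ) = (((R : ℝ) ^ l) ^ (Fintype.card β) : ℝ) := by
          push_cast; rfl
        rw [this]
        have h2 : ((2 * k + 1 - 1 : ℕ) : ℝ) = 2 * k := by
          rw [Nat.add_sub_cancel]; push_cast; ring
        rw [h2]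
        have := (hW l).ne'
        field_simp
    _ = L * (2 * k * B) := by
        rw [sum_const, Nat.card_Icc, nsmul_eq_mul, show L + 1 + 1 - 2 = L by omega]

variable {B : ℕ}

/-- The main inequality. -/
theorem finite_main (V : QRS N A β I) (W δ : ℝ) (hδ : 0 < δ) (hδ' : δ ≤ 1 / 2)
    (hW : ∑ i, V.c i ≤ W) (hW1 : 1 ≤ W)
    (P : (Fin N → A) → Prop) (hno : ∀ x, ¬ P x → 1 / 2 + δ ≤ V.tot x)
    (hyes : ∀ x, P x → V.tot x ≤ 1 / 2 - δ) (hB : 1 ≤ B)
    (q : ℕ → ZMod 2) (g : Fin N → Option (Fin B × Fin n)) (cl : Fin N → ZMod 2 → A)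
    (henc : ∀ x, P (form g cl x) ↔ ∃ i, quad q (x i) = 1)
    (k d H T Γ a0 R L : ℕ) (κ : ℕ → ℝ) (hκ : ∀ a, 0 ≤ κ a)
    (hTP : ∀ a, a0 ≤ a → TP (fun y : Fin n → ZMod 2 => chi (quad q y)) a (κ a))
    (hread : ∀ x h, V.pr x h ≠ 0 → (∀ j, (h j).card ≤ d) ∧ ∑ j, (h j).card ≤ T ∧
      ∀ p, ∃ j, ∃ i ∈ h j, g i = some p)
    (h2a : 2 * a0 ≤ n) (ha0 : 1 ≤ a0)
    (hk : 1 ≤ k) (hH : 1 ≤ H) (hΓ : 2 ≤ Γ)
    (hrd : H * T ≤ k * n * B)
    (hL : 12 * k * H ≤ L) (hR : 200 * Γ * H * (2 * k + 1) ≤ R)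
    (hdn : 200 * H * k ^ 2 * d * (R ^ (L + 1)) ^ (2 * k) ≤ n)
    (ha : 8 * k * a0 * (R ^ (L + 1)) ^ (2 * k) ≤ n) (hHδ : 2 / δ ≤ H) :
    δ ≤ 4 * (2 * k * (W * dlt n Γ a0 κ)) := by
  classical
  have hn : 1 ≤ n := by omega
  set Z := univ.filter (fun y : Fin n → ZMod 2 => quad q y = 0) with hZ
  set O := univ.filter (fun y : Fin n → ZMod 2 => ¬ quad q y = 0) with hO
  have hZO : (Z.card : ℝ) + O.card = 2 ^ n := by
    have h1 := card_filter_add_card_filter_not (s := (univ : Finset (Fin n → ZMod 2)))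
      (fun y => quad q y = 0)
    rw [card_univ, Fintype.card_fun, Fintype.card_fin, ZMod.card] at h1
    exact_mod_cast h1
  have hZ0 : (0 : ℝ) < Z.card := by
    have : Z.Nonempty := by
      refine ⟨0, ?_⟩
      rw [hZ, mem_filter]
      refine ⟨mem_univ _, ?_⟩
      unfold quad
      refine sum_eq_zero fun i _ => sum_eq_zero fun j _ => ?_
      split_ifs
      · simp
      · rfl
    exact_mod_cast this.card_pos
  have hB0 : (0 : ℝ) < B := by exact_mod_cast hB
  have hH0 : (0 : ℝ) < H := by exact_mod_cast hH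
  have hL1 : 1 ≤ L := by
    have : 1 ≤ 12 * k * H := Nat.one_le_iff_ne_zero.2 (by positivity)
    omega
  have hR1 : 1 ≤ R := by
    have : 1 ≤ 200 * Γ * H * (2 * k + 1) := Nat.one_le_iff_ne_zero.2 (by positivity)
    omega
  have hL0 : (0 : ℝ) < L := by exact_mod_cast hL1
  have hdlt0 : 0 ≤ dlt n Γ a0 κ := sum_nonneg fun a _ => mul_nonneg (hκ a) (by positivity)
  obtain ⟨ε, hε⟩ : ∃ ε : ℝ, ε = 2 * k * (W * (dlt n Γ a0 κ * 2 ^ n)) := ⟨_, rfl⟩
  obtain ⟨Rf, hRf⟩ : ∃ Rf : Fin B → (Fin B → Fin n → ZMod 2) → ℝ, ∀ i x, Rf i x =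
      ∑ h : β → Finset (Fin N), V.pr (form g cl x) h *
        (theta (loc g i) k Γ a0 R L h / L) := ⟨_, fun _ _ => rfl⟩
  have hR1' : ∀ i x, Rf i x ≤ V.tot (form g cl x) := by
    intro i x
    rw [hRf]
    unfold tot
    refine sum_le_sum fun h _ => ?_
    refine mul_le_of_le_one_right (V.pr_nonneg _ h) ?_
    rw [div_le_one hL0]
    exact theta_le (loc g i) k Γ a0 R L hΓ ha0 h
  have hR2 : ∀ x, (1 - 2 / (H : ℝ)) * B * V.tot (form g cl x) ≤ ∑ i, Rf i x := by
    intro x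
    unfold tot
    rw [mul_sum]
    rw [sum_congr rfl fun i _ => hRf i x, sum_comm]
    refine sum_le_sum fun h _ => ?_
    rw [← mul_sum, mul_comm]
    by_cases h0 : V.pr (form g cl x) h = 0
    · rw [h0, zero_mul, zero_mul]
    · obtain ⟨r1, r2, r3⟩ := hread _ _ h0
      refine mul_le_mul_of_nonneg_left (sum_theta g d T k Γ a0 H R L hn hk hH (by omega) hrd
        hL hR hdn ha h r1 r2 fun i v => ?_) (V.pr_nonneg _ h)
      obtain ⟨j, a, ha1, ha2⟩ := r3 (i, v)
      refine ⟨j, ?_⟩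
      unfold Jof vs
      rw [mem_filter, mem_filter]
      exact ⟨mem_univ _, mem_univ _, a, ha1, (loc_iff g i a v).2 ha2⟩
  have hcorr : ∀ i x, ∑ y ∈ Z, Rf i (Function.update x i y) ≤
      ∑ y ∈ O, Rf i (Function.update x i y) + ε := by
    intro i x
    have h1 := V.corr_bound (loc g i) (fun y => form g cl (Function.update x i y))
      (fun y y' j h => form_local g cl x i y y' j h) Γ a0 k R L (by omega) hR1
      (fun y => chi (quad q y)) κ hκ hTP
    have h2 : ∀ y, (∑ h : β → Finset (Fin N),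
        V.pr (form g cl (Function.update x i y)) h *
          theta (loc g i) k Γ a0 R L h) = L * Rf i (Function.update x i y) := by
      intro y
      rw [hRf, mul_sum]
      refine sum_congr rfl fun h _ => ?_
      field_simp
    simp only [h2] at h1
    rw [sum_chi_split q (fun y => L * Rf i (Function.update x i y)), Complex.norm_real,
      Real.norm_eq_abs, ← mul_sum, ← mul_sum, ← mul_sub, abs_mul, abs_of_pos hL0] at h1
    have h3 := le_of_mul_le_mul_left h1 hL0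
    have h4 := le_abs_self (∑ y ∈ Z, Rf i (Function.update x i y) -
      ∑ y ∈ O, Rf i (Function.update x i y))
    have h5 : 2 * (k : ℝ) * ((∑ i, V.c i) * (dlt n Γ a0 κ * 2 ^ n)) ≤ ε := by
      rw [hε]
      apply mul_le_mul_of_nonneg_left _ (by positivity)
      exact mul_le_mul_of_nonneg_right hW (by positivity)
    linarith
  -- unsatisfiable and satisfiable inputs
  have hunsat : ∀ x ∈ Fintype.piFinset (fun _ : Fin B => Z),
      1 / 2 + δ ≤ V.tot (form g cl x) := by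
    intro x hx
    apply hno
    rw [henc]
    rintro ⟨i, hi⟩
    rw [Fintype.mem_piFinset] at hx
    have := hx i
    rw [hZ, mem_filter] at this
    rw [this.2] at hi
    exact zero_ne_one hi
  have hsat : ∀ i x, ∀ y ∈ O, V.tot (form g cl (Function.update x i y)) ≤ 1 / 2 - δ := by
    intro i x y hy
    apply hyes
    rw [henc]
    refine ⟨i, ?_⟩
    rw [Function.update_self]
    rw [hO, mem_filter] at hy
    exact (z2_cases _).resolve_left hy.2
  -- double counting
  set PB := Fintype.piFinset (fun _ : Fin B => Z) with hPB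
  have hPBc : (PB.card : ℝ) = (Z.card : ℝ) ^ B := by
    rw [hPB, Fintype.card_piFinset_const]
    push_cast
    rfl
  have hPB0 : (0 : ℝ) < PB.card := by rw [hPBc]; positivity
  have hlow : (PB.card : ℝ) * ((1 - 2 / (H : ℝ)) * B * (1 / 2 + δ)) ≤ ∑ x ∈ PB, ∑ i, Rf i x := by
    rw [← nsmul_eq_mul, ← sum_const]
    refine sum_le_sum fun x hx => le_trans ?_ (hR2 x)
    apply mul_le_mul_of_nonneg_left (hunsat x hx)
    apply mul_nonneg _ hB0.le
    have : 2 / (H : ℝ) ≤ δ := by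
      rw [div_le_iff₀ hH0]
      rw [div_le_iff₀ hδ] at hHδ
      linarith
    linarith
  have hupp : (Z.card : ℝ) * ∑ x ∈ PB, ∑ i, Rf i x ≤
      B * (PB.card * (O.card * (1 / 2 - δ) + ε)) := by
    rw [sum_comm, mul_sum]
    calc ∑ i, (Z.card : ℝ) * ∑ x ∈ PB, Rf i x
        = ∑ i, ∑ x ∈ PB, ∑ y ∈ Z, Rf i (Function.update x i y) :=
          sum_congr rfl fun i _ => (sum_update Z i (Rf i)).symm
      _ ≤ ∑ _i : Fin B, ∑ _x ∈ PB, ((O.card : ℝ) * (1 / 2 - δ) + ε) := by
          refine sum_le_sum fun i _ => sum_le_sum fun x _ => (hcorr i x).trans ?_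
          have : ∑ y ∈ O, Rf i (Function.update x i y) ≤ ∑ _y ∈ O, (1 / 2 - δ) :=
            sum_le_sum fun y hy => (hR1' i _).trans (hsat i x y hy)
          rw [sum_const, nsmul_eq_mul] at this
          linarith
      _ = _ := by
          rw [sum_const, sum_const, card_univ, Fintype.card_fin, nsmul_eq_mul, nsmul_eq_mul]
  have h1 : (Z.card : ℝ) * ((1 - 2 / (H : ℝ)) * (1 / 2 + δ)) ≤ O.card * (1 / 2 - δ) + ε := by
    have h2 : (B * PB.card : ℝ) * ((Z.card : ℝ) * ((1 - 2 / (H : ℝ)) * (1 / 2 + δ))) ≤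
        (B * PB.card : ℝ) * (O.card * (1 / 2 - δ) + ε) := by
      calc _ = (Z.card : ℝ) * ((PB.card : ℝ) * ((1 - 2 / (H : ℝ)) * B * (1 / 2 + δ))) := by ring
        _ ≤ (Z.card : ℝ) * ∑ x ∈ PB, ∑ i, Rf i x := mul_le_mul_of_nonneg_left hlow hZ0.le
        _ ≤ B * (PB.card * (O.card * (1 / 2 - δ) + ε)) := hupp
        _ = _ := by ring
    exact le_of_mul_le_mul_left h2 (by positivity)
  -- the two classes have almost the same size
  have hbal : (O.card : ℝ) - Z.card ≤ κ a0 * 2 ^ n := by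
    obtain ⟨S, hS, hSc⟩ := exists_subset_card_eq (s := (univ : Finset (Fin n)))
      (show a0 ≤ (univ : Finset (Fin n)).card by rw [card_univ, Fintype.card_fin]; omega)
    obtain ⟨S', hS', hSc'⟩ := exists_subset_card_eq (s := Sᶜ) (show a0 ≤ Sᶜ.card by
      rw [card_compl, Fintype.card_fin, hSc]; omega)
    have hd : Disjoint S S' := disjoint_of_subset_right hS' disjoint_compl_right
    have h2 := hTP a0 le_rfl S S' hd hSc.ge hSc'.ge (fun _ => 1) (fun _ => 1)
      (fun _ _ _ => rfl) (fun _ _ _ => rfl)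
    have h3 := sum_chi_split q (fun _ : Fin n → ZMod 2 => (1 : ℝ))
    have h4 : ∑ y : Fin n → ZMod 2, chi (quad q y) * ((1 : ℂ) * 1) =
        (((Z.card : ℝ) - O.card : ℝ) : ℂ) := by
      calc _ = ∑ y : Fin n → ZMod 2, chi (quad q y) * ((1 : ℝ) : ℂ) := by
            refine sum_congr rfl fun y _ => ?_
            push_cast; ring
        _ = _ := by
            rw [h3]
            simp only [sum_const, nsmul_eq_mul, mul_one]
            rfl
    rw [h4, Complex.norm_real, Real.norm_eq_abs] at h2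
    have h5 : ∑ _x : Fin n → ZMod 2, ‖(1 : ℂ)‖ ^ 2 = 2 ^ n := by
      simp [card_univ, Fintype.card_fun]
    rw [h5] at h2
    have h6 := neg_le_abs ((Z.card : ℝ) - O.card)
    have h7 : κ a0 * ((2 ^ n + 2 ^ n) / 2) = κ a0 * 2 ^ n := by ring
    linarith
  -- conclusion
  have hκd : κ a0 ≤ dlt n Γ a0 κ := by
    unfold dlt
    have h2 := single_le_sum (f := fun a => κ a * (vol n (a / Γ) : ℝ) ^ 2)
      (fun a _ => mul_nonneg (hκ a) (by positivity)) (mem_Icc.2 ⟨le_rfl, (by omega : a0 ≤ n)⟩)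
    refine le_trans ?_ h2
    have h3 : (1 : ℝ) ≤ vol n (a0 / Γ) := by
      have : 0 < vol n (a0 / Γ) := by
        unfold vol
        apply card_pos.2
        exact ⟨∅, by simp⟩
      exact_mod_cast this
    have h4 : (1 : ℝ) ≤ (vol n (a0 / Γ) : ℝ) ^ 2 := one_le_pow₀ h3
    nlinarith [hκ a0]
  have hκε : κ a0 * 2 ^ n ≤ ε := by
    rw [hε]
    have c2 : (1 : ℝ) ≤ k := by exact_mod_cast hk
    have c3 : κ a0 * 2 ^ n ≤ dlt n Γ a0 κ * 2 ^ n :=
      mul_le_mul_of_nonneg_right hκd (by positivity)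
    have c4 : 0 ≤ dlt n Γ a0 κ * 2 ^ n := by positivity
    calc κ a0 * 2 ^ n ≤ dlt n Γ a0 κ * 2 ^ n := c3
      _ = 1 * (1 * (dlt n Γ a0 κ * 2 ^ n)) := by ring
      _ ≤ 2 * k * (W * (dlt n Γ a0 κ * 2 ^ n)) := by
        apply mul_le_mul (by linarith) _ (by positivity) (by positivity)
        exact mul_le_mul_of_nonneg_right hW1 (by positivity)
  have hHδ2 : 2 / (H : ℝ) ≤ δ := by
    rw [div_le_iff₀ hH0]
    rw [div_le_iff₀ hδ] at hHδ
    linarith
  have hZn : (Z.card : ℝ) ≤ 2 ^ n := by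
    have : (0 : ℝ) ≤ O.card := Nat.cast_nonneg _
    linarith
  have h2 : δ * Z.card ≤ κ a0 * 2 ^ n / 2 + ε := by
    have e1 : (Z.card : ℝ) * ((1 - δ) * (1 / 2 + δ)) ≤
        (Z.card : ℝ) * ((1 - 2 / (H : ℝ)) * (1 / 2 + δ)) := by
      apply mul_le_mul_of_nonneg_left _ hZ0.le
      exact mul_le_mul_of_nonneg_right (by linarith) (by linarith)
    have e2 : (O.card : ℝ) * (1 / 2 - δ) ≤ (Z.card + κ a0 * 2 ^ n) * (1 / 2 - δ) := by
      apply mul_le_mul_of_nonneg_right _ (by linarith)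
      linarith
    have e3 : κ a0 * 2 ^ n * (1 / 2 - δ) ≤ κ a0 * 2 ^ n * (1 / 2) := by
      apply mul_le_mul_of_nonneg_left (by linarith)
      exact mul_nonneg (hκ a0) (by positivity)
    have e4 : δ * Z.card ≤ (Z.card : ℝ) * ((1 - δ) * (1 / 2 + δ)) - Z.card * (1 / 2 - δ) := by
      have : (Z.card : ℝ) * ((1 - δ) * (1 / 2 + δ)) - Z.card * (1 / 2 - δ) - δ * Z.card =
          Z.card * (δ * (1 / 2 - δ)) := by ring
      have h5 : 0 ≤ (Z.card : ℝ) * (δ * (1 / 2 - δ)) :=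
        mul_nonneg hZ0.le (mul_nonneg hδ.le (by linarith))
      linarith
    linarith
  have h3 : δ * 2 ^ n ≤ 4 * ε := by
    have e1 : (2 : ℝ) ^ n ≤ 2 * Z.card + κ a0 * 2 ^ n := by linarith
    have e2 : δ * 2 ^ n ≤ δ * (2 * Z.card + κ a0 * 2 ^ n) := mul_le_mul_of_nonneg_left e1 hδ.le
    have e3 : δ * (κ a0 * 2 ^ n) ≤ 1 * (κ a0 * 2 ^ n) :=
      mul_le_mul_of_nonneg_right (by linarith) (mul_nonneg (hκ a0) (by positivity))
    have e4 : δ * (2 * Z.card + κ a0 * 2 ^ n) = 2 * (δ * Z.card) + δ * (κ a0 * 2 ^ n) := by ring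
    linarith
  have h4 : δ * 2 ^ n ≤ (4 * (2 * k * (W * dlt n Γ a0 κ))) * 2 ^ n := by
    calc δ * 2 ^ n ≤ 4 * ε := h3
      _ = _ := by rw [hε]; ring
  exact le_of_mul_le_mul_right h4 (by positivity)

end QRS

end Pool.Agent.W107
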