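import Mathlib
import Pool.Agent.W107.Q.QCore
import Pool.Agent.W107.RandPar

/-!
# Distributed quantum computations: the choice of the parameters
-/

open Finset

namespace Pool.Agent.W107

open Pool.Agent.H774R2.QTS (chi quad ker two_party TP dlt vol vol_zero vol_le kappa_vol Jof)
open Pool.Agent.H774R2.QTS.Param (pcongr lin_le_pow)
open Pool.Agent.H774R2.QSAT (nz)
open Pool.Agent.H774R2.QBIT (form BitSat bit_enc exists_sparse rank_count)
open Pool.Agent.H774R2.QBIT.Param (mu mu_ge gamma_ge dlt_le TP_sq)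
open RS (exponents)

namespace QRS

variable {N : ℕ} {A β I : Type} [Fintype β] [DecidableEq β] [Fintype I] (V : QRS N A β I)

open Classical in
/-- Additional processors, each of which reads one fixed position. -/
noncomputable def dum {γ : Type} [Fintype γ] (ps : γ → Fin N) : QRS N A (β ⊕ γ) I where
  c := V.c
  w i j R x := match j with
    | Sum.inl j => V.w i j R x
    | Sum.inr e => if R = {ps e} then 1 else 0
  pr x h := if ∀ e, h (Sum.inr e) = {ps e} then V.pr x (fun j => h (Sum.inl j)) else 0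
  c_nonneg := V.c_nonneg
  pr_nonneg x h := by
    split_ifs
    · exact V.pr_nonneg _ _
    · exact le_rfl
  pr_eq x h := by
    have e1 : ∀ i, ∏ j : β ⊕ γ, (match j with
        | Sum.inl j => V.w i j (h (Sum.inl j)) x
        | Sum.inr e => if h (Sum.inr e) = {ps e} then (1 : ℂ) else 0) =
        (∏ j, V.w i j (h (Sum.inl j)) x) * (if ∀ e, h (Sum.inr e) = {ps e} then 1 else 0) := by
      intro i
      rw [Fintype.prod_sum_type]
      congr 1
      split_ifs with hh
      · exact prod_eq_one fun e _ => by simp only [hh e, if_true]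
      · push Not at hh
        obtain ⟨e, he⟩ := hh
        exact prod_eq_zero (mem_univ e) (by simp only [he, if_false])
    have e2 : ∀ i, ∏ j : β ⊕ γ, (match (motive := β ⊕ γ → ℂ) j with
        | Sum.inl j' => V.w i j' (h j) x
        | Sum.inr e => if h j = {ps e} then (1 : ℂ) else 0) =
        (∏ j, V.w i j (h (Sum.inl j)) x) * (if ∀ e, h (Sum.inr e) = {ps e} then 1 else 0) := by
      intro i
      rw [← e1 i]
      refine prod_congr rfl fun j _ => ?_
      rcases j with j | e <;> rfl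
    rw [sum_congr rfl fun i _ => by rw [e2 i]]
    split_ifs with hh
    · rw [V.pr_eq]
      refine sum_congr rfl fun i _ => ?_
      rw [mul_one]
    · simp
  local' := by
    rintro i (j | e) R x x' h
    · exact V.local' i j R x x' h
    · rfl
  norm := by
    rintro i (j | e) x
    · exact V.norm i j x
    · dsimp only
      have : ∀ R : Finset (Fin N), ‖(if R = {ps e} then (1 : ℂ) else 0)‖ =
          if R = {ps e} then (1 : ℝ) else 0 := by
        intro R; split_ifs <;> simp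
      rw [sum_congr rfl fun R _ => this R, sum_ite_eq' univ {ps e} (fun _ => (1 : ℝ))]
      simp

lemma dum_tot {γ : Type} [Fintype γ] [DecidableEq γ] (ps : γ → Fin N) (x : Fin N → A) :
    (V.dum ps).tot x = V.tot x := by
  classical
  unfold tot
  rw [← (Equiv.sumArrowEquivProdArrow β γ (Finset (Fin N))).symm.sum_comp, Fintype.sum_prod_type]
  refine sum_congr rfl fun h _ => ?_
  rw [sum_eq_single (fun e => {ps e})]
  · show (if ∀ e, (fun e => ({ps e} : Finset (Fin N))) e = {ps e} then V.pr x h else 0) = _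
    rw [if_pos fun _ => rfl]
  · intro h' _ hne
    show (if ∀ e, h' e = {ps e} then V.pr x h else 0) = _
    rw [if_neg]
    intro hh
    exact hne (funext hh)
  · intro hh; exact absurd (mem_univ _) hh

lemma dum_read {γ : Type} [Fintype γ] [DecidableEq γ] (ps : γ → Fin N) (x : Fin N → A)
    (h : β ⊕ γ → Finset (Fin N)) (h0 : (V.dum ps).pr x h ≠ 0) :
    (∀ e, h (Sum.inr e) = {ps e}) ∧ V.pr x (fun j => h (Sum.inl j)) ≠ 0 := by
  classical
  have h1 : (V.dum ps).pr x h = if ∀ e, h (Sum.inr e) = {ps e} then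
    V.pr x (fun j => h (Sum.inl j)) else 0 := rfl
  rw [h1] at h0
  by_cases hh : ∀ e, h (Sum.inr e) = {ps e}
  · rw [if_pos hh] at h0
    exact ⟨hh, h0⟩
  · rw [if_neg hh] at h0
    exact absurd rfl h0

/-- The finite contradiction. -/
theorem contra {m ℓ P d' T : ℕ} {β I : Type} [Fintype β] [DecidableEq β] [Fintype I]
    (V : QRS (m * (3 * (ℓ + 1))) Bool β I)
    (δ : ℝ) (hδ : 0 < δ) (hδ' : δ ≤ 1 / 2) (hW : ∑ i, V.c i ≤ 2 ^ P)
    (hno : ∀ x, ¬ BitSat m ℓ x → 1 / 2 + δ ≤ V.tot x)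
    (hyes : ∀ x, BitSat m ℓ x → V.tot x ≤ 1 / 2 - δ)
    (hread : ∀ x h, V.pr x h ≠ 0 → (∀ j, (h j).card ≤ d') ∧ ∑ j, (h j).card ≤ T)
    (hℓ : m ≤ 2 ^ ℓ)
    (H h k κ w : ℕ) (hH : 2 / δ ≤ H) (hHh : H ≤ 2 ^ h) (hk : 1 ≤ k) (hkκ : k ≤ 2 ^ κ)
    (hw : 2 * mu H h k κ + 4 * κ + h + 30 ≤ w)
    (hm : (P + d' + 1) * 2 ^ (5 * w) ≤ m) (hT : 32 * H * (T + w * m) ≤ k * w * m) : False := by
  classical
  have hHpos : 1 ≤ H := by
    have h1 : (0 : ℝ) < H := lt_of_lt_of_le (by positivity) hH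
    exact_mod_cast h1
  obtain ⟨S, hS'⟩ : ∃ S, S = P + d' + 1 := ⟨_, rfl⟩
  rw [← hS'] at hm
  have hS : 1 ≤ S := by omega
  obtain ⟨μ, hμ⟩ : ∃ μ, μ = mu H h k κ := ⟨_, rfl⟩
  rw [← hμ] at hw
  have hμge : 26 * (5 * (κ + h) + 50) ≤ μ := by
    rw [hμ]; exact mu_ge H h k κ hk hHpos
  have hm1 : 2 ^ (5 * w) ≤ m := (Nat.le_mul_of_pos_left _ hS).trans hm
  have hm0 : m ≠ 0 := by
    have : 0 < 2 ^ (5 * w) := by positivity
    omega
  have hlog : 5 * w ≤ Nat.log 2 m := Nat.le_log_of_pow_le (by norm_num) hm1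
  obtain ⟨β', hβ⟩ : ∃ β', Nat.log 2 m = β' + (2 * w + 4) := ⟨Nat.log 2 m - (2 * w + 4), by omega⟩
  have hβ1 : 3 * w ≤ β' + 4 := by omega
  obtain ⟨b, hb⟩ : ∃ b, b = 2 ^ β' := ⟨_, rfl⟩
  have hbm : b * 2 ^ (2 * w + 4) ≤ m := by
    rw [hb, ← pow_add, ← hβ]
    exact Nat.pow_log_le_self 2 hm0
  have hmb : m < b * 2 ^ (2 * w + 5) := by
    have := Nat.lt_pow_succ_log_self (b := 2) (by norm_num) m
    rw [hβ] at this
    rw [hb, ← pow_add]
    calc m < 2 ^ (β' + (2 * w + 4) + 1) := this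
      _ = _ := pcongr (by omega)
  -- S is small compared to b
  have hSb : S * 2 ^ (3 * w - 5) ≤ b := by
    have h1 : S * 2 ^ (3 * w - 5) * 2 ^ (2 * w + 5) ≤ b * 2 ^ (2 * w + 5) := by
      calc S * 2 ^ (3 * w - 5) * 2 ^ (2 * w + 5) = S * 2 ^ (5 * w) := by
            rw [mul_assoc, ← pow_add]
            rw [pcongr (show 3 * w - 5 + (2 * w + 5) = 5 * w by omega)]
        _ ≤ m := hm
        _ ≤ _ := hmb.le
    exact Nat.le_of_mul_le_mul_right h1 (by positivity)
  have hw1 : 1 ≤ w := by omega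
  have hb1 : 1 ≤ b := by rw [hb]; exact Nat.one_le_two_pow
  -- the exponents
  obtain ⟨α, hα⟩ : ∃ α, α = μ + κ + 3 := ⟨_, rfl⟩
  obtain ⟨η, hη⟩ : ∃ η, η = μ + 2 * κ + h + 8 := ⟨_, rfl⟩
  have hαη : α + η + κ + 19 ≤ w := by omega
  obtain ⟨a1, ha1⟩ : ∃ a1, a1 = 2 ^ (β' - α) := ⟨_, rfl⟩
  obtain ⟨d1, hd1⟩ : ∃ d1, d1 = 2 ^ (β' - η) := ⟨_, rfl⟩
  obtain ⟨M1, hM1⟩ : ∃ M1, M1 = 2 ^ (β' - (α + 4 + μ)) := ⟨_, rfl⟩
  have hba : b = a1 * 2 ^ α := by
    rw [hb, ha1, ← pow_add]; exact pcongr (by omega)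
  have hbd : b = d1 * 2 ^ η := by
    rw [hb, hd1, ← pow_add]; exact pcongr (by omega)
  have hbM : b = M1 * 2 ^ (α + 4 + μ) := by
    rw [hb, hM1, ← pow_add]; exact pcongr (by omega)
  have haM : a1 = M1 * 2 ^ (4 + μ) := by
    rw [ha1, hM1, ← pow_add]; exact pcongr (by omega)
  have hM1pos : 1 ≤ M1 := by rw [hM1]; exact Nat.one_le_two_pow
  have hd1pos : 1 ≤ d1 := by rw [hd1]; exact Nat.one_le_two_pow
  have ha1pos : 1 ≤ a1 := by rw [ha1]; exact Nat.one_le_two_pow
  obtain ⟨n, hn⟩ : ∃ n, n = b * w := ⟨_, rfl⟩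
  obtain ⟨a0, ha0⟩ : ∃ a0, a0 = a1 * w := ⟨_, rfl⟩
  obtain ⟨d, hd⟩ : ∃ d, d = d1 * w := ⟨_, rfl⟩
  obtain ⟨M2, hM2⟩ : ∃ M2, M2 = M1 * w := ⟨_, rfl⟩
  have hna : n = a0 * 2 ^ α := by rw [hn, ha0, hba]; ring
  have hnd : n = d * 2 ^ η := by rw [hn, hd, hbd]; ring
  have hnM : n = M2 * 2 ^ (α + 4 + μ) := by rw [hn, hM2, hbM]; ring
  have haM2 : a0 = M2 * 2 ^ (4 + μ) := by rw [ha0, hM2, haM]; ring
  have hd0 : 1 ≤ d := by rw [hd]; exact Nat.one_le_iff_ne_zero.2 (by positivity)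
  have hM20 : 2 ≤ M2 := by
    rw [hM2]
    calc 2 ≤ 1 * w := by omega
      _ ≤ M1 * w := Nat.mul_le_mul_right _ hM1pos
  have ha0w : w ≤ a0 := by
    rw [ha0]; exact Nat.le_mul_of_pos_left _ ha1pos
  -- the reads of one processor
  have hd'd : d' ≤ d := by
    have h1 : S * 2 ^ η ≤ d1 * 2 ^ η := by
      rw [← hbd]
      refine le_trans ?_ hSb
      exact Nat.mul_le_mul_left _ (Nat.pow_le_pow_right (by norm_num) (by omega))
    have h2 : S ≤ d1 := Nat.le_of_mul_le_mul_right h1 (by positivity)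
    calc d' ≤ S := by omega
      _ ≤ d1 := h2
      _ ≤ d := by rw [hd]; exact Nat.le_mul_of_pos_right _ (by omega)
  -- the sparse form
  obtain ⟨q, hq1, hq2⟩ := exists_sparse rank_count n a0 M2 (α + 2) hM20 (by omega)
    (by
      have h1 : α + 2 + 1 ≤ 2 ^ μ := by
        have : μ < 2 ^ (μ - 1 + 1) := by
          rw [pcongr (show μ - 1 + 1 = μ by omega)]
          exact Nat.lt_two_pow_self
        have h2 : μ - 1 < 2 ^ (μ - 1) := Nat.lt_two_pow_self
        have h3 : 2 ^ μ = 2 ^ (μ - 1) * 2 := by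
          rw [← pow_succ]; exact pcongr (by omega)
        omega
      calc 16 * M2 * (α + 2 + 1) ≤ 16 * M2 * 2 ^ μ := Nat.mul_le_mul_left _ h1
        _ = a0 := by rw [haM2, pow_add]; ring)
    (by
      apply le_of_eq
      rw [hna, pow_add]; ring)
  -- the number of nonzero coefficients
  obtain ⟨P', hP⟩ : ∃ P', P' = n * 2 ^ (α + 4 + μ) := ⟨_, rfl⟩
  have hnzP : (nz n q).card ≤ P' := by
    have h1 : (nz n q).card * M2 ≤ P' * M2 := by
      calc (nz n q).card * M2 ≤ n ^ 2 := hq1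
        _ = n * n := sq n
        _ = n * (M2 * 2 ^ (α + 4 + μ)) := by rw [← hnM]
        _ = P' * M2 := by rw [hP]; ring
    exact Nat.le_of_mul_le_mul_right h1 (by omega)
  -- the number of blocks
  obtain ⟨B, hB⟩ : ∃ B, B = m / (8 * b) := ⟨_, rfl⟩
  have hBb : 8 * (B * b) ≤ m := by
    calc 8 * (B * b) = m / (8 * b) * (8 * b) := by rw [hB]; ring
      _ ≤ m := Nat.div_mul_le_self _ _
  have h16b : 16 * b ≤ m := by
    calc 16 * b = b * 2 ^ 4 := by ring
      _ ≤ b * 2 ^ (2 * w + 4) := by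
        apply Nat.mul_le_mul_left
        exact Nat.pow_le_pow_right (by norm_num) (by omega)
      _ ≤ m := hbm
  have hBb' : m ≤ 16 * (B * b) := by
    have h1 : m < 8 * b * (m / (8 * b)) + 8 * b := by
      have := Nat.div_add_mod m (8 * b)
      have := Nat.mod_lt m (show 0 < 8 * b by omega)
      omega
    rw [← hB] at h1
    have h2 : 8 * b * B = 8 * (B * b) := by ring
    rw [h2] at h1
    omega
  have hB1 : 1 ≤ B := by
    rw [hB, Nat.one_le_div_iff (by omega)]
    omega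
  -- the encoding
  have hw2 : w ≤ 2 ^ w := Nat.lt_two_pow_self.le
  have hb8 : 32 ≤ b := by
    rw [hb]
    calc 32 = 2 ^ 5 := by norm_num
      _ ≤ 2 ^ β' := Nat.pow_le_pow_right (by norm_num) (by omega)
  obtain ⟨g, cl, hg, henc⟩ := bit_enc b w B P' m ℓ q hb1 hw1 hB1 (by rw [← hn]; exact hnzP)
    (by
      have e1 : 64 * P' ≤ m := by
        calc 64 * P' = 64 * (b * w * 2 ^ (2 * μ + κ + 7)) := by
              rw [hP, hn, pcongr (show α + 4 + μ = 2 * μ + κ + 7 by omega)]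
          _ ≤ 64 * (b * 2 ^ w * 2 ^ (w - 16)) := by
              apply Nat.mul_le_mul_left
              apply Nat.mul_le_mul
              · exact Nat.mul_le_mul_left _ hw2
              · exact Nat.pow_le_pow_right (by norm_num) (by omega)
          _ = b * (2 ^ w * 2 ^ (w - 16) * 2 ^ 6) := by ring
          _ = b * 2 ^ (2 * w - 10) := by
              rw [← pow_add, ← pow_add, pcongr (show w + (w - 16) + 6 = 2 * w - 10 by omega)]
          _ ≤ b * 2 ^ (2 * w + 4) := by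
              apply Nat.mul_le_mul_left
              exact Nat.pow_le_pow_right (by norm_num) (by omega)
          _ ≤ m := hbm
      have e2 : 16 * (b * w * 2 ^ w) ≤ m := by
        calc 16 * (b * w * 2 ^ w) ≤ 16 * (b * 2 ^ w * 2 ^ w) := by
              apply Nat.mul_le_mul_left
              apply Nat.mul_le_mul_right
              exact Nat.mul_le_mul_left _ hw2
          _ = b * (2 ^ w * 2 ^ w * 2 ^ 4) := by ring
          _ = b * 2 ^ (2 * w + 4) := by
              rw [← pow_add, ← pow_add, pcongr (show w + w + 4 = 2 * w + 4 by omega)]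
          _ ≤ m := hbm
      have e3 : b * w ≤ b * w * 2 ^ w := Nat.le_mul_of_pos_right _ (by positivity)
      have e4 : 4 * B ≤ B * b := by
        calc 4 * B = B * 4 := by ring
          _ ≤ B * b := Nat.mul_le_mul_left _ (by omega)
      omega) hℓ
  -- n
  have hgn : ∃ (g' : Fin (m * (3 * (ℓ + 1))) → Option (Fin B × Fin n))
      (cl' : Fin (m * (3 * (ℓ + 1))) → ZMod 2 → Bool), (∀ p, ∃ j, g' j = some p) ∧
      ∀ x : Fin B → Fin n → ZMod 2, BitSat m ℓ (form g' cl' x) ↔ ∃ i, quad q (x i) = 1 := by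
    subst hn
    exact ⟨g, cl, hg, henc⟩
  obtain ⟨g', cl', hg', henc'⟩ := hgn
  -- the parameters of the levels
  obtain ⟨γ, hγ⟩ : ∃ γ, γ = 4 * (κ + h) + 40 := ⟨_, rfl⟩
  obtain ⟨Γ, hΓ⟩ : ∃ Γ, Γ = 2 ^ γ := ⟨_, rfl⟩
  obtain ⟨ρ, hρ⟩ : ∃ ρ, ρ = 5 * (κ + h) + 50 := ⟨_, rfl⟩
  obtain ⟨R, hR⟩ : ∃ R, R = 2 ^ ρ := ⟨_, rfl⟩
  obtain ⟨L, hL⟩ : ∃ L, L = 12 * k * H := ⟨_, rfl⟩
  have hRM : (R ^ (L + 1)) ^ (2 * k) = 2 ^ μ := by
    have e : ρ * ((L + 1) * (2 * k)) = μ := by rw [hμ, hL, hρ]; unfold mu; ring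
    rw [hR, ← pow_mul, ← pow_mul]
    exact pcongr e
  have hΓτ : 8192 * (α + γ + 3) ≤ Γ := by
    have := gamma_ge H h k κ hk hHpos hkκ hHh
    rw [← hμ, ← hγ, ← hΓ] at this
    calc 8192 * (α + γ + 3) = 8192 * (μ + γ + κ + 6) := by rw [hα]; ring
      _ ≤ Γ := this
  have hΓ1 : 2 ≤ Γ := by omega
  -- the number of reads
  obtain ⟨T', hT'⟩ : ∃ T', T' = T + B * n := ⟨_, rfl⟩
  have hr2 : H * T' ≤ k * n * B := by
    have h3 : B * n = w * (B * b) := by rw [hn]; ring
    have h4 : B * n ≤ w * m := by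
      rw [h3]
      exact Nat.mul_le_mul_left _ (by omega)
    have h5 : 32 * (H * T') ≤ 32 * (k * n * B) := by
      calc 32 * (H * T') ≤ 32 * (H * (T + w * m)) := by
            apply Nat.mul_le_mul_left
            apply Nat.mul_le_mul_left
            omega
        _ = 32 * H * (T + w * m) := by ring
        _ ≤ k * w * m := hT
        _ ≤ k * w * (16 * (B * b)) := Nat.mul_le_mul_left _ hBb'
        _ = 16 * (k * n * B) := by rw [hn]; ring
        _ ≤ 32 * (k * n * B) := Nat.mul_le_mul_right _ (by norm_num)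
    exact Nat.le_of_mul_le_mul_left h5 (by norm_num)
  -- the main inequality
  have ha016 : 16 ≤ a0 := by omega
  have h2a : 2 * a0 ≤ n := by
    rw [hna, mul_comm]
    apply Nat.mul_le_mul_left
    calc 2 = 2 ^ 1 := by norm_num
      _ ≤ 2 ^ α := Nat.pow_le_pow_right (by norm_num) (by omega)
  have hH200 : 200 ≤ 2 ^ 8 := by norm_num
  choose ps hps using hg'
  have key := finite_main (V.dum ps) (2 ^ P) δ hδ hδ' hW (one_le_pow₀ (by norm_num))
    (BitSat m ℓ) (fun x hx => by rw [dum_tot]; exact hno x hx)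
    (fun x hx => by rw [dum_tot]; exact hyes x hx) hB1 q g' cl' henc'
    k d H T' Γ a0 R L (fun a => Real.sqrt (2 ^ ((a + 1) / 2) / 2 ^ a))
    (fun a => Real.sqrt_nonneg _)
    (fun a ha => TP_sq q a ((a + 1) / 2) (hq2 a ha)) (by
      intro x hh hne
      obtain ⟨r1, r2⟩ := V.dum_read ps x hh hne
      obtain ⟨r3, r4⟩ := hread _ _ r2
      refine ⟨?_, ?_, ?_⟩
      · rintro (j | e)
        · exact (r3 j).trans hd'd
        · rw [r1 e, card_singleton]; exact hd0
      · rw [Fintype.sum_sum_type]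
        have h1 : ∑ e : Fin B × Fin n, (hh (Sum.inr e)).card = B * n := by
          rw [sum_congr rfl fun e _ => by rw [r1 e, card_singleton], sum_const, card_univ,
            Fintype.card_prod, Fintype.card_fin, Fintype.card_fin]
          simp
        rw [h1, hT']
        omega
      · intro p
        refine ⟨Sum.inr p, ps p, ?_, hps p⟩
        rw [r1 p, mem_singleton])
    h2a (by omega) hk hHpos hΓ1 hr2
    (by rw [hL])
    (by
      calc 200 * Γ * H * (2 * k + 1) ≤ 200 * Γ * 2 ^ h * (3 * 2 ^ κ) := by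
            apply Nat.mul_le_mul
            · exact Nat.mul_le_mul_left _ hHh
            · omega
        _ = 600 * (Γ * 2 ^ h * 2 ^ κ) := by ring
        _ ≤ 2 ^ 10 * (2 ^ γ * 2 ^ h * 2 ^ κ) := by
          rw [← hΓ]; exact Nat.mul_le_mul_right _ (by norm_num)
        _ = R := by
          rw [hR, ← pow_add, ← pow_add, ← pow_add]
          exact pcongr (by omega))
    (by
      rw [hRM]
      calc 200 * H * k ^ 2 * d * 2 ^ μ ≤ 2 ^ 8 * 2 ^ h * (2 ^ κ) ^ 2 * d * 2 ^ μ := by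
            apply Nat.mul_le_mul_right
            apply Nat.mul_le_mul_right
            apply Nat.mul_le_mul
            · exact Nat.mul_le_mul hH200 hHh
            · exact Nat.pow_le_pow_left hkκ 2
        _ = d * (2 ^ 8 * 2 ^ h * 2 ^ (κ * 2) * 2 ^ μ) := by rw [← pow_mul]; ring
        _ = d * 2 ^ η := by
            rw [← pow_add, ← pow_add, ← pow_add,
              pcongr (show 8 + h + κ * 2 + μ = η by omega)]
        _ = n := hnd.symm)
    (by
      rw [hRM]
      calc 8 * k * a0 * 2 ^ μ ≤ 2 ^ 3 * 2 ^ κ * a0 * 2 ^ μ := by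
            apply Nat.mul_le_mul_right
            apply Nat.mul_le_mul_right
            exact Nat.mul_le_mul (by norm_num) hkκ
        _ = a0 * (2 ^ 3 * 2 ^ κ * 2 ^ μ) := by ring
        _ = a0 * 2 ^ α := by
            rw [← pow_add, ← pow_add, pcongr (show 3 + κ + μ = α by omega)]
        _ = n := hna.symm) hH
  have hdl := dlt_le n a0 Γ (α + γ + 3) (by omega) hΓτ (by
    apply le_of_eq
    rw [hna, hΓ, pow_add 2 (α + γ) 3, pow_add 2 α γ]; ring) ha016
  have hν : n + 1 ≤ 2 ^ (β' + w) := by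
    have : n < 2 ^ (β' + w) := by
      rw [hn, hb, pow_add]
      exact Nat.mul_lt_mul_of_pos_left Nat.lt_two_pow_self (by positivity)
    exact this
  have hE := exponents P k n κ (β' + w) H h (a0 / 32) δ _ hδ hH hHh hkκ hν hdl key
  -- contradiction
  have hSr : P * 1024 ≤ a1 := by
    have h2 : P * 1024 * 2 ^ α ≤ a1 * 2 ^ α := by
      calc P * 1024 * 2 ^ α ≤ S * 1024 * 2 ^ α := by
            apply Nat.mul_le_mul_right
            apply Nat.mul_le_mul_right
            omega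
        _ = S * 2 ^ (10 + α) := by rw [pow_add]; ring
        _ ≤ S * 2 ^ (3 * w - 5) := by
          apply Nat.mul_le_mul_left
          exact Nat.pow_le_pow_right (by norm_num) (by omega)
        _ ≤ b := hSb
        _ = a1 * 2 ^ α := hba
    exact Nat.le_of_mul_le_mul_right h2 (by positivity)
  have hbig : 64 * (β' + 3 * w) ≤ a1 := by
    have h1 : β' + 3 * w ≤ 4 * (β' - α) + 16 := by omega
    have h2 : β' - α ≥ 50 := by omega
    have h3 : ∀ u : ℕ, 50 ≤ u → 64 * (4 * u + 16) ≤ 2 ^ u := by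
      intro u hu
      induction u, hu using Nat.le_induction with
      | base => norm_num
      | succ u hu ih => rw [pow_succ]; omega
    rw [ha1]
    exact (Nat.mul_le_mul_left _ h1).trans (h3 _ h2)
  have ha0a1 : 30 * a1 ≤ a0 := by
    rw [ha0]
    calc 30 * a1 = a1 * 30 := by ring
      _ ≤ a1 * w := Nat.mul_le_mul_left _ (by omega)
  have hdiv : a0 < 32 * (a0 / 32) + 32 := by
    have := Nat.div_add_mod a0 32
    have := Nat.mod_lt a0 (show 0 < 32 by norm_num)
    omega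
  omega

end QRS

end Pool.Agent.W107
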