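import Mathlib
import Pool.Agent.W107.Q.Norm3
import Pool.Agent.W107.Q.QPar

/-!
# Quantum machines with paged memory as families of distributed computations
-/

open Finset

namespace Pool.Agent.W107

open PagedMachine (ext)
open Pool.Agent.W107.Seq (sq sq_lt reg vec stepv path_sum norm_sum)

namespace QP

variable {N : ℕ} {A Z Q P Γ ι M : Type} [DecidableEq P] [DecidableEq ι] (B : QP N A Z Q P Γ ι M)

/-- The position. -/
def gz (ν : ℕ → M) : ℕ → Z
  | 0 => B.z0
  | t + 1 => B.nz t (ν t) (gz ν t)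

/-- One step of the computation on one side. -/
def gf (z : Z) (y : Q × (P → ι → Γ)) (k : Q × Γ) : Q × (P → ι → Γ) :=
  (k.1, Function.update y.2 (B.page z) (Function.update (y.2 (B.page z)) (B.cell z) k.2))

/-- The weight of one step of the computation on one side. -/
def gg (x : Fin N → A) (t : ℕ) (z : Z) (v : M) (y : Q × (P → ι → Γ)) (k : Q × Γ) : ℂ :=
  B.K t v (x (B.pos t v)) k (y.1, y.2 (B.page z) (B.cell z))

/-- The computation on one side. -/
def gr (ν : ℕ → M) (k : ℕ → Q × Γ) (t : ℕ) : Q × (P → ι → Γ) :=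
  reg (fun s y k => B.gf (B.gz ν s) y k) (B.start, fun _ _ => B.blank) k t

lemma gr_succ (ν : ℕ → M) (k : ℕ → Q × Γ) (t : ℕ) :
    B.gr ν k (t + 1) = B.gf (B.gz ν t) (B.gr ν k t) (k t) := rfl

/-- The whole computation consists of the two sides. -/
lemma run_eq (u : ℕ → M × (Q × Γ) × (Q × Γ)) (t : ℕ) : (B.wm.det u).run (fun _ => false) t =
    ((((B.gr (fun t => (u t).1) (fun t => (u t).2.1) t).1,
      (B.gr (fun t => (u t).1) (fun t => (u t).2.2) t).1), B.gz (fun t => (u t).1) t),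
    fun p r => ((B.gr (fun t => (u t).1) (fun t => (u t).2.1) t).2 p r,
      (B.gr (fun t => (u t).1) (fun t => (u t).2.2) t).2 p r)) := by
  induction t with
  | zero => rfl
  | succ t ih =>
    rw [DetPaged.run, ih, gr_succ, gr_succ]
    unfold gf
    apply Prod.ext
    · rfl
    · funext p r
      show (Function.update _ _ _ : P → ι → Γ × Γ) p r = _
      by_cases hp : p = B.page (B.gz (fun t => (u t).1) t)
      · subst hp
        have e1 : (B.wm.det u).page ((((B.gr (fun t => (u t).1) (fun t => (u t).2.1) t).1,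
          (B.gr (fun t => (u t).1) (fun t => (u t).2.2) t).1), B.gz (fun t => (u t).1) t)) =
          B.page (B.gz (fun t => (u t).1) t) := rfl
        simp only [e1, Function.update_self]
        show (Function.update (fun r =>
            ((B.gr (fun t => (u t).1) (fun t => (u t).2.1) t).2
              (B.page (B.gz (fun t => (u t).1) t)) r,
              (B.gr (fun t => (u t).1) (fun t => (u t).2.2) t).2
              (B.page (B.gz (fun t => (u t).1) t)) r))
          (B.cell (B.gz (fun t => (u t).1) t)) ((u t).2.1.2, (u t).2.2.2) : ι → Γ × Γ) r = _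
        by_cases hr : r = B.cell (B.gz (fun t => (u t).1) t)
        · subst hr
          simp only [Function.update_self]
        · simp only [Function.update_of_ne hr]
      · have e1 : p ≠ (B.wm.det u).page ((((B.gr (fun t => (u t).1)
          (fun t => (u t).2.1) t).1, (B.gr (fun t => (u t).1) (fun t => (u t).2.2) t).1),
          B.gz (fun t => (u t).1) t)) := hp
        simp only [Function.update_of_ne hp, Function.update_of_ne e1]

/-- The positions read by a processor. -/
def rdv (T τ : ℕ) (j : P × Fin (T + 1)) (ν : ℕ → M) : Finset (Fin N) :=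
  (piece (fun t => some (B.page (B.gz ν t))) T τ (some j.1) j.2.val).image
    fun t => B.pos t (ν t)

lemma rdg_eq (T τ : ℕ) (j : P × Fin (T + 1)) (u : ℕ → M × (Q × Γ) × (Q × Γ)) :
    B.wm.rdg T τ j u = B.rdv T τ j (fun t => (u t).1) := by
  unfold WM.rdg rdv
  have : (fun t => some (B.wm.page ((B.wm.det u).qs (fun _ => false) t))) =
      fun t => some (B.page (B.gz (fun t => (u t).1) t)) := by
    funext t
    unfold DetPaged.qs
    rw [B.run_eq]
    rfl
  rw [this]
  rfl

/-- The number of changes of the page is small. -/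
def few (T F : ℕ) (ν : ℕ → M) : Prop :=
  {t | t < T ∧ B.page (B.gz ν (t + 1)) ≠ B.page (B.gz ν t)}.ncard ≤ F

lemma acc_iff (T F : ℕ) (u : ℕ → M × (Q × Γ) × (Q × Γ)) :
    ((B.wm.det u).Acc T F (fun _ => false) ∧
      ∀ p, fin ((B.wm.det u).mem (fun _ => false) T p)) ↔
    B.few T F (fun t => (u t).1) ∧ B.acc (B.gr (fun t => (u t).1) (fun t => (u t).2.1) T).1 ∧
      B.gr (fun t => (u t).1) (fun t => (u t).2.1) T =
      B.gr (fun t => (u t).1) (fun t => (u t).2.2) T := by
  have h1 : ∀ t, (B.wm.det u).page ((B.wm.det u).qs (fun _ => false) t) =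
      B.page (B.gz (fun t => (u t).1) t) := by
    intro t
    unfold DetPaged.qs
    rw [B.run_eq]
    rfl
  unfold DetPaged.Acc few
  simp only [h1]
  have h2 : (B.wm.det u).acc ((B.wm.det u).qs (fun _ => false) T) ↔
      (B.gr (fun t => (u t).1) (fun t => (u t).2.1) T).1 =
      (B.gr (fun t => (u t).1) (fun t => (u t).2.2) T).1 ∧
      B.acc (B.gr (fun t => (u t).1) (fun t => (u t).2.1) T).1 := by
    unfold DetPaged.qs
    rw [B.run_eq]
    rfl
  have h3 : (∀ p, fin ((B.wm.det u).mem (fun _ => false) T p)) ↔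
      (B.gr (fun t => (u t).1) (fun t => (u t).2.1) T).2 =
      (B.gr (fun t => (u t).1) (fun t => (u t).2.2) T).2 := by
    unfold DetPaged.mem fin
    rw [B.run_eq]
    constructor
    · intro h; funext p r; exact h p r
    · intro h p r; exact congrFun (congrFun h p) r
  rw [h2, h3]
  constructor
  · rintro ⟨⟨⟨a1, a2⟩, a3⟩, a4⟩
    exact ⟨a3, a2, Prod.ext a1 a4⟩
  · rintro ⟨a1, a2, a3⟩
    exact ⟨⟨⟨by rw [a3], a2⟩, a1⟩, by rw [a3]⟩

variable [Fintype P] [Fintype Q] [Fintype Γ] [Fintype ι] [Fintype M]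

open Classical in
/-- The probability of a sequence of outcomes followed by acceptance. -/
noncomputable def pv (T : ℕ) (x : Fin N → A) (ν : ℕ → M) : ℝ :=
  ∑ y, if B.acc y.1 then ‖vec (fun s y k => B.gf (B.gz ν s) y k)
    (fun s => B.gg x s (B.gz ν s) (ν s)) (B.start, fun _ _ => B.blank) T y‖ ^ 2 else 0

lemma pv_nonneg (T : ℕ) (x : Fin N → A) (ν : ℕ → M) : 0 ≤ B.pv T x ν := by
  unfold pv
  refine sum_nonneg fun y _ => ?_
  split_ifs
  · positivity
  · exact le_rfl

variable [Inhabited M] [Inhabited Q] [Inhabited Γ]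

open Classical in
/-- The probability as a sum over pairs of paths. -/
lemma pv_eq (T : ℕ) (x : Fin N → A) (ν : ℕ → M) : (B.pv T x ν : ℂ) =
    ∑ k : Fin T → Q × Γ, ∑ b : Fin T → Q × Γ,
      if B.acc (B.gr ν (sq k) T).1 ∧ B.gr ν (sq k) T = B.gr ν (sq b) T then
        (∏ t ∈ range T, B.gg x t (B.gz ν t) (ν t) (B.gr ν (sq k) t) (sq k t)) *
        star (∏ t ∈ range T, B.gg x t (B.gz ν t) (ν t) (B.gr ν (sq b) t) (sq b t)) else 0 := by
  obtain ⟨V, hV⟩ : ∃ V, V = vec (fun s y k => B.gf (B.gz ν s) y k)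
    (fun s => B.gg x s (B.gz ν s) (ν s)) (B.start, fun _ _ => B.blank) T := ⟨_, rfl⟩
  have hps : ∀ y, V y = ∑ k : Fin T → Q × Γ, if B.gr ν (sq k) T = y then
      ∏ t ∈ range T, B.gg x t (B.gz ν t) (ν t) (B.gr ν (sq k) t) (sq k t) else 0 := by
    intro y
    rw [hV]
    have := path_sum (V := Q × Γ) (fun s y k => B.gf (B.gz ν s) y k)
      (fun s => B.gg x s (B.gz ν s) (ν s)) (B.start, fun _ _ => B.blank) y T
    refine this.symm.trans (sum_congr rfl fun k _ => ?_)
    by_cases h : B.gr ν (sq k) T = y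
    · rw [if_pos h]
      exact if_pos h
    · rw [if_neg h]
      exact if_neg h
  have key := pair_sum (fun k : Fin T → Q × Γ => B.gr ν (sq k) T)
    (fun k : Fin T → Q × Γ => B.gr ν (sq k) T)
    (fun k => if B.acc (B.gr ν (sq k) T).1 then
      ∏ t ∈ range T, B.gg x t (B.gz ν t) (ν t) (B.gr ν (sq k) t) (sq k t) else 0)
    (fun k => if B.acc (B.gr ν (sq k) T).1 then
      ∏ t ∈ range T, B.gg x t (B.gz ν t) (ν t) (B.gr ν (sq k) t) (sq k t) else 0)
    (fun y y' => y = y') (fun y => if B.acc y.1 then V y else 0)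
    (fun y => if B.acc y.1 then V y else 0) (by
      intro y
      rw [hps y]
      by_cases hy : B.acc y.1
      · rw [if_pos hy]
        refine sum_congr rfl fun k _ => ?_
        by_cases h : B.gr ν (sq k) T = y
        · rw [if_pos h, if_pos h, h, if_pos hy]
        · rw [if_neg h, if_neg h]
      · rw [if_neg hy]
        symm
        refine sum_eq_zero fun k _ => ?_
        by_cases h : B.gr ν (sq k) T = y
        · rw [if_pos h, h, if_neg hy]
        · rw [if_neg h]) (by
      intro y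
      rw [hps y]
      by_cases hy : B.acc y.1
      · rw [if_pos hy]
        refine sum_congr rfl fun k _ => ?_
        by_cases h : B.gr ν (sq k) T = y
        · rw [if_pos h, if_pos h, h, if_pos hy]
        · rw [if_neg h, if_neg h]
      · rw [if_neg hy]
        symm
        refine sum_eq_zero fun k _ => ?_
        by_cases h : B.gr ν (sq k) T = y
        · rw [if_pos h, h, if_neg hy]
        · rw [if_neg h]) (fun _ => True) (fun y h => absurd trivial h)
    (fun y h => absurd trivial h) (fun y => rfl) (fun y y' _ _ h => h)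
  have e1 : (B.pv T x ν : ℂ) = ∑ y, (if B.acc y.1 then V y else 0) *
      star (if B.acc y.1 then V y else 0) := by
    unfold pv
    rw [← hV]
    push_cast
    refine sum_congr rfl fun y _ => ?_
    by_cases hy : B.acc y.1
    · rw [if_pos hy, if_pos hy, Complex.star_def, Complex.mul_conj', Complex.ofReal_pow]
    · rw [if_neg hy, if_neg hy]; simp
  rw [e1, ← key]
  refine sum_congr rfl fun k _ => sum_congr rfl fun b _ => ?_
  by_cases h1 : B.gr ν (sq k) T = B.gr ν (sq b) T
  · rw [if_pos h1]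
    by_cases h2 : B.acc (B.gr ν (sq k) T).1
    · rw [if_pos h2, if_pos (by rw [← h1]; exact h2), if_pos ⟨h2, h1⟩]
    · rw [if_neg h2, zero_mul, if_neg (fun h : B.acc (B.gr ν (sq k) T).1 ∧
        B.gr ν (sq k) T = B.gr ν (sq b) T => h2 h.1)]
  · rw [if_neg h1, if_neg (fun h => h1 h.2)]

open Classical in
/-- The sum over all labels. -/
theorem glob_sum (T F τ : ℕ) (x : Fin N → A) (h : P × Fin (T + 1) → Finset (Fin N)) :
    ∑ u : Fin T → M × (Q × Γ) × (Q × Γ), (if (B.wm.det (sq u)).Acc T F (fun _ => false) ∧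
        (∀ j, h j = B.wm.rdg T τ j (sq u)) ∧
        (∀ p, fin ((B.wm.det (sq u)).mem (fun _ => false) T p)) then
        ∏ t ∈ range T, B.g t (sq u t) ((B.wm.det (sq u)).qs (fun _ => false) t)
          ((B.wm.det (sq u)).mem (fun _ => false) t
            (B.wm.page ((B.wm.det (sq u)).qs (fun _ => false) t))) (x (B.wm.pos t (sq u t)))
        else 0) =
      ((∑ ν : Fin T → M, if B.few T F (sq ν) ∧ (∀ j, h j = B.rdv T τ j (sq ν)) then
        B.pv T x (sq ν) else 0 : ℝ) : ℂ) := by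
  have e2 : ∀ F : (Fin T → M × (Q × Γ) × (Q × Γ)) → ℂ, ∑ u, F u =
      ∑ ν : Fin T → M, ∑ k : Fin T → Q × Γ, ∑ b : Fin T → Q × Γ,
        F (fun t => (ν t, k t, b t)) := by
    intro F
    rw [← (Equiv.arrowProdEquivProdArrow (Fin T) (fun _ => M)
      (fun _ => (Q × Γ) × (Q × Γ))).symm.sum_comp, Fintype.sum_prod_type]
    refine sum_congr rfl fun ν _ => ?_
    rw [← (Equiv.arrowProdEquivProdArrow (Fin T) (fun _ => Q × Γ)
      (fun _ => Q × Γ)).symm.sum_comp, Fintype.sum_prod_type]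
    rfl
  rw [e2]
  push_cast
  refine sum_congr rfl fun ν _ => ?_
  have e3 : ∀ k b : Fin T → Q × Γ, (fun t => (sq (fun t => (ν t, k t, b t)) t).1) = sq ν ∧
      (fun t => (sq (fun t => (ν t, k t, b t)) t).2.1) = sq k ∧
      (fun t => (sq (fun t => (ν t, k t, b t)) t).2.2) = sq b := by
    intro k b
    refine ⟨?_, ?_, ?_⟩ <;> · funext n; rw [sq_prod]
  have e4 : ∀ k b : Fin T → Q × Γ,
      ((B.wm.det (sq (fun t => (ν t, k t, b t)))).Acc T F (fun _ => false) ∧
        (∀ j, h j = B.wm.rdg T τ j (sq (fun t => (ν t, k t, b t)))) ∧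
        (∀ p, fin ((B.wm.det (sq (fun t => (ν t, k t, b t)))).mem (fun _ => false) T p))) ↔
      ((B.few T F (sq ν) ∧ (∀ j, h j = B.rdv T τ j (sq ν))) ∧
        (B.acc (B.gr (sq ν) (sq k) T).1 ∧ B.gr (sq ν) (sq k) T = B.gr (sq ν) (sq b) T)) := by
    intro k b
    have h1 := B.acc_iff T F (sq (fun t => (ν t, k t, b t)))
    rw [(e3 k b).1, (e3 k b).2.1, (e3 k b).2.2] at h1
    have h2 : ∀ j, B.wm.rdg T τ j (sq (fun t => (ν t, k t, b t))) = B.rdv T τ j (sq ν) := by
      intro j
      rw [B.rdg_eq, (e3 k b).1]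
    simp only [h2]
    constructor
    · rintro ⟨a1, a2, a3⟩
      obtain ⟨b1, b2, b3⟩ := h1.1 ⟨a1, a3⟩
      exact ⟨⟨b1, a2⟩, b2, b3⟩
    · rintro ⟨⟨a1, a2⟩, a3, a4⟩
      obtain ⟨b1, b2⟩ := h1.2 ⟨a1, a3, a4⟩
      exact ⟨b1, a2, b2⟩
  have e5 : ∀ k b : Fin T → Q × Γ,
      ∏ t ∈ range T, B.g t (sq (fun t => (ν t, k t, b t)) t)
        ((B.wm.det (sq (fun t => (ν t, k t, b t)))).qs (fun _ => false) t)
          ((B.wm.det (sq (fun t => (ν t, k t, b t)))).mem (fun _ => false) t
            (B.wm.page ((B.wm.det (sq (fun t => (ν t, k t, b t)))).qs (fun _ => false) t)))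
          (x (B.wm.pos t (sq (fun t => (ν t, k t, b t)) t))) =
      (∏ t ∈ range T, B.gg x t (B.gz (sq ν) t) (sq ν t) (B.gr (sq ν) (sq k) t) (sq k t)) *
        star (∏ t ∈ range T, B.gg x t (B.gz (sq ν) t) (sq ν t)
          (B.gr (sq ν) (sq b) t) (sq b t)) := by
    intro k b
    rw [star_prod, ← prod_mul_distrib]
    refine prod_congr rfl fun t _ => ?_
    unfold DetPaged.qs DetPaged.mem
    rw [B.run_eq, (e3 k b).1, (e3 k b).2.1, (e3 k b).2.2, sq_prod]
    rfl
  by_cases hc : B.few T F (sq ν) ∧ (∀ j, h j = B.rdv T τ j (sq ν))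
  · rw [if_pos hc, B.pv_eq]
    refine sum_congr rfl fun k _ => sum_congr rfl fun b _ => ?_
    by_cases hd : B.acc (B.gr (sq ν) (sq k) T).1 ∧ B.gr (sq ν) (sq k) T = B.gr (sq ν) (sq b) T
    · rw [if_pos hd, if_pos ((e4 k b).2 ⟨hc, hd⟩), e5]
    · rw [if_neg hd, if_neg (fun hh => hd ((e4 k b).1 hh).2)]
  · rw [if_neg hc]
    refine sum_eq_zero fun k _ => sum_eq_zero fun b _ => ?_
    rw [if_neg (fun hh => hc ((e4 k b).1 hh).1)]

end QP

section fam

variable {N : ℕ} {A Z Q P Γ ι M O : Type} [DecidableEq P] [DecidableEq ι] [Fintype P]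
  [Fintype Q] [Fintype Γ] [Fintype ι] [Fintype M] [Fintype Z] [Fintype O] [Inhabited M]
  [Inhabited Q] [Inhabited Γ] [DecidableEq Q] [DecidableEq Γ]

open Classical in
/-- The family of distributed computations given by a quantum machine and random offsets. -/
noncomputable def qfam (B : O → QP N A Z Q P Γ ι M) (c : O → ℝ) (hc : ∀ o, 0 ≤ c o)
    (hK : ∀ o (x : Fin N → A) t, ∑ v, ((B o).K t v (x ((B o).pos t v))).conjTranspose *
      (B o).K t v (x ((B o).pos t v)) = 1)
    (T F τ n₁ n₂ : ℕ) (hτ : 1 ≤ τ) (hn₁ : F + 2 + T / τ ≤ n₁) (hn₂ : T / τ ≤ n₂) :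
    QRS N A (P × Fin (T + 1)) (O × DetPaged.Msg ((Q × Q) × Z) (ι → Γ × Γ) T n₁ n₂) where
  c i := c i.1
  w i j R x := (B i.1).wm.lw (B i.1).g QP.fin T F τ i.2 j R x
  pr x h := ∑ o, c o * ∑ ν : Fin T → M, if (B o).few T F (sq ν) ∧
    (∀ j, h j = (B o).rdv T τ j (sq ν)) then (B o).pv T x (sq ν) else 0
  c_nonneg i := hc i.1
  pr_nonneg x h := by
    refine sum_nonneg fun o _ => mul_nonneg (hc o) (sum_nonneg fun ν _ => ?_)
    split_ifs
    · exact (B o).pv_nonneg T x _
    · exact le_rfl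
  pr_eq x h := by
    rw [Fintype.sum_prod_type, Complex.ofReal_sum]
    refine sum_congr rfl fun o _ => ?_
    show _ = ∑ μ : DetPaged.Msg ((Q × Q) × Z) (ι → Γ × Γ) T n₁ n₂,
      (c o : ℂ) * ∏ j, (B o).wm.lw (B o).g QP.fin T F τ μ j (h j) x
    rw [← mul_sum, (B o).wm.decomp (B o).g QP.fin T F τ hτ hn₁ hn₂ x h, Complex.ofReal_mul]
    congr 1
    exact ((B o).glob_sum T F τ x h).symm
  local' i j R x x' h := (B i.1).wm.lw_local (B i.1).g QP.fin T F τ i.2 j R x x' h
  norm i j x := (B i.1).lw_norm T F τ hτ x (hK i.1 x) i.2 j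

end fam

end Pool.Agent.W107
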