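import Mathlib

/-!
# Quantum machines with an unlimited quantum work tape (definitions)
-/

open Finset Matrix

namespace Pool.Agent.W107

/-- Quantum machines with random access to `N` input bits and a `D`-dimensional quantum work tape.
The control is a quantum system with `d` basis states (`log₂ d` qubits), each cell of the tape is a
quantum system with `e` basis states (`log₂ e` qubits). In step `t` the control and the cell under
the head undergo together an arbitrary quantum instrument: an outcome `ν < M` is obtained, which
determines the position `pos t ν` of the input bit that is read and the vector `move t ν` by which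
the head is moved (at most one cell in each coordinate), and the Kraus operator `K t ν a` is
applied, where `a` is the bit read. The machine can thus read and move adaptively, depending on
measurements of the control and the cell and on randomness, but the input is not queried in
superposition and the position of the head is not a superposition. The program may depend
arbitrarily on the time, and there is no uniformity in `N`. -/
structure QTape (D N d e : ℕ) where
  /-- number of outcomes in each step -/
  M : ℕ
  /-- position of the input bit read in a step, given the outcome -/
  pos : ℕ → Fin M → Fin N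
  /-- movement of the head in a step, given the outcome -/
  move : ℕ → Fin M → Fin D → ℤ
  /-- the head is moved by at most one cell in each coordinate -/
  small : ∀ t ν k, |move t ν k| ≤ 1
  /-- Kraus operator applied to the control and the cell under the head, given the outcome and the
  bit read -/
  K : ℕ → Fin M → Bool → Matrix (Fin d × Fin e) (Fin d × Fin e) ℂ
  /-- initial basis state of the control -/
  start : Fin d
  /-- initial basis state of every cell -/
  blank : Fin e
  /-- accepting basis states of the control -/
  yes : Finset (Fin d)

namespace QTape

variable {D N d e : ℕ} (Q : QTape D N d e)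

/-- The Kraus operator of outcome `ν` in step `t` on input `x`. -/
def kr (x : Fin N → Bool) (t : ℕ) (ν : Fin Q.M) : Matrix (Fin d × Fin e) (Fin d × Fin e) ℂ :=
  Q.K t ν (x (Q.pos t ν))

/-- Every step is a (trace preserving) quantum operation, on every input. -/
def Valid : Prop := ∀ (x : Fin N → Bool) (t : ℕ), ∑ ν, (Q.kr x t ν)ᴴ * Q.kr x t ν = 1

end QTape

/-- The operator `K` on a control and one cell, applied to the control and the cell `c` of a tape
with the cells `C` (tensored with the identity on all other cells). -/
def onCell {d e : ℕ} {C : Type} [Fintype C] [DecidableEq C] (c : C)
    (K : Matrix (Fin d × Fin e) (Fin d × Fin e) ℂ) :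
    Matrix (Fin d × (C → Fin e)) (Fin d × (C → Fin e)) ℂ :=
  Matrix.of fun s s' => if ∀ z, z ≠ c → s.2 z = s'.2 z then K (s.1, s.2 c) (s'.1, s'.2 c) else 0

namespace QTape

variable {D N d e : ℕ} (Q : QTape D N d e)

/-- The movement of the head as a vector modulo `L`. -/
def mv (L : ℕ) (t : ℕ) (ν : Fin Q.M) : Fin D → ZMod L := fun k => (Q.move t ν k : ZMod L)

/-- The state after `t` steps. The cells are named by vectors modulo `L`; during `T` steps with
`2 * T < L` this is the same as a tape which is infinite in all directions. For each position `h`
of the head, `state L x t h` is the unnormalised density matrix of control and tape for the event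
that the head is in `h`. -/
noncomputable def state (L : ℕ) [NeZero L] (x : Fin N → Bool) : ℕ → (Fin D → ZMod L) →
    Matrix (Fin d × ((Fin D → ZMod L) → Fin e)) (Fin d × ((Fin D → ZMod L) → Fin e)) ℂ
  | 0 => fun h => if h = 0 then
      Matrix.single (Q.start, fun _ => Q.blank) (Q.start, fun _ => Q.blank) 1 else 0
  | t + 1 => fun h => ∑ ν, onCell (h - Q.mv L t ν) (Q.kr x t ν) *
      state L x t (h - Q.mv L t ν) * (onCell (h - Q.mv L t ν) (Q.kr x t ν))ᴴ

/-- The probability that a measurement of the control after `T` steps gives a result in `B`. -/
noncomputable def prob (L : ℕ) [NeZero L] (T : ℕ) (B : Finset (Fin d)) (x : Fin N → Bool) : ℝ :=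
  ∑ h, ∑ s, if s.1 ∈ B then (Q.state L x T h s s).re else 0

/-- After `T` steps the machine decides `P` with success probability at least `1/2 + δ` on every
input. -/
def Decides (L : ℕ) [NeZero L] (T : ℕ) (δ : ℝ) (P : (Fin N → Bool) → Prop) : Prop :=
  ∀ x, (P x → 1 / 2 + δ ≤ Q.prob L T Q.yes x) ∧ (¬ P x → 1 / 2 + δ ≤ Q.prob L T Q.yesᶜ x)

end QTape

end Pool.Agent.W107
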