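import Mathlib
import Pool.Agent.W107.Q.Fam
import Pool.Agent.W107.RandPaged

/-!
# Quantum machines with paged memory: the contradiction
-/

open Finset

namespace Pool.Agent.W107

open Pool.Agent.H774R2.QBIT (BitSat)
open Pool.Agent.H774R2.QBIT.Param (mu mu_ge)
open Pool.Agent.W107.Seq (sq)

section

variable {N : ℕ} {A Z Q P Γ ι M O : Type} [DecidableEq P] [DecidableEq ι] [Fintype P]
  [Fintype Q] [Fintype Γ] [Fintype ι] [Fintype M] [Fintype Z] [Fintype O] [Inhabited M]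
  [Inhabited Q] [Inhabited Γ] [DecidableEq Q] [DecidableEq Γ]

open Classical in
lemma qfam_tot (B : O → QP N A Z Q P Γ ι M) (c : O → ℝ) (hc : ∀ o, 0 ≤ c o)
    (hK : ∀ o (x : Fin N → A) t, ∑ v, ((B o).K t v (x ((B o).pos t v))).conjTranspose *
      (B o).K t v (x ((B o).pos t v)) = 1)
    (T F τ n₁ n₂ : ℕ) (hτ : 1 ≤ τ) (hn₁ : F + 2 + T / τ ≤ n₁) (hn₂ : T / τ ≤ n₂)
    (x : Fin N → A) : (qfam B c hc hK T F τ n₁ n₂ hτ hn₁ hn₂).tot x =
      ∑ o, c o * ∑ ν : Fin T → M, if (B o).few T F (sq ν) then (B o).pv T x (sq ν) else 0 := by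
  show ∑ h : P × Fin (T + 1) → Finset (Fin N), ∑ o, c o * ∑ ν : Fin T → M,
    (if (B o).few T F (sq ν) ∧ (∀ j, h j = (B o).rdv T τ j (sq ν)) then
      (B o).pv T x (sq ν) else 0) = _
  rw [sum_comm]
  refine sum_congr rfl fun o _ => ?_
  rw [← mul_sum, sum_comm]
  congr 1
  refine sum_congr rfl fun ν _ => ?_
  rw [sum_eq_single (fun j => (B o).rdv T τ j (sq ν))]
  · by_cases h : (B o).few T F (sq ν)
    · rw [if_pos h, if_pos ⟨h, fun _ => rfl⟩]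
    · rw [if_neg h, if_neg (fun hh => h hh.1)]
  · intro h _ hne
    rw [if_neg]
    rintro ⟨-, hh⟩
    exact hne (funext hh)
  · intro h; exact absurd (mem_univ _) h

lemma qfam_read (B : O → QP N A Z Q P Γ ι M) (c : O → ℝ) (hc : ∀ o, 0 ≤ c o)
    (hK : ∀ o (x : Fin N → A) t, ∑ v, ((B o).K t v (x ((B o).pos t v))).conjTranspose *
      (B o).K t v (x ((B o).pos t v)) = 1)
    (T F τ n₁ n₂ : ℕ) (hτ : 1 ≤ τ) (hn₁ : F + 2 + T / τ ≤ n₁) (hn₂ : T / τ ≤ n₂)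
    (x : Fin N → A) (h : P × Fin (T + 1) → Finset (Fin N))
    (h0 : (qfam B c hc hK T F τ n₁ n₂ hτ hn₁ hn₂).pr x h ≠ 0) :
    (∀ j, (h j).card ≤ τ) ∧ ∑ j, (h j).card ≤ T := by
  classical
  have h0' : ∑ o, c o * ∑ ν : Fin T → M,
    (if (B o).few T F (sq ν) ∧ (∀ j, h j = (B o).rdv T τ j (sq ν)) then
      (B o).pv T x (sq ν) else 0) ≠ 0 := h0
  obtain ⟨o, _, ho⟩ := exists_ne_zero_of_sum_ne_zero h0'
  obtain ⟨ν, _, hν⟩ := exists_ne_zero_of_sum_ne_zero (right_ne_zero_of_mul ho)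
  have hcond : ∀ j, h j = (B o).rdv T τ j (sq ν) := by
    by_contra hcon
    rw [if_neg (fun hh => hcon hh.2)] at hν
    exact hν rfl
  have hcard : ∀ j : P × Fin (T + 1), (h j).card ≤
      (piece (fun t => some ((B o).page ((B o).gz (sq ν) t))) T τ (some j.1) j.2.val).card := by
    intro j
    rw [hcond j]
    exact card_image_le
  refine ⟨fun j => (hcard j).trans (card_piece _ T τ hτ _ _), ?_⟩
  rw [Fintype.sum_prod_type]
  calc _ ≤ ∑ p : P, ∑ e : Fin (T + 1),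
        (piece (fun t => some ((B o).page ((B o).gz (sq ν) t))) T τ (some p) e.val).card :=
        sum_le_sum fun p _ => sum_le_sum fun e _ => hcard (p, e)
    _ = ∑ p : P, ∑ e ∈ range (T + 1),
        (piece (fun t => some ((B o).page ((B o).gz (sq ν) t))) T τ (some p) e).card := by
        refine sum_congr rfl fun p _ => ?_
        exact Fin.sum_univ_eq_sum_range
          (fun e => (piece (fun t => some ((B o).page ((B o).gz (sq ν) t))) T τ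
            (some p) e).card) (T + 1)
    _ ≤ ∑ p : Option P, ∑ e ∈ range (T + 1),
        (piece (fun t => some ((B o).page ((B o).gz (sq ν) t))) T τ p e).card := by
        rw [Fintype.sum_option]
        exact Nat.le_add_left _ _
    _ ≤ T := sum_piece _ T τ

end

open Classical in
theorem q_paged_contra {m ℓ S G F T : ℕ} {Z Q P Γ ι M O : Type} [DecidableEq P]
    [DecidableEq ι] [Fintype P] [Fintype Q] [Fintype Γ] [Fintype ι] [Fintype M] [Fintype Z]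
    [Fintype O] [Inhabited M] [Inhabited Q] [Inhabited Γ]
    [DecidableEq Q] [DecidableEq Γ]
    (B : O → QP (m * (3 * (ℓ + 1))) Bool Z Q P Γ ι M) (c : O → ℝ) (hc : ∀ o, 0 ≤ c o)
    (hc1 : ∑ o, c o ≤ 1)
    (hK : ∀ o (x : Fin (m * (3 * (ℓ + 1))) → Bool) t,
      ∑ v, ((B o).K t v (x ((B o).pos t v))).conjTranspose *
      (B o).K t v (x ((B o).pos t v)) = 1) (hℓ : m ≤ 2 ^ ℓ)
    (hQ : Fintype.card ((Q × Q) × Z) ≤ 2 ^ S) (hC : Fintype.card (ι → Γ × Γ) ≤ 2 ^ G)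
    (hS : Nat.log 2 m ≤ S) (hS1 : 1 ≤ S) (δ : ℝ) (hδ : 0 < δ) (hδ' : δ ≤ 1 / 2)
    (hno : ∀ x, ¬ BitSat m ℓ x → 1 / 2 + δ ≤ ∑ o, c o * ∑ ν : Fin T → M,
      if (B o).few T F (sq ν) then (B o).pv T x (sq ν) else 0)
    (hyes : ∀ x, BitSat m ℓ x → (∑ o, c o * ∑ ν : Fin T → M,
      if (B o).few T F (sq ν) then (B o).pv T x (sq ν) else 0) ≤ 1 / 2 - δ)
    (H h k κ w : ℕ) (hH : 2 / δ ≤ H) (hHh : H ≤ 2 ^ h) (hk : 1 ≤ k) (hkκ : k ≤ 2 ^ κ)
    (hw : 2 * mu H h k κ + 4 * κ + h + 30 ≤ w)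
    (hm : ((F + 1) * S + G) * 2 ^ (12 * w + 7) ≤ m) (hT : 32 * H * (T + w * m) ≤ k * w * m) :
    False := by
  obtain ⟨R, hR⟩ : ∃ R, R = (F + 1) * S + G := ⟨_, rfl⟩
  have hR1 : 1 ≤ R := by
    have : 1 ≤ (F + 1) * S := Nat.mul_pos (by omega) hS1
    omega
  rw [← hR] at hm
  have hHpos : 1 ≤ H := by
    have h1 : (0 : ℝ) < H := lt_of_lt_of_le (by positivity) hH
    exact_mod_cast h1
  have hm1 : 2 ^ (12 * w + 7) ≤ m := (Nat.le_mul_of_pos_left _ hR1).trans hm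
  have hkw : k * w ≤ 2 ^ (2 * w) := by
    calc k * w ≤ 2 ^ κ * 2 ^ w := Nat.mul_le_mul hkκ Nat.lt_two_pow_self.le
      _ ≤ 2 ^ w * 2 ^ w := Nat.mul_le_mul_right _ (Nat.pow_le_pow_right (by norm_num) (by omega))
      _ = 2 ^ (2 * w) := by rw [← pow_add]; exact pcg (by ring)
  have hT32 : 32 * T ≤ 2 ^ (2 * w) * m := by
    calc 32 * T ≤ 32 * H * T := Nat.mul_le_mul_right _ (Nat.le_mul_of_pos_right _ hHpos)
      _ ≤ 32 * H * (T + w * m) := Nat.mul_le_mul_left _ (Nat.le_add_right _ _)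
      _ ≤ k * w * m := hT
      _ ≤ 2 ^ (2 * w) * m := Nat.mul_le_mul_right _ hkw
  -- the epochs
  have hp0 : 0 < 2 ^ (5 * w + 2) := by positivity
  obtain ⟨τ, hτ⟩ : ∃ τ, τ = m / 2 ^ (5 * w + 2) := ⟨_, rfl⟩
  have hτ1 : 1 ≤ τ := by
    rw [hτ]
    refine (Nat.le_div_iff_mul_le hp0).2 ?_
    rw [one_mul]
    exact (Nat.pow_le_pow_right (by norm_num) (by omega)).trans hm1
  have hτm : τ * 2 ^ (5 * w + 2) ≤ m := by rw [hτ]; exact Nat.div_mul_le_self _ _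
  obtain ⟨X, hX⟩ : ∃ X, X = 2 ^ (7 * w) := ⟨_, rfl⟩
  have hX1 : 1 ≤ X := by rw [hX]; exact Nat.one_le_two_pow
  have hTτ : T / τ ≤ X := by
    have h1 : m < τ * 2 ^ (5 * w + 3) := by
      have := Nat.lt_mul_div_succ m hp0
      rw [← hτ] at this
      calc m < 2 ^ (5 * w + 2) * (τ + 1) := this
        _ ≤ 2 ^ (5 * w + 2) * (2 * τ) := Nat.mul_le_mul_left _ (by omega)
        _ = τ * (2 ^ (5 * w + 2) * 2) := by ring
        _ = τ * 2 ^ (5 * w + 3) := by rw [← pow_succ]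
    have h2 : 32 * T ≤ 32 * (τ * X) := by
      calc 32 * T ≤ 2 ^ (2 * w) * m := hT32
        _ ≤ 2 ^ (2 * w) * (τ * 2 ^ (5 * w + 3)) := Nat.mul_le_mul_left _ h1.le
        _ = τ * (2 ^ (2 * w) * 2 ^ (5 * w) * 2 ^ 3) := by rw [pow_add 2 (5 * w) 3]; ring
        _ = τ * (2 ^ (7 * w) * 2 ^ 3) := by
            rw [← pow_add, pcg (show 2 * w + 5 * w = 7 * w by ring)]
        _ = 8 * (τ * X) := by rw [hX]; ring
        _ ≤ 32 * (τ * X) := Nat.mul_le_mul_right _ (by norm_num)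
    calc T / τ ≤ τ * X / τ := Nat.div_le_div_right (by omega)
      _ = X := Nat.mul_div_cancel_left _ (by omega)
  -- the length of the time is polynomial
  have hT1 : T + 1 ≤ 2 ^ (2 * S + 1) := by
    have h1 : m < 2 ^ (Nat.log 2 m + 1) := Nat.lt_pow_succ_log_self (by norm_num) m
    have h2 : 12 * w + 7 ≤ Nat.log 2 m := Nat.le_log_of_pow_le (by norm_num) hm1
    have h3 : m ≤ 2 ^ (S + 1) := h1.le.trans (Nat.pow_le_pow_right (by norm_num) (by omega))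
    have h4 : 2 ^ (2 * w) ≤ 2 ^ S := Nat.pow_le_pow_right (by norm_num) (by omega)
    have h6 : 32 ≤ 2 ^ (2 * w) * m := by
      calc 32 = 1 * 2 ^ 5 := by norm_num
        _ ≤ 2 ^ (2 * w) * m := Nat.mul_le_mul Nat.one_le_two_pow
          ((Nat.pow_le_pow_right (by norm_num) (by omega)).trans hm1)
    calc T + 1 ≤ 2 ^ (2 * w) * m := by omega
      _ ≤ 2 ^ S * 2 ^ (S + 1) := Nat.mul_le_mul h4 h3
      _ = 2 ^ (2 * S + 1) := by rw [← pow_add]; exact pcg (by ring)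
  obtain ⟨n₁, hn₁⟩ : ∃ n₁, n₁ = F + 2 + T / τ := ⟨_, rfl⟩
  obtain ⟨n₂, hn₂⟩ : ∃ n₂, n₂ = T / τ := ⟨_, rfl⟩
  obtain ⟨P', hP'⟩ : ∃ P', P' = (3 * S + 2) * n₁ + (2 * S + G + 2) * n₂ := ⟨_, rfl⟩
  have hcard : (Fintype.card (DetPaged.Msg ((Q × Q) × Z) (ι → Γ × Γ) T n₁ n₂) : ℝ) ≤ 2 ^ P' := by
    have h1 : Fintype.card (DetPaged.Msg ((Q × Q) × Z) (ι → Γ × Γ) T n₁ n₂) ≤ 2 ^ P' := by
      rw [hP']
      exact card_msg (T := T) (n₁ := n₁) (n₂ := n₂) hQ hC hT1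
    calc (Fintype.card (DetPaged.Msg ((Q × Q) × Z) (ι → Γ × Γ) T n₁ n₂) : ℝ) ≤ ((2 ^ P' : ℕ) : ℝ) := by
          exact Nat.cast_le.2 h1
      _ = 2 ^ P' := by push_cast; rfl
  refine QRS.contra (qfam B c hc hK T F τ n₁ n₂ hτ1 hn₁.ge hn₂.ge) (P := P')
    (d' := τ) (T := T) δ hδ hδ' ?_ ?_ ?_ ?_ hℓ H h k κ w hH hHh hk hkκ hw ?_ hT
  · have h1 : ∑ i : O × DetPaged.Msg ((Q × Q) × Z) (ι → Γ × Γ) T n₁ n₂,
        (qfam B c hc hK T F τ n₁ n₂ hτ1 hn₁.ge hn₂.ge).c i =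
        (∑ o, c o) * Fintype.card (DetPaged.Msg ((Q × Q) × Z) (ι → Γ × Γ) T n₁ n₂) := by
      rw [Fintype.sum_prod_type]
      show ∑ o, ∑ _μ : DetPaged.Msg ((Q × Q) × Z) (ι → Γ × Γ) T n₁ n₂, c o = _
      rw [sum_mul]
      refine sum_congr rfl fun o _ => ?_
      rw [sum_const, card_univ, nsmul_eq_mul, mul_comm]
    rw [h1]
    calc (∑ o, c o) * (Fintype.card (DetPaged.Msg ((Q × Q) × Z) (ι → Γ × Γ) T n₁ n₂) : ℝ)
        ≤ 1 * (Fintype.card (DetPaged.Msg ((Q × Q) × Z) (ι → Γ × Γ) T n₁ n₂) : ℝ) :=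
          mul_le_mul_of_nonneg_right hc1 (by positivity)
      _ = (Fintype.card (DetPaged.Msg ((Q × Q) × Z) (ι → Γ × Γ) T n₁ n₂) : ℝ) := one_mul _
      _ ≤ _ := hcard
  · intro x hx
    rw [qfam_tot B c hc hK T F τ n₁ n₂ hτ1 hn₁.ge hn₂.ge x]
    exact hno x hx
  · intro x hx
    rw [qfam_tot B c hc hK T F τ n₁ n₂ hτ1 hn₁.ge hn₂.ge x]
    exact hyes x hx
  · intro x hh h0
    exact qfam_read B c hc hK T F τ n₁ n₂ hτ1 hn₁.ge hn₂.ge x hh h0
  -- the size of the messages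
  have hP : P' + 1 ≤ R * 2 ^ (7 * w + 6) := by
    rw [hP']
    have e1 : n₁ ≤ F + 2 + X := by omega
    have e2 : n₂ ≤ X := by omega
    have e3 : (3 * S + 2) * n₁ + (2 * S + G + 2) * n₂ + 1 ≤
        (5 * S) * (F + 2 + X) + (4 * S + G) * X + 1 := by
      apply Nat.add_le_add_right
      exact Nat.add_le_add (Nat.mul_le_mul (by omega) e1) (Nat.mul_le_mul (by omega) e2)
    have hRe : R = F * S + S + G := by rw [hR]; ring
    have hSR : S ≤ R := by omega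
    have hFSR : F * S ≤ R := by omega
    have hGR : G ≤ R := by rw [hR]; exact Nat.le_add_left _ _
    have e4 : R ≤ R * X := Nat.le_mul_of_pos_right _ hX1
    have e5 : S * X ≤ R * X := Nat.mul_le_mul_right _ hSR
    have e6 : G * X ≤ R * X := Nat.mul_le_mul_right _ hGR
    have e7 : (5 * S) * (F + 2 + X) + (4 * S + G) * X + 1 =
        5 * (F * S) + 10 * S + 9 * (S * X) + G * X + 1 := by ring
    have e8 : R * 2 ^ (7 * w + 6) = 64 * (R * X) := by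
      rw [hX, pow_add]; ring
    rw [e8]
    omega
  have h1 : (P' + 1) * 2 ^ (5 * w) * 2 ≤ m := by
    calc (P' + 1) * 2 ^ (5 * w) * 2
        ≤ R * 2 ^ (7 * w + 6) * 2 ^ (5 * w) * 2 := by
          apply Nat.mul_le_mul_right
          exact Nat.mul_le_mul_right _ hP
      _ = R * 2 ^ (12 * w + 7) := by
          rw [show 12 * w + 7 = (7 * w + 6) + (5 * w) + 1 by ring, pow_succ, pow_add]
          ring
      _ ≤ m := hm
  have h2 : τ * 2 ^ (5 * w) * 4 ≤ m := by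
    calc τ * 2 ^ (5 * w) * 4 = τ * 2 ^ (5 * w + 2) := by
          rw [pow_add]; ring
      _ ≤ m := hτm
  have h3 : (P' + τ + 1) * 2 ^ (5 * w) = (P' + 1) * 2 ^ (5 * w) + τ * 2 ^ (5 * w) := by ring
  omega

end Pool.Agent.W107
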