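import Mathlib
import Pool.Agent.W107.Q.Machine
import Pool.Agent.W107.Q.Step
import Pool.Agent.W107.Q.Norm2

/-!
# Quantum tape machines: sums over sequences of outcomes
-/

open Finset
open Matrix (mulVec vecMulVec vecMulVec_apply)

namespace Pool.Agent.W107

open Pool.Agent.W107.Seq (sq sq_lt reg vec stepv path_sum norm_sum sum_succ)

open Classical in
/-- Sums of squares of vectors as sums over pairs of paths. -/
lemma sq_sum_eq {V X : Type} [Fintype V] [Inhabited V] [Fintype X] (f : ℕ → X → V → X)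
    (γ : ℕ → X → V → ℂ) (x0 : X) (C : X → Prop) (T : ℕ) :
    ((∑ y, (if C y then ‖vec f γ x0 T y‖ ^ 2 else 0) : ℝ) : ℂ) =
    ∑ k : Fin T → V, ∑ b : Fin T → V,
      if C (reg f x0 (sq k) T) ∧ reg f x0 (sq k) T = reg f x0 (sq b) T then
        (∏ t ∈ range T, γ t (reg f x0 (sq k) t) (sq k t)) *
        star (∏ t ∈ range T, γ t (reg f x0 (sq b) t) (sq b t)) else 0 := by
  have hA : ∀ y, (if C y then vec f γ x0 T y else 0) = ∑ k : Fin T → V,
      if reg f x0 (sq k) T = y then (if C (reg f x0 (sq k) T) then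
        ∏ t ∈ range T, γ t (reg f x0 (sq k) t) (sq k t) else 0) else 0 := by
    intro y
    rw [← path_sum f γ x0 y T]
    by_cases hy : C y
    · rw [if_pos hy]
      refine sum_congr rfl fun k _ => ?_
      by_cases h : reg f x0 (sq k) T = y
      · rw [if_pos h, if_pos h, h, if_pos hy]
      · rw [if_neg h, if_neg h]
    · rw [if_neg hy]
      symm
      refine sum_eq_zero fun k _ => ?_
      by_cases h : reg f x0 (sq k) T = y
      · rw [if_pos h, h, if_neg hy]
      · rw [if_neg h]
  have key := pair_sum (fun k : Fin T → V => reg f x0 (sq k) T)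
    (fun k : Fin T → V => reg f x0 (sq k) T)
    (fun k => if C (reg f x0 (sq k) T) then
      ∏ t ∈ range T, γ t (reg f x0 (sq k) t) (sq k t) else 0)
    (fun k => if C (reg f x0 (sq k) T) then
      ∏ t ∈ range T, γ t (reg f x0 (sq k) t) (sq k t) else 0)
    (fun y y' => y = y') (fun y => if C y then vec f γ x0 T y else 0)
    (fun y => if C y then vec f γ x0 T y else 0) hA hA (fun _ => True)
    (fun y h => absurd trivial h) (fun y h => absurd trivial h) (fun y => rfl)
    (fun y y' _ _ h => h)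
  have e1 : ((∑ y, (if C y then ‖vec f γ x0 T y‖ ^ 2 else 0) : ℝ) : ℂ) =
      ∑ y, (if C y then vec f γ x0 T y else 0) * star (if C y then vec f γ x0 T y else 0) := by
    rw [Complex.ofReal_sum]
    refine sum_congr rfl fun y _ => ?_
    by_cases hy : C y
    · rw [if_pos hy, if_pos hy, Complex.star_def, Complex.mul_conj', Complex.ofReal_pow]
    · rw [if_neg hy, if_neg hy]; simp
  rw [e1, ← key]
  refine sum_congr rfl fun k _ => sum_congr rfl fun b _ => ?_
  by_cases h1 : reg f x0 (sq k) T = reg f x0 (sq b) T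
  · rw [if_pos h1]
    by_cases h2 : C (reg f x0 (sq k) T)
    · have h3 : C (reg f x0 (sq b) T) := by rw [← h1]; exact h2
      rw [if_pos h2, if_pos h3, if_pos ⟨h2, h1⟩]
    · rw [if_neg h2, zero_mul, if_neg (fun h : C (reg f x0 (sq k) T) ∧
        reg f x0 (sq k) T = reg f x0 (sq b) T => h2 h.1)]
  · rw [if_neg h1, if_neg (fun h => h1 h.2)]

section oncell

variable {d e : ℕ} {C : Type} [Fintype C] [DecidableEq C]

/-- One step of the computation on one side. -/
def tf (c : C) (y : Fin d × (C → Fin e)) (k : Fin d × Fin e) : Fin d × (C → Fin e) :=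
  (k.1, Function.update y.2 c k.2)

/-- The weight of one step on one side. -/
def tg (K : Matrix (Fin d × Fin e) (Fin d × Fin e) ℂ) (c : C) (y : Fin d × (C → Fin e))
    (k : Fin d × Fin e) : ℂ := K k (y.1, y.2 c)

lemma stepv_eq (K : Matrix (Fin d × Fin e) (Fin d × Fin e) ℂ) (c : C)
    (A : Fin d × (C → Fin e) → ℂ) : stepv (tf c) (tg K c) A = (onCell c K).mulVec A := by
  classical
  funext y
  unfold stepv mulVec dotProduct
  refine sum_congr rfl fun x _ => ?_
  show _ = (if ∀ z, z ≠ c → y.2 z = x.2 z then K (y.1, y.2 c) (x.1, x.2 c) else 0) * A x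
  by_cases h : ∀ z, z ≠ c → y.2 z = x.2 z
  · rw [if_pos h, sum_eq_single (y.1, y.2 c)]
    · have : tf c x (y.1, y.2 c) = y := by
        unfold tf
        apply Prod.ext
        · rfl
        · funext z
          by_cases hz : z = c
          · subst hz; simp
          · simp only [Function.update_of_ne hz]
            exact (h z hz).symm
      rw [if_pos this]
      rfl
    · intro k _ hk
      rw [if_neg]
      intro hh
      apply hk
      rw [← hh]
      unfold tf
      simp
    · intro hh; exact absurd (mem_univ _) hh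
  · rw [if_neg h, zero_mul]
    refine sum_eq_zero fun k _ => ?_
    rw [if_neg]
    intro hh
    apply h
    intro z hz
    rw [← hh]
    unfold tf
    simp [hz]

end oncell

namespace QTape

variable {D N d e : ℕ} (Q : QTape D N d e)

/-- The position of the head. -/
def hd (ν : ℕ → Fin Q.M) : ℕ → Fin D → ℤ
  | 0 => 0
  | t + 1 => hd ν t + Q.move t (ν t)

lemma hd_congr (ν ν' : ℕ → Fin Q.M) (t : ℕ) (h : ∀ s < t, ν s = ν' s) :
    Q.hd ν t = Q.hd ν' t := by
  induction t with
  | zero => rfl
  | succ t ih => rw [hd, hd, ih (fun s hs => h s (by omega)), h t (by omega)]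

lemma hd_bound (ν : ℕ → Fin Q.M) (t : ℕ) (k : Fin D) : |Q.hd ν t k| ≤ t := by
  induction t with
  | zero => simp [hd]
  | succ t ih =>
    have h1 := Q.small t (ν t) k
    rw [hd]
    simp only [Pi.add_apply]
    rw [abs_le] at ih h1 ⊢
    push_cast
    omega

lemma hd_move (ν : ℕ → Fin Q.M) (t : ℕ) (k : Fin D) :
    |Q.hd ν (t + 1) k - Q.hd ν t k| ≤ 1 := by
  rw [hd]
  simp only [Pi.add_apply, add_sub_cancel_left]
  exact Q.small _ _ _

/-- The cell under the head. -/
def cl (L : ℕ) (ν : ℕ → Fin Q.M) (t : ℕ) : Fin D → ZMod L := fun k => (Q.hd ν t k : ZMod L)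

lemma cl_succ (L : ℕ) (ν : ℕ → Fin Q.M) (t : ℕ) :
    Q.cl L ν (t + 1) = Q.cl L ν t + Q.mv L t (ν t) := by
  funext k
  unfold cl mv
  rw [hd]
  simp

lemma cl_congr (L : ℕ) (ν ν' : ℕ → Fin Q.M) (t : ℕ) (h : ∀ s < t, ν s = ν' s) :
    Q.cl L ν t = Q.cl L ν' t := by
  unfold cl
  rw [Q.hd_congr ν ν' t h]

variable (L : ℕ) [NeZero L]

/-- The vector after `t` steps. -/
noncomputable def psi (x : Fin N → Bool) (ν : ℕ → Fin Q.M) (t : ℕ) :
    Fin d × ((Fin D → ZMod L) → Fin e) → ℂ :=
  vec (fun s => tf (Q.cl L ν s)) (fun s => tg (Q.kr x s (ν s)) (Q.cl L ν s))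
    (Q.start, fun _ => Q.blank) t

lemma psi_succ (x : Fin N → Bool) (ν : ℕ → Fin Q.M) (t : ℕ) :
    Q.psi L x ν (t + 1) = (onCell (Q.cl L ν t) (Q.kr x t (ν t))).mulVec (Q.psi L x ν t) := by
  unfold psi
  rw [vec, stepv_eq]

lemma psi_congr (x : Fin N → Bool) (ν ν' : ℕ → Fin Q.M) (t : ℕ) (h : ∀ s < t, ν s = ν' s) :
    Q.psi L x ν t = Q.psi L x ν' t := by
  induction t with
  | zero => rfl
  | succ t ih =>
    rw [psi_succ, psi_succ, ih (fun s hs => h s (by omega)), h t (by omega),
      Q.cl_congr L ν ν' t (fun s hs => h s (by omega))]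

lemma psi_zero (x : Fin N → Bool) (ν : ℕ → Fin Q.M)
    (s : Fin d × ((Fin D → ZMod L) → Fin e)) :
    Q.psi L x ν 0 s = if (Q.start, fun _ => Q.blank) = s then 1 else 0 := by
  unfold psi vec
  by_cases h : (Q.start, fun _ => Q.blank) = s
  · rw [if_pos h, if_pos h]
  · rw [if_neg h, if_neg h]

open Classical in
/-- The state as a sum over the sequences of outcomes. -/
lemma state_eq [Inhabited (Fin Q.M)] (x : Fin N → Bool) (t : ℕ) (h : Fin D → ZMod L) :
    Q.state L x t h = ∑ ν : Fin t → Fin Q.M, if Q.cl L (sq ν) t = h then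
      vecMulVec (Q.psi L x (sq ν) t) (star (Q.psi L x (sq ν) t)) else 0 := by
  induction t generalizing h with
  | zero =>
    rw [Fintype.sum_unique]
    have e1 : ∀ ν : ℕ → Fin Q.M, Q.cl L ν 0 = 0 := by
      intro ν; funext k; simp [cl, hd]
    rw [e1, state]
    beta_reduce
    by_cases h0 : h = 0
    · rw [if_pos h0, if_pos h0.symm]
      ext s s'
      rw [vecMulVec_apply, Pi.star_apply, psi_zero, psi_zero, Matrix.single_apply]
      by_cases a1 : (Q.start, fun _ => Q.blank) = s
      · by_cases a2 : (Q.start, fun _ => Q.blank) = s'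
        · rw [if_pos a1, if_pos a2, if_pos ⟨a1, a2⟩]; simp
        · rw [if_pos a1, if_neg a2, if_neg (fun hh => a2 hh.2)]; simp
      · rw [if_neg a1, if_neg (fun hh => a1 hh.1)]; simp
    · rw [if_neg h0, if_neg (Ne.symm h0)]
  | succ t ih =>
    rw [state]
    rw [sum_succ t (fun ν => if Q.cl L ν (t + 1) = h then
      vecMulVec (Q.psi L x ν (t + 1)) (star (Q.psi L x ν (t + 1))) else 0), sum_comm]
    refine sum_congr rfl fun v _ => ?_
    rw [ih, Matrix.mul_sum, Matrix.sum_mul]
    refine sum_congr rfl fun ν _ => ?_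
    have e0 : ∀ s < t, Function.update (sq ν) t v s = sq ν s := fun s hs =>
      Function.update_of_ne (by omega) _ _
    have e1 : Q.cl L (Function.update (sq ν) t v) (t + 1) = Q.cl L (sq ν) t + Q.mv L t v := by
      rw [cl_succ, Q.cl_congr L _ _ t e0, Function.update_self]
    have e2 : Q.psi L x (Function.update (sq ν) t v) (t + 1) =
        (onCell (Q.cl L (sq ν) t) (Q.kr x t v)).mulVec (Q.psi L x (sq ν) t) := by
      rw [psi_succ, Q.cl_congr L _ _ t e0, Q.psi_congr L x _ _ t e0, Function.update_self]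
    rw [e1, e2]
    by_cases hc : Q.cl L (sq ν) t + Q.mv L t v = h
    · have hc' : Q.cl L (sq ν) t = h - Q.mv L t v := eq_sub_of_add_eq hc
      rw [if_pos hc, if_pos hc', ← hc', Matrix.mul_vecMulVec, Matrix.vecMulVec_mul,
        Matrix.star_mulVec]
    · have hc' : ¬ Q.cl L (sq ν) t = h - Q.mv L t v := fun hh => hc (by rw [hh]; abel)
      rw [if_neg hc, if_neg hc']
      simp

open Classical in
/-- The probability as a sum over the sequences of outcomes. -/
lemma prob_eq [Inhabited (Fin Q.M)] (T : ℕ) (B : Finset (Fin d)) (x : Fin N → Bool) :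
    Q.prob L T B x = ∑ ν : Fin T → Fin Q.M, ∑ s, if s.1 ∈ B then
      ‖Q.psi L x (sq ν) T s‖ ^ 2 else 0 := by
  unfold prob
  have e1 : ∀ (h : Fin D → ZMod L) (s : Fin d × ((Fin D → ZMod L) → Fin e)),
      (if s.1 ∈ B then (Q.state L x T h s s).re else 0) =
      ∑ ν : Fin T → Fin Q.M, if Q.cl L (sq ν) T = h then
        (if s.1 ∈ B then ‖Q.psi L x (sq ν) T s‖ ^ 2 else 0) else 0 := by
    intro h s
    rw [state_eq, Matrix.sum_apply, Complex.re_sum]
    by_cases hs : s.1 ∈ B
    · rw [if_pos hs]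
      refine sum_congr rfl fun ν _ => ?_
      by_cases hc : Q.cl L (sq ν) T = h
      · rw [if_pos hc, if_pos hc, if_pos hs, vecMulVec_apply, Pi.star_apply, Complex.star_def,
          Complex.mul_conj', ← Complex.ofReal_pow, Complex.ofReal_re]
      · rw [if_neg hc, if_neg hc]; rfl
    · rw [if_neg hs]
      symm
      refine sum_eq_zero fun ν _ => ?_
      rw [if_neg hs, ite_self]
  calc _ = ∑ h, ∑ s, ∑ ν : Fin T → Fin Q.M, (if Q.cl L (sq ν) T = h then
        (if s.1 ∈ B then ‖Q.psi L x (sq ν) T s‖ ^ 2 else 0) else 0) :=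
        sum_congr rfl fun h _ => sum_congr rfl fun s _ => e1 h s
    _ = ∑ h, ∑ ν : Fin T → Fin Q.M, ∑ s, (if Q.cl L (sq ν) T = h then
        (if s.1 ∈ B then ‖Q.psi L x (sq ν) T s‖ ^ 2 else 0) else 0) :=
        sum_congr rfl fun h _ => sum_comm
    _ = ∑ ν : Fin T → Fin Q.M, ∑ h, ∑ s, (if Q.cl L (sq ν) T = h then
        (if s.1 ∈ B then ‖Q.psi L x (sq ν) T s‖ ^ 2 else 0) else 0) := sum_comm
    _ = _ := by
        refine sum_congr rfl fun ν _ => ?_
        rw [sum_eq_single (Q.cl L (sq ν) T)]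
        · refine sum_congr rfl fun s _ => ?_
          rw [if_pos rfl]
        · intro h _ hne
          refine sum_eq_zero fun s _ => ?_
          rw [if_neg (Ne.symm hne)]
        · intro hh; exact absurd (mem_univ _) hh

/-- The total probability is at most one. -/
lemma total_le [Inhabited (Fin Q.M)] (hQ : Q.Valid) (T : ℕ) (x : Fin N → Bool) :
    ∑ ν : Fin T → Fin Q.M, ∑ s, ‖Q.psi L x (sq ν) T s‖ ^ 2 ≤ 1 := by
  classical
  have := norm_sum (V := Fin Q.M) (X := Fin d × ((Fin D → ZMod L) → Fin e))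
    (K := Fin d × Fin e) (fun ν t => Q.cl L ν t) (fun u u' t h => Q.cl_congr L u u' t h)
    (fun _ z _ => tf z) (fun t z v => tg (Q.kr x t v) z) (Q.start, fun _ => Q.blank)
    (fun _ _ => True) T trivial (fun _ _ _ _ _ _ _ _ => trivial) (by
      intro t _ z A _
      have h1 := QStep.step_norm (fun v => Q.kr x t v) (hQ x t) z none Q.start A
        (fun h => by simp at h)
      refine le_trans (le_of_eq ?_) h1
      refine sum_congr rfl fun v _ => sum_congr rfl fun y _ => ?_
      congr 2
      unfold stepv tf tg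
      refine sum_congr rfl fun x' _ => sum_congr rfl fun k _ => ?_
      by_cases hh : (k.1, Function.update x'.2 z k.2) = y
      · rw [if_pos hh, if_pos hh]; rfl
      · rw [if_neg hh, if_neg hh]) T le_rfl
  exact this.2

end QTape

end Pool.Agent.W107
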