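import Mathlib
import Pool.Agent.W107.Q.Torus
import Pool.Agent.W107.Q.QPaged
import Pool.Agent.W107.RandTapePar

/-!
# Simulation of quantum tape machines by quantum machines with paged memory
-/

open Finset

namespace Pool.Agent.W107

open Pool.Agent.W107.Seq (sq sq_lt reg path_sum norm_sum sum_succ)
open TapeMachine (Pos Pg rem rem_val pg_mem)
open RandTape (clamp clamp_val cell_eq)

lemma upd_two {P ι Γ : Type} [DecidableEq P] [DecidableEq ι] (A : P → ι → Γ) (p p' : P)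
    (r r' : ι) (v : Γ) : Function.update A p (Function.update (A p) r v) p' r' =
      if p' = p ∧ r' = r then v else A p' r' := by
  by_cases hp : p' = p
  · subst hp
    rw [Function.update_self]
    by_cases hr : r' = r
    · subst hr
      rw [Function.update_self, if_pos ⟨rfl, rfl⟩]
    · rw [Function.update_of_ne hr, if_neg (fun h => hr h.2)]
  · rw [Function.update_of_ne hp, if_neg (fun h => hp h.1)]

/-- A position as a place on the torus. -/
def cst {D T : ℕ} (L : ℕ) (z : Pos D T) : Fin D → ZMod L := fun k => (((z k : ℤ)) : ZMod L)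

lemma cst_inj {D T L : ℕ} (hL : 2 * T < L) (z z' : Pos D T) (h : cst L z = cst L z') :
    z = z' := by
  funext k
  apply Subtype.ext
  have h1 : (((z k : ℤ)) : ZMod L) = ((z' k : ℤ) : ZMod L) := congrFun h k
  rw [ZMod.intCast_eq_intCast_iff_dvd_sub] at h1
  have h2 := (z k).2
  have h3 := (z' k).2
  rw [mem_Icc] at h2 h3
  have h4 := Int.eq_zero_of_abs_lt_dvd h1 (by rw [abs_lt]; omega)
  omega

namespace QTape

variable {D N d e : ℕ} (Q : QTape D N d e)

/-- The machine with paged memory which simulates `T` steps. -/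
noncomputable def toQP (T l : ℕ) [NeZero l] (o : Fin D → Fin l) :
    QP N Bool (Pos D T) (Fin d) (Pg D T l) (Fin e) (Fin D → Fin l) (Fin Q.M) where
  page z := fun k => ⟨((z k : ℤ) + (o k).val) / (l : ℤ), pg_mem z o k⟩
  cell z := rem (fun k => (z k : ℤ)) o
  nz t ν z := clamp T ((fun k => (z k : ℤ)) + Q.move t ν)
  pos := Q.pos
  K := Q.K
  z0 := clamp T 0
  start := Q.start
  blank := Q.blank
  acc q := q ∉ Q.yes

/-- The computation on one side on the torus. -/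
def tr (L : ℕ) (ν : ℕ → Fin Q.M) (k : ℕ → Fin d × Fin e) (t : ℕ) :
    Fin d × ((Fin D → ZMod L) → Fin e) :=
  reg (fun s => tf (Q.cl L ν s)) (Q.start, fun _ => Q.blank) k t

lemma tr_succ (L : ℕ) (ν : ℕ → Fin Q.M) (k : ℕ → Fin d × Fin e) (t : ℕ) :
    Q.tr L ν k (t + 1) = tf (Q.cl L ν t) (Q.tr L ν k t) (k t) := rfl

variable (T l : ℕ) [NeZero l] (o : Fin D → Fin l)

lemma gz_hd (ν : ℕ → Fin Q.M) (t : ℕ) (ht : t ≤ T) (k : Fin D) :
    (((Q.toQP T l o).gz ν t k : ℤ)) = Q.hd ν t k := by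
  induction t generalizing k with
  | zero =>
    show ((clamp T 0 k : ℤ)) = 0
    rw [clamp_val]
    · rfl
    · simp
  | succ t ih =>
    have h1 : (fun k => (((Q.toQP T l o).gz ν t k : ℤ))) = Q.hd ν t :=
      funext fun k => ih (by omega) k
    show ((clamp T ((fun k => (((Q.toQP T l o).gz ν t k : ℤ))) + Q.move t (ν t)) k : ℤ)) = _
    rw [h1, clamp_val]
    · rfl
    · have h2 := Q.hd_bound ν (t + 1) k
      rw [hd] at h2
      refine h2.trans ?_
      exact_mod_cast ht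

lemma pc_inj (z z' : Pos D T) (h1 : (Q.toQP T l o).page z = (Q.toQP T l o).page z')
    (h2 : (Q.toQP T l o).cell z = (Q.toQP T l o).cell z') : z = z' := by
  have e1 := (cell_eq o (fun k => ((z k : ℤ) + (o k).val) / (l : ℤ))
    (rem (fun k => (z k : ℤ)) o) (fun k => (z k : ℤ))).2 ⟨rfl, rfl⟩
  have e2 := (cell_eq o (fun k => ((z' k : ℤ) + (o k).val) / (l : ℤ))
    (rem (fun k => (z' k : ℤ)) o) (fun k => (z' k : ℤ))).2 ⟨rfl, rfl⟩
  have e3 : (fun k => ((z k : ℤ) + (o k).val) / (l : ℤ)) =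
      fun k => ((z' k : ℤ) + (o k).val) / (l : ℤ) := by
    funext k
    exact congrArg Subtype.val (congrFun h1 k)
  have e4 : rem (fun k => (z k : ℤ)) o = rem (fun k => (z' k : ℤ)) o := h2
  funext k
  apply Subtype.ext
  have e5 := congrFun e1 k
  have e6 := congrFun e2 k
  have e7 := congrFun e3 k
  rw [e4, e7] at e5
  exact e5.symm.trans e6

lemma cl_eq (L : ℕ) (ν : ℕ → Fin Q.M) (t : ℕ) (ht : t ≤ T) :
    Q.cl L ν t = cst L ((Q.toQP T l o).gz ν t) := by
  funext k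
  unfold cl cst
  rw [Q.gz_hd T l o ν t ht k]

theorem sim (L : ℕ) (hL : 2 * T < L) (ν : ℕ → Fin Q.M) (k : ℕ → Fin d × Fin e) (t : ℕ)
    (ht : t ≤ T) :
    ((Q.toQP T l o).gr ν k t).1 = (Q.tr L ν k t).1 ∧
    (∀ z : Pos D T, ((Q.toQP T l o).gr ν k t).2 ((Q.toQP T l o).page z)
      ((Q.toQP T l o).cell z) = (Q.tr L ν k t).2 (cst L z)) ∧
    (∀ p r, (∀ z : Pos D T, ¬ ((Q.toQP T l o).page z = p ∧ (Q.toQP T l o).cell z = r)) →
      ((Q.toQP T l o).gr ν k t).2 p r = Q.blank) ∧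
    (∀ y, (∀ z : Pos D T, cst L z ≠ y) → (Q.tr L ν k t).2 y = Q.blank) := by
  induction t with
  | zero => exact ⟨rfl, fun _ => rfl, fun _ _ _ => rfl, fun _ _ => rfl⟩
  | succ t ih =>
    obtain ⟨i1, i2, i3, i4⟩ := ih (by omega)
    rw [QP.gr_succ, tr_succ, Q.cl_eq T l o L ν t (by omega)]
    unfold QP.gf tf
    refine ⟨rfl, fun z => ?_, fun p r hpr => ?_, fun y hy => ?_⟩
    · simp only
      rw [upd_two]
      by_cases hz : z = (Q.toQP T l o).gz ν t
      · subst hz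
        rw [if_pos ⟨rfl, rfl⟩, Function.update_self]
      · rw [if_neg (fun h => hz (Q.pc_inj T l o _ _ h.1 h.2)),
          Function.update_of_ne (fun h => hz (cst_inj hL _ _ h)), i2]
    · simp only
      rw [upd_two, if_neg, i3 p r hpr]
      rintro ⟨h1, h2⟩
      exact hpr _ ⟨h1.symm, h2.symm⟩
    · simp only
      rw [Function.update_of_ne (Ne.symm (hy _)), i4 y hy]

lemma sim_eq (L : ℕ) (hL : 2 * T < L) (ν : ℕ → Fin Q.M) (k b : ℕ → Fin d × Fin e) :
    (Q.toQP T l o).gr ν k T = (Q.toQP T l o).gr ν b T ↔ Q.tr L ν k T = Q.tr L ν b T := by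
  obtain ⟨a1, a2, a3, a4⟩ := Q.sim T l o L hL ν k T le_rfl
  obtain ⟨b1, b2, b3, b4⟩ := Q.sim T l o L hL ν b T le_rfl
  constructor
  · intro h
    apply Prod.ext
    · rw [← a1, ← b1, h]
    · funext y
      by_cases hy : ∀ z : Pos D T, cst L z ≠ y
      · rw [a4 y hy, b4 y hy]
      · push Not at hy
        obtain ⟨z, rfl⟩ := hy
        rw [← a2, ← b2, h]
  · intro h
    apply Prod.ext
    · rw [a1, b1, h]
    · funext p r
      by_cases hy : ∀ z : Pos D T, ¬ ((Q.toQP T l o).page z = p ∧ (Q.toQP T l o).cell z = r)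
      · rw [a3 p r hy, b3 p r hy]
      · push Not at hy
        obtain ⟨z, rfl, rfl⟩ := hy
        rw [a2, b2, h]

lemma gg_eq (L : ℕ) (hL : 2 * T < L) (x : Fin N → Bool) (ν : ℕ → Fin Q.M)
    (k : ℕ → Fin d × Fin e) (t : ℕ) (ht : t ≤ T) :
    (Q.toQP T l o).gg x t ((Q.toQP T l o).gz ν t) (ν t) ((Q.toQP T l o).gr ν k t) (k t) =
    tg (Q.kr x t (ν t)) (Q.cl L ν t) (Q.tr L ν k t) (k t) := by
  obtain ⟨a1, a2, a3, a4⟩ := Q.sim T l o L hL ν k t ht
  unfold QP.gg tg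
  rw [Q.cl_eq T l o L ν t ht, a1, a2]
  rfl

variable [Inhabited (Fin Q.M)] [Inhabited (Fin d)] [Inhabited (Fin e)]

open Classical in
/-- The probabilities of the simulating machine. -/
theorem pv_sim (L : ℕ) [NeZero L] (hL : 2 * T < L) (x : Fin N → Bool) (ν : ℕ → Fin Q.M) :
    (Q.toQP T l o).pv T x ν = ∑ s, if s.1 ∉ Q.yes then ‖Q.psi L x ν T s‖ ^ 2 else 0 := by
  have h1 := (Q.toQP T l o).pv_eq T x ν
  have h2 := sq_sum_eq (V := Fin d × Fin e) (X := Fin d × ((Fin D → ZMod L) → Fin e))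
    (fun s => tf (Q.cl L ν s)) (fun s => tg (Q.kr x s (ν s)) (Q.cl L ν s))
    (Q.start, fun _ => Q.blank) (fun s => s.1 ∉ Q.yes) T
  have h3 : (∑ s, (if s.1 ∉ Q.yes then ‖Q.psi L x ν T s‖ ^ 2 else 0) : ℝ) =
      ∑ s, @ite ℝ (s.1 ∉ Q.yes) (propDecidable (s.1 ∉ Q.yes)) (‖Q.psi L x ν T s‖ ^ 2) 0 := by
    refine sum_congr rfl fun s _ => ?_
    by_cases hs : s.1 ∉ Q.yes
    · rw [if_pos hs, if_pos hs]
    · rw [if_neg hs, if_neg hs]
  apply Complex.ofReal_injective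
  rw [h1, h3]
  refine Eq.trans ?_ h2.symm
  refine sum_congr rfl fun k _ => sum_congr rfl fun b _ => ?_
  have e1 : ∀ k : Fin T → Fin d × Fin e,
      ∏ t ∈ range T, (Q.toQP T l o).gg x t ((Q.toQP T l o).gz ν t) (ν t)
        ((Q.toQP T l o).gr ν (sq k) t) (sq k t) =
      ∏ t ∈ range T, tg (Q.kr x t (ν t)) (Q.cl L ν t)
        (reg (fun s => tf (Q.cl L ν s)) (Q.start, fun _ => Q.blank) (sq k) t) (sq k t) := by
    intro k
    refine prod_congr rfl fun t ht => ?_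
    exact Q.gg_eq T l o L hL x ν (sq k) t (mem_range.1 ht).le
  rw [e1, e1]
  have e2 : ((Q.toQP T l o).acc ((Q.toQP T l o).gr ν (sq k) T).1 ∧
      (Q.toQP T l o).gr ν (sq k) T = (Q.toQP T l o).gr ν (sq b) T) ↔
      ((reg (fun s => tf (Q.cl L ν s)) (Q.start, fun _ => Q.blank) (sq k) T).1 ∉ Q.yes ∧
      reg (fun s => tf (Q.cl L ν s)) (Q.start, fun _ => Q.blank) (sq k) T =
      reg (fun s => tf (Q.cl L ν s)) (Q.start, fun _ => Q.blank) (sq b) T) := by
    rw [Q.sim_eq T l o L hL ν (sq k) (sq b)]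
    refine and_congr_left fun _ => ?_
    show ((Q.toQP T l o).gr ν (sq k) T).1 ∉ Q.yes ↔ _
    rw [(Q.sim T l o L hL ν (sq k) T le_rfl).1]
    rfl
  by_cases hc : (Q.toQP T l o).acc ((Q.toQP T l o).gr ν (sq k) T).1 ∧
      (Q.toQP T l o).gr ν (sq k) T = (Q.toQP T l o).gr ν (sq b) T
  · rw [if_pos hc, if_pos (e2.1 hc)]
  · rw [if_neg hc, if_neg (fun h => hc (e2.2 h))]

end QTape

end Pool.Agent.W107
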