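import Mathlib
import Pool.Agent.W107.Q.Sim

/-!
# Quantum tape machines: the parameters
-/

open Finset

namespace Pool.Agent.W107

open Pool.Agent.H774R2.QBIT (BitSat)
open Pool.Agent.H774R2.QBIT.Param (mu mu_ge)
open Pool.Agent.W107.Seq (sq)
open TapeMachine (Pos Pg rem rem_val pg_mem)

namespace QTape

variable {D N d e : ℕ} (Q : QTape D N d e)

lemma few_iff (T F l : ℕ) [NeZero l] (o : Fin D → Fin l) (ν : ℕ → Fin Q.M) :
    (Q.toQP T l o).few T F ν ↔ {t | t < T ∧ ∃ k, (Q.hd ν (t + 1) k + (o k).val) / (l : ℤ) ≠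
        (Q.hd ν t k + (o k).val) / l}.ncard ≤ F := by
  have h1 : {t | t < T ∧ (Q.toQP T l o).page ((Q.toQP T l o).gz ν (t + 1)) ≠
      (Q.toQP T l o).page ((Q.toQP T l o).gz ν t)} =
      {t | t < T ∧ ∃ k, (Q.hd ν (t + 1) k + (o k).val) / (l : ℤ) ≠
        (Q.hd ν t k + (o k).val) / l} := by
    ext t
    refine and_congr_right fun ht => ?_
    rw [Ne, funext_iff, not_forall]
    refine exists_congr fun k => ?_
    rw [← Q.gz_hd T l o ν t (by omega), ← Q.gz_hd T l o ν (t + 1) ht, Ne, Subtype.ext_iff]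
    rfl
  unfold QP.few
  rw [h1]

open Classical in
/-- Few offsets are crossed often. -/
lemma few_bad (T F l H : ℕ) [NeZero l] (hF : H * (D * T) < (F + 1) * l) (ν : ℕ → Fin Q.M) :
    H * (univ.filter fun o : Fin D → Fin l => ¬ (Q.toQP T l o).few T F ν).card ≤ l ^ D := by
  have hl : 1 ≤ l := Nat.pos_of_ne_zero (NeZero.ne l)
  obtain ⟨b, hb⟩ : ∃ b, b = (univ.filter fun o : Fin D → Fin l =>
      ¬ (Q.toQP T l o).few T F ν).card := ⟨_, rfl⟩
  rw [← hb]
  have h1 := sum_offset (D := D) (l := l) T (Q.hd ν) (fun t _ k => Q.hd_move ν t k)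
  have h2 : b * (F + 1) ≤ ∑ o : Fin D → Fin l, {t | t < T ∧ ∃ k,
      (Q.hd ν (t + 1) k + (o k).val) / (l : ℤ) ≠ (Q.hd ν t k + (o k).val) / l}.ncard := by
    rw [hb, ← smul_eq_mul, ← sum_const]
    refine le_trans (sum_le_sum fun o ho => ?_) (sum_le_sum_of_subset (filter_subset _ _))
    rw [mem_filter, few_iff] at ho
    omega
  have h3 : b * ((F + 1) * l) ≤ D * T * l ^ D := by
    calc b * ((F + 1) * l) = b * (F + 1) * l := by ring
      _ ≤ _ := (Nat.mul_le_mul_right _ h2).trans h1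
  by_contra hcon
  push Not at hcon
  rcases Nat.eq_zero_or_pos b with hb0 | hb0
  · rw [hb0, mul_zero] at hcon; omega
  rcases Nat.eq_zero_or_pos (D * T) with h0 | h0
  · rw [h0, zero_mul] at h3
    have : 0 < b * ((F + 1) * l) := Nat.mul_pos hb0 (Nat.mul_pos (by omega) hl)
    omega
  · have h4 : b * (H * (D * T)) < b * ((F + 1) * l) := Nat.mul_lt_mul_of_pos_left hF hb0
    have h5 : D * T * l ^ D < D * T * (H * b) := Nat.mul_lt_mul_of_pos_left hcon h0
    have h6 : D * T * (H * b) = b * (H * (D * T)) := by ring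
    omega

variable [Inhabited (Fin Q.M)] [Inhabited (Fin d)] [Inhabited (Fin e)]

/-- The probability of a sequence of outcomes followed by rejection. -/
noncomputable def rj (L T : ℕ) [NeZero L] (x : Fin N → Bool) (ν : Fin T → Fin Q.M) : ℝ :=
  ∑ s, if s.1 ∉ Q.yes then ‖Q.psi L x (sq ν) T s‖ ^ 2 else 0

lemma rj_nonneg (L T : ℕ) [NeZero L] (x : Fin N → Bool) (ν : Fin T → Fin Q.M) :
    0 ≤ Q.rj L T x ν := by
  unfold rj
  refine sum_nonneg fun s _ => ?_
  split_ifs <;> positivity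

lemma rj_sum (L T : ℕ) [NeZero L] (x : Fin N → Bool) :
    ∑ ν, Q.rj L T x ν = Q.prob L T Q.yesᶜ x := by
  rw [prob_eq]
  refine sum_congr rfl fun ν _ => sum_congr rfl fun s _ => ?_
  by_cases h : s.1 ∉ Q.yes
  · rw [if_pos h, if_pos (mem_compl.2 h)]
  · rw [if_neg h, if_neg (fun hh => h (mem_compl.1 hh))]

lemma prob_le (hQ : Q.Valid) (L T : ℕ) [NeZero L] (x : Fin N → Bool) :
    Q.prob L T Q.yes x + Q.prob L T Q.yesᶜ x ≤ 1 := by
  rw [prob_eq, prob_eq, ← sum_add_distrib]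
  refine le_trans (sum_le_sum fun ν _ => ?_) (Q.total_le L hQ T x)
  rw [← sum_add_distrib]
  refine sum_le_sum fun s _ => ?_
  by_cases h : s.1 ∈ Q.yes
  · rw [if_pos h, if_neg (fun hh => (mem_compl.1 hh) h), add_zero]
  · rw [if_neg h, if_pos (mem_compl.2 h), zero_add]

lemma prob_nonneg (L T : ℕ) [NeZero L] (B : Finset (Fin d)) (x : Fin N → Bool) :
    0 ≤ Q.prob L T B x := by
  rw [prob_eq]
  refine sum_nonneg fun ν _ => sum_nonneg fun s _ => ?_
  split_ifs <;> positivity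

open Classical in
lemma q_le (T F l : ℕ) [NeZero l] (L : ℕ) [NeZero L] (hL : 2 * T < L) (x : Fin N → Bool) :
    (∑ o : Fin D → Fin l, (1 / (l : ℝ) ^ D) * ∑ ν : Fin T → Fin Q.M,
      if (Q.toQP T l o).few T F (sq ν) then (Q.toQP T l o).pv T x (sq ν) else 0) ≤
      Q.prob L T Q.yesᶜ x := by
  have hl0 : (0 : ℝ) < l := by exact_mod_cast Nat.pos_of_ne_zero (NeZero.ne l)
  rw [← rj_sum]
  calc _ ≤ ∑ _o : Fin D → Fin l, (1 / (l : ℝ) ^ D) * ∑ ν, Q.rj L T x ν := by
        refine sum_le_sum fun o _ => mul_le_mul_of_nonneg_left ?_ (by positivity)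
        refine sum_le_sum fun ν _ => ?_
        split_ifs
        · rw [Q.pv_sim T l o L hL]
          exact le_rfl
        · exact Q.rj_nonneg L T x ν
    _ = _ := by
        simp only [sum_const, card_univ, Fintype.card_fun, Fintype.card_fin, nsmul_eq_mul]
        push_cast
        field_simp

open Classical in
lemma le_q (hQ : Q.Valid) (T F l H : ℕ) [NeZero l] (L : ℕ) [NeZero L] (hL : 2 * T < L)
    (hH : 1 ≤ H) (hF : H * (D * T) < (F + 1) * l) (x : Fin N → Bool) :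
    Q.prob L T Q.yesᶜ x - 1 / H ≤ ∑ o : Fin D → Fin l, (1 / (l : ℝ) ^ D) *
      ∑ ν : Fin T → Fin Q.M, if (Q.toQP T l o).few T F (sq ν) then
        (Q.toQP T l o).pv T x (sq ν) else 0 := by
  have hl0 : (0 : ℝ) < l := by exact_mod_cast Nat.pos_of_ne_zero (NeZero.ne l)
  have hH0 : (0 : ℝ) < H := by exact_mod_cast hH
  have h1 : (∑ o : Fin D → Fin l, (1 / (l : ℝ) ^ D) *
      ∑ ν : Fin T → Fin Q.M, if (Q.toQP T l o).few T F (sq ν) then
        (Q.toQP T l o).pv T x (sq ν) else 0) = ∑ ν : Fin T → Fin Q.M,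
      ∑ o : Fin D → Fin l, if (Q.toQP T l o).few T F (sq ν) then
        (1 / (l : ℝ) ^ D) * Q.rj L T x ν else 0 := by
    rw [sum_comm]
    refine sum_congr rfl fun o _ => ?_
    rw [mul_sum]
    refine sum_congr rfl fun ν _ => ?_
    split_ifs
    · rw [Q.pv_sim T l o L hL]
      rfl
    · rw [mul_zero]
  have key : ∀ ν : Fin T → Fin Q.M, Q.rj L T x ν - Q.rj L T x ν * (1 / H) ≤
      ∑ o : Fin D → Fin l, if (Q.toQP T l o).few T F (sq ν) then
        (1 / (l : ℝ) ^ D) * Q.rj L T x ν else 0 := by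
    intro ν
    have hbad := Q.few_bad T F l H hF (sq ν)
    obtain ⟨b, hb⟩ : ∃ b, b = (univ.filter fun o : Fin D → Fin l =>
      ¬ (Q.toQP T l o).few T F (sq ν)) := ⟨_, rfl⟩
    rw [← hb] at hbad
    have e1 : (∑ o : Fin D → Fin l, if (Q.toQP T l o).few T F (sq ν) then
        (1 / (l : ℝ) ^ D) * Q.rj L T x ν else 0) =
        ((univ.filter fun o : Fin D → Fin l => ¬ o ∈ b).card : ℝ) *
          ((1 / (l : ℝ) ^ D) * Q.rj L T x ν) := by
      rw [← nsmul_eq_mul, ← sum_const, sum_filter]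
      refine sum_congr rfl fun o _ => ?_
      have h2 : (Q.toQP T l o).few T F (sq ν) ↔ ¬ o ∈ b := by
        rw [hb, mem_filter]
        simp only [mem_univ, true_and, not_not]
      by_cases h3 : (Q.toQP T l o).few T F (sq ν)
      · rw [if_pos h3, if_pos (h2.1 h3)]
      · rw [if_neg h3, if_neg (fun hh => h3 (h2.2 hh))]
    have e2 : ((univ.filter fun o : Fin D → Fin l => ¬ o ∈ b).card : ℝ) =
        (l : ℝ) ^ D - b.card := by
      have h3 : (univ.filter fun o : Fin D → Fin l => ¬ o ∈ b) = bᶜ := by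
        ext o; simp
      rw [h3, card_compl, Fintype.card_fun, Fintype.card_fin, Fintype.card_fin, Nat.cast_sub]
      · push_cast; rfl
      · have := card_le_univ b
        rw [Fintype.card_fun, Fintype.card_fin, Fintype.card_fin] at this
        exact this
    rw [e1, e2]
    have e3 : (b.card : ℝ) ≤ (l : ℝ) ^ D / H := by
      rw [le_div_iff₀ hH0]
      have : (H : ℝ) * b.card ≤ (l : ℝ) ^ D := by exact_mod_cast hbad
      linarith
    have hp := Q.rj_nonneg L T x ν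
    have hlD : (0 : ℝ) < (l : ℝ) ^ D := by positivity
    calc Q.rj L T x ν - Q.rj L T x ν * (1 / H) = ((l : ℝ) ^ D - (l : ℝ) ^ D / H) *
          ((1 / (l : ℝ) ^ D) * Q.rj L T x ν) := by field_simp
      _ ≤ ((l : ℝ) ^ D - b.card) * ((1 / (l : ℝ) ^ D) * Q.rj L T x ν) := by
          apply mul_le_mul_of_nonneg_right _ (by positivity)
          linarith
  have h2 := sum_le_sum fun ν (_ : ν ∈ (univ : Finset (Fin T → Fin Q.M))) => key ν
  rw [sum_sub_distrib, ← sum_mul, rj_sum] at h2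
  rw [h1]
  refine le_trans ?_ h2
  have h3 : Q.prob L T Q.yesᶜ x ≤ 1 := by
    have := Q.prob_le hQ L T x
    have := Q.prob_nonneg L T Q.yes x
    linarith
  have h4 : Q.prob L T Q.yesᶜ x * (1 / H) ≤ 1 * (1 / H) :=
    mul_le_mul_of_nonneg_right h3 (by positivity)
  linarith

end QTape

theorem q_tape_contra {D m ℓ S g T L d e : ℕ} [NeZero L]
    (hD : 1 ≤ D) (Q : QTape D (m * (3 * (ℓ + 1))) d e) (hV : Q.Valid) (hℓ : m ≤ 2 ^ ℓ)
    (hQ : d ≤ 2 ^ S) (hΓ : e ≤ 2 ^ g) (hS : Nat.log 2 m ≤ S)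
    (hS1 : 1 ≤ S) (hg : 1 ≤ g) (hL : 2 * T < L) (δ : ℝ) (hδ : 0 < δ) (hδ' : δ ≤ 1 / 2)
    (hdec : Q.Decides L T δ (BitSat m ℓ))
    (H h k κ w : ℕ) (hH : 2 / (δ / 2) ≤ H) (hHh : H ≤ 2 ^ h) (hk : 1 ≤ k) (hkκ : k ≤ 2 ^ κ)
    (hw : 2 * mu H h k κ + 4 * κ + h + 30 ≤ w)
    (hm : S ^ D * g * 2 ^ ((2 * D ^ 2 + 18 * D + 14) * w) ≤ m)
    (hT : 32 * H * (T + w * m) ≤ k * w * m) : False := by
  classical
  have hHpos : 1 ≤ H := by
    have h1 : (0 : ℝ) < H := lt_of_lt_of_le (by positivity) hH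
    exact_mod_cast h1
  have hw30 : 30 ≤ w := by omega
  have hhw : h ≤ w := by omega
  obtain ⟨c, hc⟩ : ∃ c, c = 17 * w + 2 * D := ⟨_, rfl⟩
  obtain ⟨l, hl⟩ : ∃ l, l = S * 2 ^ c := ⟨_, rfl⟩
  have hl1 : 1 ≤ l := by rw [hl]; exact Nat.mul_pos hS1 (by positivity)
  haveI : NeZero l := ⟨by omega⟩
  have hSD : S ≤ S ^ D := by
    calc S = S ^ 1 := (pow_one S).symm
      _ ≤ S ^ D := Nat.pow_le_pow_right hS1 hD
  have hSg : S ≤ S ^ D * g := hSD.trans (Nat.le_mul_of_pos_right _ hg)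
  obtain ⟨E, hE⟩ : ∃ E, E = (2 * D ^ 2 + 18 * D + 14) * w := ⟨_, rfl⟩
  rw [← hE] at hm
  have hDw : D ≤ D * w := Nat.le_mul_of_pos_right _ (by omega)
  have hE1 : c * D + 12 * w + 9 + (D + 3) ≤ E := by
    have e1 : c * D = 17 * (D * w) + 2 * D ^ 2 := by rw [hc]; ring
    have e2 : E = 2 * D ^ 2 * w + 18 * (D * w) + 14 * w := by rw [hE]; ring
    have e3 : 2 * D ^ 2 ≤ 2 * D ^ 2 * w := Nat.le_mul_of_pos_right _ (by omega)
    omega
  have hE2 : 12 * w + 7 ≤ E := by omega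
  have hm1 : 2 ^ (12 * w + 7) ≤ m := by
    calc 2 ^ (12 * w + 7) ≤ 1 * 2 ^ E := by
          rw [one_mul]; exact Nat.pow_le_pow_right (by norm_num) hE2
      _ ≤ S ^ D * g * 2 ^ E := Nat.mul_le_mul_right _ (hS1.trans hSg)
      _ ≤ m := hm
  have hkw : k * w ≤ 2 ^ (2 * w) := by
    calc k * w ≤ 2 ^ κ * 2 ^ w := Nat.mul_le_mul hkκ Nat.lt_two_pow_self.le
      _ ≤ 2 ^ w * 2 ^ w := Nat.mul_le_mul_right _ (Nat.pow_le_pow_right (by norm_num) (by omega))
      _ = 2 ^ (2 * w) := by rw [← pow_add]; exact pcg (by ring)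
  have hT32 : 32 * T ≤ 2 ^ (2 * w) * m := by
    calc 32 * T ≤ 32 * H * T := Nat.mul_le_mul_right _ (Nat.le_mul_of_pos_right _ hHpos)
      _ ≤ 32 * H * (T + w * m) := Nat.mul_le_mul_left _ (Nat.le_add_right _ _)
      _ ≤ k * w * m := hT
      _ ≤ 2 ^ (2 * w) * m := Nat.mul_le_mul_right _ hkw
  -- the length of the time is polynomial
  have hT1 : T + 1 ≤ 2 ^ (2 * S + 1) := by
    have h1 : m < 2 ^ (Nat.log 2 m + 1) := Nat.lt_pow_succ_log_self (by norm_num) m
    have h2 : 12 * w + 7 ≤ Nat.log 2 m := Nat.le_log_of_pow_le (by norm_num) hm1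
    have h3 : m ≤ 2 ^ (S + 1) := h1.le.trans (Nat.pow_le_pow_right (by norm_num) (by omega))
    have h4 : 2 ^ (2 * w) ≤ 2 ^ S := Nat.pow_le_pow_right (by norm_num) (by omega)
    have h6 : 32 ≤ 2 ^ (2 * w) * m := by
      calc 32 = 1 * 2 ^ 5 := by norm_num
        _ ≤ 2 ^ (2 * w) * m := Nat.mul_le_mul Nat.one_le_two_pow
          ((Nat.pow_le_pow_right (by norm_num) (by omega)).trans hm1)
    calc T + 1 ≤ 2 ^ (2 * w) * m := by omega
      _ ≤ 2 ^ S * 2 ^ (S + 1) := Nat.mul_le_mul h4 h3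
      _ = 2 ^ (2 * S + 1) := by rw [← pow_add]; exact pcg (by ring)
  -- the cores and the pages
  have hQ' : Fintype.card ((Fin d × Fin d) × TapeMachine.Pos D T) ≤ 2 ^ (7 * D * S) := by
    rw [Fintype.card_prod, Fintype.card_prod, Fintype.card_fun, Fintype.card_fin,
      Fintype.card_fin, Fintype.card_coe, Int.card_Icc]
    have e1 : ((T : ℤ) + 1 - -(T : ℤ)).toNat = 2 * T + 1 := by omega
    rw [e1]
    have e2 : 2 * T + 1 ≤ 2 ^ (2 * S + 2) := by
      calc 2 * T + 1 ≤ 2 * (T + 1) := by omega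
        _ ≤ 2 * 2 ^ (2 * S + 1) := Nat.mul_le_mul_left _ hT1
        _ = 2 ^ (2 * S + 2) := by rw [mul_comm, ← pow_succ]
    calc d * d * (2 * T + 1) ^ D ≤ 2 ^ S * 2 ^ S * (2 ^ (2 * S + 2)) ^ D :=
          Nat.mul_le_mul (Nat.mul_le_mul hQ hQ) (Nat.pow_le_pow_left e2 D)
      _ = 2 ^ (S + S + (2 * S + 2) * D) := by rw [← pow_mul, ← pow_add, ← pow_add]
      _ ≤ 2 ^ (7 * D * S) := by
          apply Nat.pow_le_pow_right (by norm_num)
          have h1 : D ≤ D * S := Nat.le_mul_of_pos_right _ hS1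
          have h2 : S ≤ D * S := Nat.le_mul_of_pos_left _ hD
          have h3 : S + S + (2 * S + 2) * D = 2 * S + 2 * (D * S) + 2 * D := by ring
          have h4 : 7 * D * S = 7 * (D * S) := by ring
          rw [h3, h4]
          omega
  have hC' : Fintype.card ((Fin D → Fin l) → Fin e × Fin e) ≤ 2 ^ (2 * g * l ^ D) := by
    rw [Fintype.card_fun, Fintype.card_fun, Fintype.card_prod, Fintype.card_fin,
      Fintype.card_fin, Fintype.card_fin, pow_mul]
    refine Nat.pow_le_pow_left ?_ _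
    calc e * e ≤ 2 ^ g * 2 ^ g := Nat.mul_le_mul hΓ hΓ
      _ = 2 ^ (2 * g) := by rw [← pow_add, two_mul]
  -- the number of changes of the page
  obtain ⟨F, hF⟩ : ∃ F, F = H * (D * T) / l := ⟨_, rfl⟩
  have hFl : F * l ≤ H * (D * T) := by rw [hF]; exact Nat.div_mul_le_self _ _
  have hFl' : H * (D * T) < (F + 1) * l := by
    rw [hF, mul_comm _ l]; exact Nat.lt_mul_div_succ _ (by omega)
  have ha : 2 * g * l ^ D * 2 ^ (12 * w + 7) * 4 ≤ m := by
    calc 2 * g * l ^ D * 2 ^ (12 * w + 7) * 4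
        = S ^ D * g * (2 ^ (c * D) * 2 ^ (12 * w + 7) * 2 ^ 3) := by
          rw [hl, mul_pow, ← pow_mul]; ring
      _ = S ^ D * g * 2 ^ (c * D + (12 * w + 7) + 3) := by
          rw [← pow_add, ← pow_add]
      _ ≤ S ^ D * g * 2 ^ E := by
          apply Nat.mul_le_mul_left
          apply Nat.pow_le_pow_right (by norm_num)
          omega
      _ ≤ m := hm
  have hb : F * (7 * D * S) * 2 ^ (12 * w + 7) * 4 ≤ m := by
    have h1 : F * (7 * D * S) * 2 ^ (12 * w + 7) * 4 * 2 ^ c ≤ m * 2 ^ c := by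
      calc F * (7 * D * S) * 2 ^ (12 * w + 7) * 4 * 2 ^ c
          = 7 * D * (F * l) * (2 ^ (12 * w + 7) * 2 ^ 2) := by rw [hl]; ring
        _ ≤ 7 * D * (H * (D * T)) * (2 ^ (12 * w + 7) * 2 ^ 2) := by
            apply Nat.mul_le_mul_right
            exact Nat.mul_le_mul_left _ hFl
        _ = 7 * D ^ 2 * (H * T) * 2 ^ (12 * w + 9) := by rw [← pow_add]; ring
        _ ≤ 2 ^ (2 * D + 6) * (2 ^ w * (2 ^ (2 * w) * m)) * 2 ^ (12 * w + 9) := by
            apply Nat.mul_le_mul_right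
            apply Nat.mul_le_mul (sq_le_pow D)
            apply Nat.mul_le_mul
            · exact hHh.trans (Nat.pow_le_pow_right (by norm_num) hhw)
            · omega
        _ = m * (2 ^ (2 * D + 6) * 2 ^ w * 2 ^ (2 * w) * 2 ^ (12 * w + 9)) := by ring
        _ = m * 2 ^ (2 * D + 6 + w + 2 * w + (12 * w + 9)) := by
            rw [← pow_add, ← pow_add, ← pow_add]
        _ ≤ m * 2 ^ c := by
            apply Nat.mul_le_mul_left
            apply Nat.pow_le_pow_right (by norm_num)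
            omega
    exact Nat.le_of_mul_le_mul_right h1 (by positivity)
  have hcc : 7 * D * S * 2 ^ (12 * w + 7) * 4 ≤ m := by
    calc 7 * D * S * 2 ^ (12 * w + 7) * 4
        ≤ (2 ^ 3 * 2 ^ D) * (S ^ D * g) * 2 ^ (12 * w + 7) * 2 ^ 2 := by
          have h1 : 7 * D ≤ 2 ^ 3 * 2 ^ D :=
            Nat.mul_le_mul (by norm_num) Nat.lt_two_pow_self.le
          have h2 : 7 * D * S ≤ (2 ^ 3 * 2 ^ D) * (S ^ D * g) := Nat.mul_le_mul h1 hSg
          exact Nat.mul_le_mul (Nat.mul_le_mul_right _ h2) (by norm_num)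
      _ = S ^ D * g * (2 ^ 3 * 2 ^ D * 2 ^ (12 * w + 7) * 2 ^ 2) := by ring
      _ = S ^ D * g * 2 ^ (3 + D + (12 * w + 7) + 2) := by
          rw [← pow_add, ← pow_add, ← pow_add]
      _ ≤ S ^ D * g * 2 ^ E := by
          apply Nat.mul_le_mul_left
          apply Nat.pow_le_pow_right (by norm_num)
          omega
      _ ≤ m := hm
  haveI : Inhabited (Fin d) := ⟨Q.start⟩
  haveI : Inhabited (Fin e) := ⟨Q.blank⟩
  haveI : Nonempty (Fin Q.M) := by
    by_contra hne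
    rw [not_nonempty_iff] at hne
    have h1 := hV (fun _ => false) 0
    rw [Fintype.sum_empty] at h1
    have h2 := congrFun (congrFun h1 (Q.start, Q.blank)) (Q.start, Q.blank)
    rw [Matrix.one_apply_eq, Matrix.zero_apply] at h2
    exact zero_ne_one h2
  haveI : Inhabited (Fin Q.M) := ⟨Classical.choice inferInstance⟩
  have hHδ : 1 / (H : ℝ) ≤ δ / 2 := by
    have hH0 : (0 : ℝ) < H := by exact_mod_cast hHpos
    rw [div_le_iff₀ hH0]
    rw [div_le_iff₀ (by positivity)] at hH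
    linarith
  have hl0 : (0 : ℝ) < l := by exact_mod_cast hl1
  refine q_paged_contra (O := Fin D → Fin l) (fun o => Q.toQP T l o)
    (fun _ => 1 / (l : ℝ) ^ D) (fun _ => by positivity) ?_ (fun o x t => hV x t) hℓ
    (S := 7 * D * S) (G := 2 * g * l ^ D) (F := F) (T := T)
    hQ' hC' ?_ ?_ (δ / 2) (by positivity) (by linarith) ?_ ?_ H h k κ w hH hHh hk hkκ hw ?_ hT
  · apply le_of_eq
    simp only [sum_const, card_univ, Fintype.card_fun, Fintype.card_fin, nsmul_eq_mul]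
    push_cast
    field_simp
  · refine hS.trans ?_
    have : 1 * S ≤ 7 * D * S := Nat.mul_le_mul_right _ (by omega)
    omega
  · exact Nat.mul_pos (by omega) hS1
  · intro x hx
    have h1 := Q.le_q hV T F l H L hL hHpos hFl' x
    have h2 := (hdec x).2 hx
    refine le_trans ?_ h1
    linarith
  · intro x hx
    have h1 := Q.q_le T F l L hL x
    have h2 := (hdec x).1 hx
    have h3 := Q.prob_le hV L T x
    refine h1.trans ?_
    linarith
  · have e : ((F + 1) * (7 * D * S) + 2 * g * l ^ D) * 2 ^ (12 * w + 7) =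
      F * (7 * D * S) * 2 ^ (12 * w + 7) + 7 * D * S * 2 ^ (12 * w + 7) +
        2 * g * l ^ D * 2 ^ (12 * w + 7) := by ring
    rw [e]
    omega

end Pool.Agent.W107
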